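import Pool.Agent.Lib.MP_5591bc_ag.E.Set
import Pool.Agent.Lib.MP_5591bc_ag.M.SerG

/-! Continuation along a family of discs. -/

namespace Pool.Agent.Lib.MP_5591bc_ag.E

open Matrix Filter Topology MvPowerSeries G R W M Metric

noncomputable section

variable {σ K ν : Type*} [Fintype σ] [DecidableEq σ] [Field K] [Algebra K ℂ] [Fintype ν]
  [DecidableEq ν] {T : MvPolynomial σ K} {B : σ → Matrix ν ν (MvPolynomial σ K)}
  {U V : Set (σ → ℂ)} {P G : (σ → ℂ) → Matrix ν ν ℂ}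

theorem fund_mul (hP : FundM T B U P) {γ : Matrix ν ν ℂ} (hγ : γ.det ≠ 0) :
    FundM T B U fun t => P t * γ := by
  intro t ht
  refine ⟨by rw [det_mul]; exact mul_ne_zero (hP t ht).1 hγ, fun i j =>
    ⟨serG_ana hP γ ht i j, fun l => ?_⟩⟩
  have h := HasFDerivAt.fun_sum (u := Finset.univ) fun a _ =>
    (((hP t ht).2 i a).1.differentiableAt.hasFDerivAt.mul_const (γ a j))
  simp only [mul_apply]
  rw [h.fderiv]
  simp only [_root_.sum_apply, _root_.smul_apply, smul_eq_mul,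
    Finset.mul_sum]
  rw [Finset.sum_comm]
  refine Finset.sum_congr rfl fun a _ => ?_
  rw [mul_left_comm, ((hP t ht).2 i a).2 l, Finset.mul_sum]
  exact Finset.sum_congr rfl fun b _ => by ring

theorem fund_congr {p : σ → ℂ} (hP : FundM T B U P) (hp : p ∈ U) (e : G =ᶠ[𝓝 p] P) :
    FundM T B {p} G := by
  rintro _ rfl
  have e' : ∀ i j, (fun z => G z i j) =ᶠ[𝓝 _] fun z => P z i j := fun i j =>
    e.mono fun s hs => by simp only [hs]
  rw [e.eq_of_nhds]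
  refine ⟨(hP _ hp).1, fun i j => ⟨((hP _ hp).2 i j).1.congr (e' i j).symm, fun l => ?_⟩⟩
  rw [(e' i j).fderiv_eq]
  exact ((hP _ hp).2 i j).2 l

theorem cont_comp (hP : FundM T B U P) {φ : ℂ → σ → ℂ} {u : ℂ} (hφ : DifferentiableAt ℂ φ u)
    (hu : φ u ∈ U) (hT : MvPolynomial.aeval (φ u) T ≠ 0) :
    MSol (Apb T B φ) (fun v => P (φ v)) u := by
  intro i j
  have h := ((hP _ hu).2 i j).1.differentiableAt.hasFDerivAt.comp_hasDerivAt u hφ.hasDerivAt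
  refine HasDerivAt.congr_deriv h ?_
  have e : deriv φ u = ∑ l, deriv (φ · l) u • (Pi.single l 1 : σ → ℂ) := by
    ext l
    rw [(hasDerivAt_pi.1 hφ.hasDerivAt l).deriv.symm]
    simp [Pi.single_apply]
  rw [e, map_sum]
  simp only [mul_apply, Apb, of_apply, Finset.sum_mul, map_smul, smul_eq_mul]
  rw [Finset.sum_comm]
  refine Finset.sum_congr rfl fun l _ => ?_
  refine mul_left_cancel₀ hT ?_
  rw [mul_left_comm, ((hP _ hu).2 i j).2 l, Finset.mul_sum, Finset.mul_sum]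
  exact Finset.sum_congr rfl fun b _ => by field_simp

theorem cont_hol {φ : ℂ → σ → ℂ} {D : Set ℂ} (hD : IsOpen D) (hφ : DifferentiableOn ℂ φ D)
    (hT : ∀ u ∈ D, MvPolynomial.aeval (φ u) T ≠ 0) : Hol D (Apb T B φ) := by
  intro i j
  have h : ∀ q : MvPolynomial σ K,
      DifferentiableOn ℂ (fun u => MvPolynomial.aeval (φ u) q) D := fun q u hu =>
    (aeval_ana q).differentiableAt.comp_differentiableWithinAt u (hφ u hu)
  exact DifferentiableOn.fun_sum fun l _ =>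
    (((differentiableOn_pi.1 hφ l).deriv hD).mul (h _)).div (h T) hT

theorem fund_uniq (ho : IsOpen U) (ho' : IsOpen V) (hP : FundM T B U P) (hG : FundM T B V G)
    {p : σ → ℂ} (hp : p ∈ U) (hp' : p ∈ V) (hT : MvPolynomial.aeval p T ≠ 0) :
    ∀ᶠ z in 𝓝 p, P z = G z * ((G p)⁻¹ * P p) := by
  obtain ⟨r, r0, hr⟩ := Metric.eventually_nhds_iff_ball.1 (((aeval_ana T).continuousAt.eventually_ne
    hT).and (Filter.Eventually.and (ho.mem_nhds hp) (ho'.mem_nhds hp')))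
  filter_upwards [ball_mem_nhds p (half_pos r0)] with z hz
  have hd : Differentiable ℂ fun v : ℂ => p + v • (z - p) := by fun_prop
  have hm : ∀ v ∈ ball (0 : ℂ) 2, p + v • (z - p) ∈ ball p r := fun v hv => by
    rw [mem_ball_iff_norm] at hz
    rw [mem_ball_zero_iff] at hv
    rw [mem_ball_iff_norm, add_sub_cancel_left, norm_smul]
    nlinarith [norm_nonneg v, norm_nonneg (z - p)]
  have := muniq isOpen_ball (convex_ball (0 : ℂ) 2).isPreconnected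
    (cont_hol (B := B) isOpen_ball hd.differentiableOn fun v hv => (hr _ (hm v hv)).1)
    (fun v hv => cont_comp hP (hd v) (hr _ (hm v hv)).2.1 (hr _ (hm v hv)).1)
    (fun v hv => (cont_comp hG (hd v) (hr _ (hm v hv)).2.2 (hr _ (hm v hv)).1).mul_const
      ((G p)⁻¹ * P p)) (mem_ball_self two_pos)
    (by simp only [zero_smul, add_zero]
        rw [← Matrix.mul_assoc, mul_nonsing_inv _ (hG p hp').1.isUnit, Matrix.one_mul])
    (x := 1) (by simp)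
  simpa only [one_smul, add_sub_cancel] using this

theorem fund_comp (hP : FundM T B U P) {φ : ℂ → σ → ℂ} {u : ℂ} (hφ : DifferentiableAt ℂ φ u)
    (hu : φ u ∈ U) (hT : MvPolynomial.aeval (φ u) T ≠ 0) :
    MSol (Apb T B φ) (fun v => P (φ v)) u :=
  cont_comp hP hφ hu hT

theorem apb_hol {φ : ℂ → σ → ℂ} {D : Set ℂ} (hD : IsOpen D) (hφ : DifferentiableOn ℂ φ D)
    (hT : ∀ u ∈ D, MvPolynomial.aeval (φ u) T ≠ 0) : Hol D (Apb T B φ) :=
  cont_hol hD hφ hT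

theorem cont {Θ : Type*} [PseudoMetricSpace Θ] (loc : Loc T B) (ho : IsOpen V)
    (hP : FundM T B V P) {O : Set Θ} (hO : IsOpen O) {R : ℝ} {Φ : Θ → ℂ → σ → ℂ}
    (hd : ∀ θ ∈ O, DifferentiableOn ℂ (Φ θ) (ball 0 R))
    (hc : ContinuousOn (fun p : Θ × ℂ => Φ p.1 p.2) (O ×ˢ ball 0 R))
    (hT : ∀ θ ∈ O, ∀ u ∈ ball (0 : ℂ) R, MvPolynomial.aeval (Φ θ u) T ≠ 0)
    (h0 : ∀ θ ∈ O, Φ θ 0 ∈ V) {Y : Θ → ℂ → Matrix ν ν ℂ} (hY : ∀ θ ∈ O, Y θ 0 = P (Φ θ 0) ∧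
      ∀ u ∈ ball (0 : ℂ) R, MSol (Apb T B (Φ θ)) (Y θ) u) :
    (∀ θ ∈ O, ∀ u ∈ ball (0 : ℂ) R, ∃ V' G, IsOpen V' ∧ FundM T B V' G ∧ Φ θ u ∈ V' ∧
      ∀ᶠ p in 𝓝 (θ, u), Y p.1 p.2 = G (Φ p.1 p.2)) ∧
    (0 < R → ∀ θ ∈ O, ∀ᶠ p in 𝓝 (θ, (0 : ℂ)), Y p.1 p.2 = P (Φ p.1 p.2)) := by
  have ca : ∀ θ ∈ O, ∀ u ∈ ball (0 : ℂ) R, ContinuousAt (fun p : Θ × ℂ => Φ p.1 p.2) (θ, u) :=
    fun θ hθ u hu => hc.continuousAt ((hO.prod isOpen_ball).mem_nhds ⟨hθ, hu⟩)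
  have key : ∀ θ ∈ O, ∀ u ∈ ball (0 : ℂ) R, ∀ V', IsOpen V' → Φ θ u ∈ V' → ∃ r > 0,
      ball u r ⊆ ball 0 R ∧ (∀ v ∈ ball u r, Φ θ v ∈ V') ∧ ∀ G, FundM T B V' G → ∀ w ∈ ball u r,
        (∀ᶠ η in 𝓝 θ, Y η w = G (Φ η w)) → ∀ v ∈ ball u r,
          ∀ᶠ p in 𝓝 (θ, v), Y p.1 p.2 = G (Φ p.1 p.2) := by
    intro θ hθ u hu V' o' m'
    have h1 := Filter.Eventually.and ((ca θ hθ u hu).eventually (o'.mem_nhds m'))
      ((hO.prod isOpen_ball).mem_nhds (⟨hθ, hu⟩ : (θ, u) ∈ O ×ˢ ball (0 : ℂ) R))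
    rw [nhds_prod_eq, eventually_prod_iff] at h1
    obtain ⟨a, ha, b, hb, hab⟩ := h1
    obtain ⟨r, r0, hr⟩ := Metric.eventually_nhds_iff_ball.1 hb
    have sub : ball u r ⊆ ball 0 R := fun v hv => (hab ha.self_of_nhds (hr v hv)).2.2
    refine ⟨r, r0, sub, fun v hv => (hab ha.self_of_nhds (hr v hv)).1, fun G hG w hw he v hv => ?_⟩
    have h2 : ∀ᶠ η in 𝓝 θ, Set.EqOn (Y η) (fun v => G (Φ η v)) (ball u r) := by
      filter_upwards [ha, he] with η h3 h4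
      have o := (hab h3 (hr w hw)).2.1
      exact muniq isOpen_ball (convex_ball u r).isPreconnected
        (cont_hol isOpen_ball ((hd η o).mono sub) fun v hv => hT η o v (sub hv))
        (fun v hv => (hY η o).2 v (sub hv)) (fun v hv => cont_comp hG
          ((hd η o).differentiableAt (isOpen_ball.mem_nhds (sub hv))) (hab h3 (hr v hv)).1
          (hT η o v (sub hv))) hw h4
    rw [nhds_prod_eq]
    exact (h2.prod_mk (isOpen_ball.mem_nhds hv)).mono fun p hp => hp.1 hp.2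
  have z0 : ∀ θ ∈ O, ∀ᶠ η in 𝓝 θ, Y η 0 = P (Φ η 0) := fun θ hθ =>
    mem_of_superset (hO.mem_nhds hθ) fun η hη => (hY η hη).1
  refine ⟨fun θ hθ => ?_, fun R0 θ hθ => ?_⟩
  · let Q : ℂ → Prop := fun u => ∃ V' G, IsOpen V' ∧ FundM T B V' G ∧ Φ θ u ∈ V' ∧
      ∀ᶠ η in 𝓝 θ, Y η u = G (Φ η u)
    have st : ∀ u ∈ ball (0 : ℂ) R, ∃ r > 0, ∀ w ∈ ball u r, Q w → ∀ v ∈ ball u r,
        ∃ V' G, IsOpen V' ∧ FundM T B V' G ∧ Φ θ v ∈ V' ∧
          ∀ᶠ p in 𝓝 (θ, v), Y p.1 p.2 = G (Φ p.1 p.2) := by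
      intro u hu
      obtain ⟨V1, G1, o1, m1, f1⟩ := loc _ (hT θ hθ u hu)
      obtain ⟨r, r0, sub, hm, hk⟩ := key θ hθ u hu V1 o1 m1
      refine ⟨r, r0, ?_⟩
      rintro w hw ⟨V2, G2, o2, f2, m2, e2⟩ v hv
      have f3 := fund_mul f1 (γ := (G1 (Φ θ w))⁻¹ * G2 (Φ θ w)) (by
        rw [det_mul, det_nonsing_inv, Ring.inverse_eq_inv]
        exact mul_ne_zero (inv_ne_zero (f1 _ (hm w hw)).1) (f2 _ m2).1)
      refine ⟨V1, _, o1, f3, hm v hv, hk _ f3 w hw ?_ v hv⟩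
      have c : ContinuousAt (fun η => Φ η w) θ :=
        (ca θ hθ w (sub hw)).comp_of_eq (f := fun η => (η, w)) (by fun_prop) rfl
      filter_upwards [e2, c.eventually (fund_uniq o2 o1 f2 f1 m2 (hm w hw) (hT θ hθ w (sub hw)))]
        with η h1 h2
      exact h1.trans h2
    have wk : ∀ v, (∃ V' G, IsOpen V' ∧ FundM T B V' G ∧ Φ θ v ∈ V' ∧
        ∀ᶠ p in 𝓝 (θ, v), Y p.1 p.2 = G (Φ p.1 p.2)) → Q v := by
      rintro v ⟨V1, G1, o1, f1, m1, e⟩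
      have c : ContinuousAt (fun η : Θ => (η, v)) θ := by fun_prop
      exact ⟨V1, G1, o1, f1, m1, c.eventually e⟩
    intro u hu
    have R0 : (0 : ℂ) ∈ ball (0 : ℂ) R := mem_ball_self (pos_of_mem_ball hu)
    have q : Q u := (convex_ball (0 : ℂ) R).isPreconnected.induction₂' (fun x y => Q x → Q y)
      (fun x hx => by
        obtain ⟨r, r0, h⟩ := st x hx
        refine mem_nhdsWithin_of_mem_nhds (mem_of_superset (ball_mem_nhds x r0) fun y hy => ?_)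
        exact ⟨fun q => wk _ (h x (mem_ball_self r0) q y hy),
          fun q => wk _ (h y hy q x (mem_ball_self r0))⟩)
      (fun _ _ _ _ _ _ a b c => b (a c)) R0 hu ⟨V, P, ho, hP, h0 θ hθ, z0 θ hθ⟩
    obtain ⟨r, r0, h⟩ := st u hu
    exact h u (mem_ball_self r0) q u (mem_ball_self r0)
  · obtain ⟨r, r0, -, -, hk⟩ := key θ hθ 0 (mem_ball_self R0) V ho (h0 θ hθ)
    exact hk P hP 0 (mem_ball_self r0) (z0 θ hθ) 0 (mem_ball_self r0)

end

end Pool.Agent.Lib.MP_5591bc_ag.E
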