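import Mathlib

/-! A holomorphic function with `2^(-L) ≤ |h| ≤ 2^L` on a large disc is almost constant on a
smaller one. -/

namespace Pool.Agent.Lib.MP_5591bc_ag.E

open Metric Complex

theorem harn_log {h : ℂ → ℂ} {S : ℝ} (hS : 0 < S) (hh : DifferentiableOn ℂ h (ball 0 S))
    (h0 : ∀ u ∈ ball (0 : ℂ) S, h u ≠ 0) : ∃ f : ℂ → ℂ, f 0 = 0 ∧
      DifferentiableOn ℂ f (ball 0 S) ∧ ∀ u ∈ ball (0 : ℂ) S, h u = h 0 * exp (f u) := by
  obtain ⟨f, hf0, hf⟩ := ((hh.deriv isOpen_ball).div hh h0).isExactOn_ball.with_val_at 0 0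
  have hd : ∀ u ∈ ball (0 : ℂ) S, HasDerivAt (fun u => h u * exp (-f u)) 0 u := fun u hu => by
    have h1 := (hh.hasDerivAt (isOpen_ball.mem_nhds hu)).mul (hf u hu).neg.cexp
    refine h1.congr_deriv ?_
    have := h0 u hu
    simp only [Pi.div_apply, Pi.neg_apply]
    field_simp
    ring
  refine ⟨f, hf0, fun u hu => (hf u hu).differentiableAt.differentiableWithinAt, fun u hu => ?_⟩
  have h2 := isOpen_ball.is_const_of_deriv_eq_zero (convex_ball (0 : ℂ) S).isPreconnected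
    (fun u hu => (hd u hu).differentiableAt.differentiableWithinAt)
    (fun u hu => (hd u hu).deriv) hu (mem_ball_self hS)
  simp only [hf0, neg_zero, exp_zero, mul_one] at h2
  rw [← h2, mul_assoc, ← exp_add, neg_add_cancel, exp_zero, mul_one]

/-- HARN -/
theorem harn {h : ℂ → ℂ} {R S ε : ℝ} {L : ℕ} (hh : DifferentiableOn ℂ h (ball 0 S))
    (hM : ∀ u ∈ ball (0 : ℂ) S, 1 ≤ 2 ^ L * ‖h u‖ ∧ ‖h u‖ ≤ 2 ^ L) (hε : 0 < ε) (hε1 : ε ≤ 1)
    (hS : R * (1 + 16 * (L + 1) / ε) ≤ S) {u v : ℂ} (hu : u ∈ ball (0 : ℂ) R)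
    (hv : v ∈ ball (0 : ℂ) R) : ‖h u - h v‖ ≤ ε * ‖h v‖ := by
  have hR : 0 < R := (norm_nonneg u).trans_lt (mem_ball_zero_iff.1 hu)
  have h16 : 0 < R * (16 * (L + 1) / ε) := by positivity
  have hRS : R < S := by linarith [mul_add R 1 (16 * (L + 1) / ε)]
  have hS0 : 0 < S := hR.trans hRS
  have h0 : ∀ u ∈ ball (0 : ℂ) S, h u ≠ 0 := fun u hu e => by
    have := (hM u hu).1
    rw [e, norm_zero, mul_zero] at this
    linarith
  obtain ⟨f, hf0, hf, he⟩ := harn_log hS0 hh h0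
  have hre : Set.MapsTo f (ball 0 S) {z | z.re ≤ 2 * (L + 1)} := fun z hz => by
    have h1 := (hM z hz).2
    have h2 := (hM 0 (mem_ball_self hS0)).1
    rw [he z hz, norm_mul, norm_exp] at h1
    have h3 : Real.exp (f z).re ≤ 2 ^ L * 2 ^ L :=
      calc Real.exp (f z).re ≤ 2 ^ L * ‖h 0‖ * Real.exp (f z).re :=
            le_mul_of_one_le_left (Real.exp_pos _).le h2
        _ ≤ 2 ^ L * 2 ^ L := by rw [mul_assoc]; gcongr
    have h4 : (2 : ℝ) ^ L ≤ Real.exp L := by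
      rw [← mul_one (L : ℝ), Real.exp_nat_mul]
      exact pow_le_pow_left₀ zero_le_two (by linarith [Real.add_one_le_exp 1]) L
    have h5 : Real.exp (f z).re ≤ Real.exp (L + L) := by
      rw [Real.exp_add]; exact h3.trans (by gcongr)
    have h6 := Real.exp_le_exp.1 h5
    change (f z).re ≤ 2 * (L + 1)
    linarith
  have hb : ∀ z ∈ ball (0 : ℂ) R, ‖f z‖ ≤ ε / 4 := fun z hz => by
    have hz' := mem_ball_zero_iff.1 hz
    refine (borelCaratheodory_zero (by positivity) hf hre hS0 (ball_subset_ball hRS.le hz)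
      hf0).trans ?_
    rw [div_le_iff₀ (by linarith)]
    have h7 : R * (16 * (L + 1) / ε) ≤ S - ‖z‖ := by linarith [mul_add R 1 (16 * (L + 1) / ε)]
    calc 2 * (2 * ((L : ℝ) + 1)) * ‖z‖ ≤ 2 * (2 * ((L : ℝ) + 1)) * R := by gcongr
      _ = ε / 4 * (R * (16 * (L + 1) / ε)) := by field_simp; ring
      _ ≤ ε / 4 * (S - ‖z‖) := by gcongr
  have hw : ‖f u - f v‖ ≤ ε / 2 := (norm_sub_le _ _).trans (by linarith [hb u hu, hb v hv])
  have e : h u - h v = (exp (f u - f v) - 1) * h v := by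
    rw [he u (ball_subset_ball hRS.le hu), he v (ball_subset_ball hRS.le hv), sub_mul, one_mul,
      mul_left_comm, ← exp_add, sub_add_cancel]
  rw [e, norm_mul]
  gcongr
  exact (norm_exp_sub_one_le (by linarith)).trans (by linarith)

end Pool.Agent.Lib.MP_5591bc_ag.E
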