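import Pool.Agent.Lib.MP_5591bc_ag.E.Set
import Pool.Agent.Lib.MP_5591bc_ag.M.RadA
import Pool.Agent.Lib.MP_5591bc_ag.M.Tor
import Pool.Agent.Lib.MP_5591bc_ag.M.SerG
import Pool.Agent.Lib.MP_5591bc_ag.M.FrA

/-! Local fundamental solutions at every ordinary point of an integrable system. -/

namespace Pool.Agent.Lib.MP_5591bc_ag.E

open Matrix Filter Topology MvPowerSeries G R W M Metric Finset

noncomputable section

section aux
variable {σ ν : Type*} [Fintype σ] [DecidableEq σ] [Fintype ν] [DecidableEq ν]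

omit [DecidableEq σ] in
theorem loc_mon (κ : σ →₀ ℕ) {n : ℕ} (h : ∑ l, κ l = n) :
    ∃ m : ContinuousMultilinearMap ℂ (fun _ : Fin n => σ → ℂ) ℂ, ‖m‖ ≤ 1 ∧
      ∀ v, m (fun _ => v) = ∏ l, v l ^ κ l := by
  have e : Fintype.card (Σ l, Fin (κ l)) = n := by simp [h]
  let w := (Fintype.equivFinOfCardEq e).symm
  refine ⟨(ContinuousMultilinearMap.mkPiAlgebra ℂ (Fin n) ℂ).compContinuousLinearMap
    fun i => ContinuousLinearMap.proj (w i).1, ?_, fun v => ?_⟩
  · refine ContinuousMultilinearMap.opNorm_le_bound zero_le_one fun m => ?_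
    simp only [ContinuousMultilinearMap.compContinuousLinearMap_apply,
      ContinuousMultilinearMap.mkPiAlgebra_apply, ContinuousLinearMap.proj_apply, norm_prod,
      one_mul]
    exact prod_le_prod (fun _ _ => norm_nonneg _) fun i _ => norm_le_pi_norm _ _
  · simp only [ContinuousMultilinearMap.compContinuousLinearMap_apply,
      ContinuousMultilinearMap.mkPiAlgebra_apply, ContinuousLinearMap.proj_apply]
    rw [w.prod_comp fun a => v a.1, Fintype.prod_sigma]
    simp

/-- a series with geometric growth is the Taylor series of an analytic function -/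
theorem ana_of_bd {W : MvPowerSeries σ ℂ} {S r : ℝ} (r0 : 0 < r)
    (h : ∀ κ : σ →₀ ℕ, ‖coeff κ W‖ * r ^ (∑ l, κ l) ≤ S) (p : σ → ℂ) :
    ∃ g : (σ → ℂ) → ℂ, AnalyticAt ℂ g p ∧ tayM g p = W := by
  choose! m m1 m2 using fun (n : ℕ) (κ : σ →₀ ℕ) (h : ∑ l, κ l = n) => loc_mon κ h
  let q : FormalMultilinearSeries ℂ (σ → ℂ) ℂ := fun n =>
    ∑ κ ∈ finsuppAntidiag univ n, coeff κ W • m n κ
  have hq : ∀ n v, q n (fun _ => v) = PowerSeries.coeff n (dir v W) := fun n v => by
    rw [coeff_dir_sum, _root_.sum_apply]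
    exact sum_congr rfl fun κ hκ => by
      rw [_root_.smul_apply, m2 n κ (mem_finsuppAntidiag.1 hκ).1, smul_eq_mul]
  have S0 : 0 ≤ S := le_trans (by positivity) (h 0)
  have q0 : 0 < q.radius := by
    refine lt_of_lt_of_le ?_ (q.le_radius_of_bound (2 ^ Fintype.card σ * S)
      (r := ⟨r / 2, by positivity⟩) fun n => ?_)
    · exact ENNReal.coe_pos.2 (half_pos r0)
    · have h1 : ‖q n‖ * r ^ n ≤ #(finsuppAntidiag (univ : Finset σ) n) • S := by
        refine (mul_le_mul_of_nonneg_right (norm_sum_le _ _) (by positivity)).trans ?_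
        rw [sum_mul]
        refine sum_le_card_nsmul _ _ _ fun κ hκ => le_trans ?_ (h κ)
        rw [(mem_finsuppAntidiag.1 hκ).1, norm_smul]
        exact mul_le_mul_of_nonneg_right (mul_le_of_le_one_right (norm_nonneg _)
          (m1 n κ (mem_finsuppAntidiag.1 hκ).1)) (by positivity)
      have h2 : (#(finsuppAntidiag (univ : Finset σ) n) : ℝ) ≤ 2 ^ Fintype.card σ * 2 ^ n := by
        rw [card_finsuppAntidiag_nat_eq_choose, ← pow_add]
        exact_mod_cast (Nat.choose_le_two_pow _ _).trans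
          (Nat.pow_le_pow_right two_pos (Nat.sub_le _ _))
      rw [nsmul_eq_mul] at h1
      have h3 := h1.trans (mul_le_mul_of_nonneg_right h2 S0)
      change ‖q n‖ * (r / 2) ^ n ≤ _
      rw [div_pow, ← mul_div_assoc, div_le_iff₀ (by positivity)]
      linarith
  have h1 : HasFPowerSeriesOnBall (fun t => q.sum (t - p)) q p q.radius := by
    simpa using (q.hasFPowerSeriesOnBall q0).comp_sub p
  refine ⟨_, h1.analyticAt, dir_ext fun v => ?_⟩
  rw [dir_tayM h1.analyticAt]
  ext n
  have h2 : HasFPowerSeriesAt q.sum q (ContinuousLinearMap.toSpanSingleton ℂ v 0) := by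
    rw [map_zero]
    exact (q.hasFPowerSeriesOnBall q0).hasFPowerSeriesAt
  obtain ⟨ρ, h3⟩ := h2.compContinuousLinearMap
  have h4 := h3.factorial_smul 1 n
  rw [← iteratedDeriv_eq_iteratedFDeriv] at h4
  rw [coeff_tay, div_eq_iff (Nat.cast_ne_zero.2 n.factorial_ne_zero), ← hq, mul_comm,
    ← nsmul_eq_mul]
  simp only [add_sub_cancel_left]
  refine Eq.trans h4.symm ?_
  simp [FormalMultilinearSeries.compContinuousLinearMap]

variable {T : MvPolynomial σ ℂ} {B : σ → Matrix ν ν (MvPolynomial σ ℂ)} {U : Set (σ → ℂ)}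
  {P : (σ → ℂ) → Matrix ν ν ℂ}

theorem loc_dS {w w' : List σ} (h : w.Perm w') (F : MvPowerSeries σ ℂ) : dS w F = dS w' F := by
  ext κ
  have h1 := coeff_dS w F κ
  simp only [h.count_eq, Multiset.coe_eq_coe.2 h] at h1
  exact mul_left_cancel₀ (prod_ne_zero_iff.2 fun l _ => Nat.cast_ne_zero.2 (κ l).factorial_ne_zero)
    (h1.trans (coeff_dS w' F κ).symm)

/-- the iterated matrices do not depend on the order of the derivations -/
theorem loc_perm (ho : IsOpen U) (hne : U.Nonempty) (hP : FundM T B U P) {w w' : List σ}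
    (h : w.Perm w') : iterM T B w = iterM T B w' := by
  obtain ⟨x, hx⟩ := hne
  have ode : ∀ l, τm x T • (tayX P x).map (pderiv ℂ l) = (B l).map (τm x) * tayX P x := fun l => by
    have := tayX_ode ho hP hx l
    have e : ∀ q : MvPolynomial σ ℂ, tayM (fun z => MvPolynomial.aeval z q) x = τm x q :=
      tayM_eval
    simpa only [e] using this
  have h1 := serG_iter (τm_pderiv x) ode w
  rw [h.length_eq, funext (loc_dS h), serG_iter (τm_pderiv x) ode w'] at h1
  have hu : IsUnit (tayX P x) := (isUnit_iff_isUnit_det _).2 (isUnit_iff_constantCoeff.2 (by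
    rw [RingHom.map_det, RingHom.mapMatrix_apply, tayX_const hP hx]
    exact (hP x hx).1.isUnit))
  exact Matrix.map_injective (frT_inj x) (hu.mul_right_cancel h1).symm

/-- the formal solution at any ordinary point -/
theorem loc_ode (ho : IsOpen U) (hne : U.Nonempty) (hP : FundM T B U P) {p : σ → ℂ}
    (hp : MvPolynomial.eval p T ≠ 0) (l : σ) :
    τm p T • (GbM T B p).map (pderiv ℂ l) = (B l).map (τm p) * GbM T B p := by
  obtain ⟨Y, hY⟩ : ∃ Y, Y = GbM T B p := ⟨_, rfl⟩
  obtain ⟨F, hF⟩ : ∃ F : List σ → Matrix ν ν (MvPowerSeries σ ℂ), ∀ w, F w =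
    τm p T ^ w.length • Y.map (dS w) - (iterM T B w).map (τm p) * Y := ⟨_, fun _ => rfl⟩
  have F1 : ∀ l, F [l] = τm p T • Y.map (pderiv ℂ l) - (B l).map (τm p) * Y := fun l => by
    have : iterM T B [l] = B l := by
      ext1 i j
      simp [iterM, one_apply, apply_ite]
    rw [hF, this, List.length_singleton, pow_one]
    rfl
  have F0 : ∀ w i j, constantCoeff (F w i j) = 0 := fun w i j => by
    have h1 : (Multiset.toFinsupp (w : Multiset σ)).toMultiset.toList.Perm w := by
      rw [Multiset.toFinsupp_toMultiset, ← Multiset.coe_eq_coe, Multiset.coe_toList]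
    have h2 : ((iterM T B w).map (τm p) * Y).map constantCoeff =
        (iterM T B w).map (MvPolynomial.eval p) := by
      rw [Matrix.map_mul, hY, GbM_zero, Matrix.mul_one]
      ext i j
      exact τm_const _ _
    have h3 : (Multiset.toFinsupp (w : Multiset σ)).degree = w.length := by
      rw [← h1.length_eq, Multiset.length_toList, Finsupp.card_toMultiset]; rfl
    rw [hF, Matrix.sub_apply, map_sub, sub_eq_zero]
    refine Eq.trans ?_ (congrFun₂ h2 i j).symm
    rw [Matrix.smul_apply, smul_eq_mul, map_mul, map_pow, τm_const, map_apply, ← loc_dS h1,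
      const_dS, hY, coeff_GbM, loc_perm ho hne hP h1, h3, map_apply, ← mul_assoc]
    exact mul_div_cancel₀ _ (mul_ne_zero (pow_ne_zero _ hp) (prod_ne_zero_iff.2 fun l _ =>
      Nat.cast_ne_zero.2 (Nat.factorial_ne_zero _)))
  have Fd : ∀ l w, τm p T • (F w).map (pderiv ℂ l) = F (l :: w) +
      (w.length * pderiv ℂ l (τm p T)) • F w - (iterM T B w).map (τm p) * F [l] := fun l w => by
    have e1 : (Y.map (dS w)).map (pderiv ℂ l) = Y.map (dS (l :: w)) := rfl
    have e2 : τm p T * pderiv ℂ l (τm p T ^ w.length) =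
        (w.length * pderiv ℂ l (τm p T)) * τm p T ^ w.length := by
      rw [Derivation.leibniz_pow]
      rcases w.length with _ | m
      · simp
      · simp only [add_tsub_cancel_right, smul_eq_mul, nsmul_eq_mul, pow_succ]
        ring
    have e3 : (iterM T B (l :: w)).map (τm p) = τm p T • ((iterM T B w).map (τm p)).map
        (pderiv ℂ l) - (w.length * pderiv ℂ l (τm p T)) • (iterM T B w).map (τm p) +
          (iterM T B w).map (τm p) * (B l).map (τm p) := by
      ext1 i j
      simp [iterM, τm_pderiv, mul_apply]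
    rw [F1, hF, hF, e3, Matrix.map_sub _ (map_sub _), serG_mul, serG_smul, e1]
    simp only [smul_add, smul_sub, smul_smul, e2, List.length_cons, pow_succ', Matrix.add_mul,
      Matrix.sub_mul, Matrix.smul_mul, Matrix.mul_sub, Matrix.mul_smul, Matrix.mul_assoc]
    abel
  let I : Ideal (MvPowerSeries σ ℂ) := Ideal.span (Set.range fun a : List σ × ν × ν => F a.1 a.2.1 a.2.2)
  have mem : ∀ w i j, F w i j ∈ I := fun w i j => Ideal.subset_span ⟨(w, i, j), rfl⟩
  have key := zero_famM (t := τm p T) (isUnit_iff_constantCoeff.2 (by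
    rw [τm_const]; exact hp.isUnit)) (F := I) (fun g hg hu => by
      have : I ≤ RingHom.ker constantCoeff := Ideal.span_le.2 (by
        rintro _ ⟨a, rfl⟩
        exact F0 _ _ _)
      exact (isUnit_iff_constantCoeff.1 hu).ne_zero (this hg)) fun g hg l => by
    induction hg using Submodule.span_induction with
    | mem y hy =>
      obtain ⟨⟨w, i, j⟩, rfl⟩ := hy
      refine (congrArg (· ∈ I) (congrFun₂ (Fd l w) i j)).mpr ?_
      exact sub_mem (add_mem (mem _ _ _) (I.mul_mem_left _ (mem _ _ _)))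
        (sum_mem fun a _ => I.mul_mem_left _ (mem _ _ _))
    | zero => simp
    | add y z _ _ hy hz => rw [map_add, mul_add]; exact add_mem hy hz
    | smul a y h hy =>
      rw [smul_eq_mul, Derivation.leibniz, smul_eq_mul, smul_eq_mul, mul_add, mul_left_comm,
        mul_left_comm _ y]
      exact add_mem (I.mul_mem_left _ hy) (I.mul_mem_right _ h)
  rw [← hY, ← sub_eq_zero, ← F1]
  exact Matrix.ext fun i j => key _ (mem _ i j)

omit [DecidableEq σ] in
theorem loc_near {p : σ → ℂ} (hp : MvPolynomial.eval p T ≠ 0) : ∃ ρ > 0, Near T ρ p p := by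
  obtain ⟨r, r0, hr⟩ := Metric.eventually_nhds_iff.1
    ((MvPolynomial.continuous_eval T).continuousAt.eventually_ne hp)
  refine ⟨r / 18, by positivity, fun y hy u hu => hr ?_⟩
  rw [dist_eq_norm, add_sub_cancel_left, norm_smul]
  nlinarith [norm_nonneg u, norm_nonneg (y - p)]

theorem locC (ho : IsOpen U) (hne : U.Nonempty) (hP : FundM T B U P) {p : σ → ℂ}
    (hp : MvPolynomial.eval p T ≠ 0) : ∃ Y : (σ → ℂ) → Matrix ν ν ℂ, Y p = 1 ∧ ∀ᶠ t in 𝓝 p,
      FundM T B {t} Y := by
  obtain ⟨ρ, ρ0, hN⟩ := loc_near hp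
  have ode := loc_ode ho hne hP hp
  have ex : ∀ i j, ∃ g : (σ → ℂ) → ℂ, AnalyticAt ℂ g p ∧ tayM g p = GbM T B p i j := fun i j => by
    obtain ⟨S, hS⟩ := rad_bd hN (W := fun i => GbM T B p i j) fun l a => congrFun₂ (ode l) a j
    refine ana_of_bd (S := |S|) ρ0 (fun κ => ?_) p
    have := tor ((ρ : ℂ) ^ (∑ l, κ l) • homP (∑ l, κ l) (GbM T B p i j)) |S| (fun η hη => by
      have h1 := hS i (p + (ρ : ℂ) • η) (by
        rw [add_sub_cancel_left, norm_smul, Complex.norm_real, Real.norm_of_nonneg ρ0.le]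
        exact mul_le_of_le_one_right ρ0.le ((pi_norm_le_iff_of_nonneg zero_le_one).2
          fun l => (hη l).le)) (∑ l, κ l)
      rw [add_sub_cancel_left, coeff_dir_sum] at h1
      rw [MvPolynomial.smul_eval, ← coeff_dir, coeff_dir_sum, mul_sum]
      refine le_trans (le_of_eq (congrArg _ (sum_congr rfl fun a ha => ?_))) (h1.trans
        ((div_le_div_of_nonneg_right (le_abs_self S) (by positivity)).trans
          (div_le_self (abs_nonneg S) (one_le_pow₀ (by norm_num)))))
      simp only [Pi.smul_apply, smul_eq_mul, mul_pow, prod_mul_distrib, prod_pow_eq_pow_sum,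
        (mem_finsuppAntidiag.1 ha).1]
      ring) κ
    rwa [MvPolynomial.coeff_smul, coeff_homP, if_pos rfl, norm_smul, norm_pow, Complex.norm_real,
      Real.norm_of_nonneg ρ0.le, mul_comm] at this
  choose g g1 g2 using ex
  have h1 : (of fun i j => g i j p) = 1 := by
    rw [← GbM_zero T B p]
    ext i j
    rw [map_apply, ← g2, constantCoeff_tayM (g1 i j), of_apply]
  refine ⟨fun t => of fun i j => g i j t, h1, ?_⟩
  have c1 : ContinuousAt (fun t => (of fun i j => g i j t).det) p :=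
    (Continuous.matrix_det continuous_id).continuousAt.comp
      (continuousAt_pi.2 fun i => continuousAt_pi.2 fun j => (g1 i j).continuousAt)
  have e1 := c1.eventually_ne (y := 0) (by rw [h1, det_one]; exact one_ne_zero)
  have e2 := eventually_all.2 fun i => eventually_all.2 fun j => (g1 i j).eventually_analyticAt
  have e3 : ∀ᶠ t in 𝓝 p, ∀ i j l, MvPolynomial.aeval t T * fderiv ℂ (g i j) t (Pi.single l 1) =
      ∑ a, MvPolynomial.aeval t (B l i a) * g a j t := by
    refine eventually_all.2 fun i => eventually_all.2 fun j => eventually_all.2 fun l => ?_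
    refine tayM_inj ((aeval_ana T).fun_mul (pd_ana (g1 i j) l)) (analyticAt_fun_sum _ fun a _ =>
      (aeval_ana _).fun_mul (g1 a j)) ?_
    refine (tayM_mul (aeval_ana T) (pd_ana (g1 i j) l)).trans ?_
    rw [tayM_sum _ fun a _ => (aeval_ana _).fun_mul (g1 a j)]
    have e : ∀ q : MvPolynomial σ ℂ, tayM (fun z => MvPolynomial.aeval z q) p = τm p q :=
      tayM_eval
    simp only [tayM_mul (aeval_ana _) (g1 _ j), g2, e]
    rw [show tayM (pd l (g i j)) p = _ from tayM_pd (g1 i j) l, g2]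
    exact congrFun₂ (ode l) i j
  filter_upwards [e1, e2, e3] with t a1 a2 a3
  rintro _ rfl
  exact ⟨a1, fun i j => ⟨a2 i j, a3 i j⟩⟩

/-- a fundamental solution near every ordinary point -/
theorem locM {K : Type*} [Field K] [Algebra K ℂ] {T : MvPolynomial σ K}
    {B : σ → Matrix ν ν (MvPolynomial σ K)} (ho : IsOpen U) (hne : U.Nonempty)
    (hP : FundM T B U P) {p : σ → ℂ} (hp : MvPolynomial.aeval p T ≠ 0) :
    ∃ ρ > 0, ∃ Y : (σ → ℂ) → Matrix ν ν ℂ, FundM T B (ball p ρ) Y ∧ Y p = 1 ∧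
      ∀ t ∈ ball p ρ, MvPolynomial.aeval t T ≠ 0 := by
  have e : ∀ (V : Set (σ → ℂ)) (Y : (σ → ℂ) → Matrix ν ν ℂ),
      FundM (TM ℂ T) (BM ℂ B) V Y ↔ FundM T B V Y := fun V Y => by
    simp only [FundM, map_apply, MvPolynomial.aeval_map_algebraMap]
  obtain ⟨Y, h1, h2⟩ := locC ho hne ((e _ _).2 hP) (p := p) (by
    rwa [← MvPolynomial.aeval_map_algebraMap ℂ] at hp)
  obtain ⟨ρ, ρ0, h⟩ := Metric.eventually_nhds_iff_ball.1
    (h2.and ((aeval_ana T).continuousAt.eventually_ne hp))
  exact ⟨ρ, ρ0, Y, fun t ht => (e _ _).1 (h t ht).1 t rfl, h1, fun t ht => (h t ht).2⟩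

end aux

variable {σ K ν : Type*} [Fintype σ] [DecidableEq σ] [Field K] [Algebra K ℂ] [Fintype ν]
  [DecidableEq ν] {T : MvPolynomial σ K} {B : σ → Matrix ν ν (MvPolynomial σ K)}
  {U V : Set (σ → ℂ)} {P G : (σ → ℂ) → Matrix ν ν ℂ}

theorem loc_fund (ho : IsOpen U) (hne : U.Nonempty) (hP : FundM T B U P) (T0 : T ≠ 0) :
    Loc T B := by
  intro p hp
  obtain ⟨ρ, ρ0, Y, h, -⟩ := locM ho hne hP hp
  exact ⟨_, Y, isOpen_ball, mem_ball_self ρ0, h⟩

end

end Pool.Agent.Lib.MP_5591bc_ag.E
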