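import Pool.Agent.Lib.MP_5591bc_ag.E.Set
import Pool.Agent.Lib.MP_5591bc_ag.M.Good

/-! Change of branch. -/

namespace Pool.Agent.Lib.MP_5591bc_ag.E

open Matrix Filter Topology MvPowerSeries G R W M Metric

noncomputable section

variable {σ K ν : Type*} [Fintype σ] [DecidableEq σ] [Field K] [Algebra K ℂ] [Fintype ν]
  [DecidableEq ν] {U U' : Set (σ → ℂ)} {P P' : (σ → ℂ) → Matrix ν ν ℂ}

theorem cont_dom (ho : IsOpen U) (hc : IsPreconnected U)
    (hP : ∀ i j, AnalyticOnNhd ℂ (fun t => P t i j) U) (h : ContM U P U' P') :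
    IsOpen U' ∧ IsPreconnected U' ∧ ∀ i j, AnalyticOnNhd ℂ (fun t => P' t i j) U' := by
  cases h with
  | base => exact ⟨ho, hc, hP⟩
  | step _ _ _ _ _ _ o2 c2 d2 => exact ⟨o2, c2, d2⟩

omit [DecidableEq σ] [Fintype ν] [DecidableEq ν] in
theorem branch_ana {t : σ → ℂ} (hP : ∀ i j, AnalyticAt ℂ (fun z => P z i j) t)
    (q : MvPolynomial (ν × ν) (MvPolynomial σ ℂ)) : AnalyticAt ℂ (valM P q) t := by
  unfold valM
  induction q using MvPolynomial.induction_on with
  | C a => simpa using AnalyticOnNhd.eval_mvPolynomial a t trivial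
  | add p q hp hq => simpa using hp.fun_add hq
  | mul_X p i hp => simpa using hp.fun_mul (hP i.1 i.2)

omit [DecidableEq σ] [Fintype ν] [DecidableEq ν] in
theorem branch_tr (ho : IsOpen U) (hc' : IsPreconnected U')
    (hP' : ∀ i j, AnalyticOnNhd ℂ (fun t => P' t i j) U') {s : σ → ℂ} (hs : s ∈ U) (hs' : s ∈ U')
    (e : ∀ᶠ t in 𝓝 s, P t = P' t) {q : MvPolynomial (ν × ν) (MvPolynomial σ ℂ)}
    (h : ∀ t ∈ U, valM P q t = 0) : ∀ t ∈ U', valM P' q t = 0 := by
  refine goodV_id hc' (fun t ht => branch_ana (fun i j => hP' i j t ht) q) hs' ?_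
  filter_upwards [e, ho.mem_nhds hs] with t h1 h2
  have := h t h2
  unfold valM at this ⊢
  rwa [← h1]

theorem conn_cont (ho : IsOpen U) (hc : IsPreconnected U)
    (hP : ∀ i j, AnalyticOnNhd ℂ (fun t => P t i j) U) (h : ContM U P U' P') (hC : ConnM U P) :
    ConnM U' P' := by
  induction h with
  | base => exact hC
  | step U1 U2 P1 P2 s h1 o2 c2 d2 s1 s2 e ih =>
    obtain ⟨o1, c1, d1⟩ := cont_dom ho hc hP h1
    intro u v n p hv hp hr
    have e1 : ∀ (Y : (σ → ℂ) → Matrix ν ν ℂ) t, valM Y (∑ j ∈ Finset.range (n + 1),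
        MvPolynomial.C (p j) * u ^ j * v ^ (n - j)) t = ∑ j ∈ Finset.range (n + 1),
        MvPolynomial.eval t (p j) * valM Y u t ^ j * valM Y v t ^ (n - j) := fun Y t => by
      simp [valM, MvPolynomial.eval₂_sum, MvPolynomial.eval₂_pow]
    have e2 : ∀ (Y : (σ → ℂ) → Matrix ν ν ℂ) a b t,
        valM Y (MvPolynomial.C b * u - MvPolynomial.C a * v) t =
        MvPolynomial.eval t b * valM Y u t - MvPolynomial.eval t a * valM Y v t :=
      fun Y a b t => by simp [valM]
    have e' := e.mono fun t ht => ht.symm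
    obtain ⟨a, b, b0, hab⟩ := ih u v n p (by
      by_contra hn
      push Not at hn
      obtain ⟨t, t1, t2⟩ := hv
      exact t2 (branch_tr o1 c2 d2 s1 s2 e hn t t1)) hp fun t ht => (e1 P1 t).symm.trans
        (branch_tr o2 c1 d1 s2 s1 e' (fun t ht => (e1 P2 t).trans (hr t ht)) t ht)
    exact ⟨a, b, b0, fun t ht => sub_eq_zero.1 ((e2 P2 a b t).symm.trans (branch_tr o1 c2 d2 s1 s2 e
      (fun t ht => (e2 P1 a b t).trans (sub_eq_zero.2 (hab t ht))) t ht))⟩

theorem branch_deg {α β R : Type*} [CommRing R] {g : α → MvPolynomial β R}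
    (hg : ∀ a, (g a).totalDegree ≤ 1) (F : MvPolynomial α R) :
    (MvPolynomial.aeval g F).totalDegree ≤ F.totalDegree := by
  rw [MvPolynomial.aeval_def, MvPolynomial.eval₂_eq]
  refine MvPolynomial.totalDegree_finsetSum_le fun d hd => (MvPolynomial.totalDegree_mul _ _).trans ?_
  rw [MvPolynomial.algebraMap_eq, MvPolynomial.totalDegree_C, zero_add]
  refine ((MvPolynomial.totalDegree_finsetProd _ _).trans (Finset.sum_le_sum fun i _ => ?_)).trans
    (MvPolynomial.le_totalDegree hd)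
  exact (MvPolynomial.totalDegree_pow _ _).trans ((Nat.mul_le_mul_left _ (hg i)).trans (mul_one _).le)

theorem good_mul (ho : IsOpen U) (ho' : IsOpen U') (hc' : IsPreconnected U')
    (hP' : ∀ i j, AnalyticOnNhd ℂ (fun t => P' t i j) U') {δ : ℕ} {x : σ → K} (hx : pc x ∈ U)
    (hx' : pc x ∈ U') (hd : (P (pc x)).det ≠ 0) {γ γ' : Matrix ν ν K}
    (e : ∀ᶠ z in 𝓝 (pc x), P' z = P z * γ.map (algebraMap K ℂ))
    (e' : ∀ᶠ z in 𝓝 (pc x), P z = P' z * γ'.map (algebraMap K ℂ)) (h : GoodV U P δ x) :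
    GoodV U' P' δ x := by
  have g1 : γ' * γ = 1 := by
    have a1 := e'.self_of_nhds
    rw [e.self_of_nhds, Matrix.mul_assoc, ← Matrix.map_mul] at a1
    have a2 := congrArg ((P (pc x))⁻¹ * ·) a1
    simp only [← Matrix.mul_assoc, nonsing_inv_mul _ hd.isUnit, Matrix.one_mul] at a2
    refine mul_eq_one_comm.1 (Matrix.map_injective (algebraMap K ℂ).injective ?_)
    exact a2.symm.trans (Matrix.map_one _ (map_zero _) (map_one _)).symm
  intro F hF hF0
  obtain ⟨H, h1, h2⟩ := h (MvPolynomial.aeval (fun a : ν × ν => ∑ k, (MvPolynomial.X (a.1, k) *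
      MvPolynomial.C (γ k a.2) : MvPolynomial (ν × ν) K)) F)
    ((branch_deg (fun a => MvPolynomial.totalDegree_finsetSum_le fun k _ =>
      (MvPolynomial.totalDegree_mul _ _).trans (by simp)) F).trans hF) (by
      rw [← AlgHom.comp_apply, MvPolynomial.comp_aeval, ← hF0]
      have := e.self_of_nhds
      unfold pc at this
      simp [this, mul_apply])
  obtain ⟨H', hH⟩ : ∃ H' : MvPolynomial (σ ⊕ ν × ν) K, H' = MvPolynomial.aeval
    (Sum.elim (fun l => MvPolynomial.X (Sum.inl l)) fun a : ν × ν =>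
      ∑ k, MvPolynomial.X (Sum.inr (a.1, k)) * MvPolynomial.C (γ' k a.2)) H := ⟨_, rfl⟩
  refine ⟨H', fun U2 P2 h3 => (goodV_cont ho' H' (goodV_van hc' hP' H' hx' ?_) h3).2, ?_⟩
  · filter_upwards [e', ho.mem_nhds hx] with t a1 a2
    rw [hH, ← AlgHom.comp_apply, MvPolynomial.comp_aeval, ← h1 U P .base t a2, a1]
    congr 2
    ext (l | a) <;> simp [mul_apply]
  · have a1 := congrArg (MvPolynomial.aeval fun a : ν × ν => ∑ k, (MvPolynomial.X (a.1, k) *
      MvPolynomial.C (γ' k a.2) : MvPolynomial (ν × ν) K)) h2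
    rw [← AlgHom.comp_apply, MvPolynomial.comp_aeval, ← AlgHom.comp_apply,
      MvPolynomial.comp_aeval] at a1
    rw [hH, ← AlgHom.comp_apply, MvPolynomial.comp_aeval]
    convert a1 using 1
    · congr 2
      funext o
      rcases o with l | a <;> simp
    · conv_lhs => rw [← MvPolynomial.aeval_X_left_apply F]
      congr 2
      funext a
      simp only [map_sum, map_mul, MvPolynomial.aeval_X, MvPolynomial.aeval_C,
        MvPolynomial.algebraMap_eq, Finset.sum_mul, mul_assoc]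
      rw [Finset.sum_comm]
      simp only [← MvPolynomial.C_mul, ← Finset.mul_sum, ← map_sum, ← mul_apply, g1, one_apply]
      simp [apply_ite]

end

end Pool.Agent.Lib.MP_5591bc_ag.E
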