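import Mathlib

/-! Squarefree part with a Bezout identity. -/

namespace Pool.Agent.Lib.MP_5591bc_ag.E

open Polynomial Metric Finset

noncomputable section

theorem alg_clr {A : Type*} [CommRing A] [IsDomain A] (p : (FractionRing A)[X]) :
    ∃ (g : A[X]) (d : A), d ≠ 0 ∧
      g.map (algebraMap A (FractionRing A)) = C (algebraMap A (FractionRing A) d) * p := by
  obtain ⟨d, d0, h⟩ := IsLocalization.integerNormalization_spec (nonZeroDivisors A) p
  exact ⟨_, d, nonZeroDivisors.ne_zero d0, by rw [h, ← algebraMap_smul (FractionRing A), smul_eq_C_mul]⟩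

theorem rad_bez {A : Type*} [CommRing A] [IsDomain A] [CharZero A] {f : A[X]} (f0 : f ≠ 0) :
    ∃ (g q a b : A[X]) (β Δ : A) (N : ℕ), β ≠ 0 ∧ Δ ≠ 0 ∧ 0 < g.natDegree ∧
      f * q = C β * g ^ N ∧ a * g + b * derivative g = C Δ := by
  have inj := IsFractionRing.injective A (FractionRing A)
  have p0 : X * f.map (algebraMap A (FractionRing A)) ≠ 0 :=
    mul_ne_zero X_ne_zero ((Polynomial.map_ne_zero_iff inj).2 f0)
  obtain ⟨r, N, sq, -, q0, hq⟩ := exists_squarefree_dvd_pow_of_ne_zero p0
  obtain ⟨a0, b0, hb⟩ := PerfectField.separable_iff_squarefree.2 sq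
  obtain ⟨g, d, d0, hg⟩ := alg_clr r
  obtain ⟨q, e, e0, hq'⟩ := alg_clr (X * q0)
  obtain ⟨a, u, u0, ha⟩ := alg_clr a0
  obtain ⟨b, v, v0, hb'⟩ := alg_clr b0
  refine ⟨g, q * C (d ^ N), a * C v, b * C u, e, u * v * d, N, e0,
    mul_ne_zero (mul_ne_zero u0 v0) d0, ?_, map_injective _ inj ?_, map_injective _ inj ?_⟩
  · rw [← natDegree_map_eq_of_injective inj, hg, natDegree_C_mul ((map_ne_zero_iff _ inj).2 d0)]
    refine Nat.pos_of_ne_zero fun h => ?_
    have h1 : IsUnit r := isUnit_iff_degree_eq_zero.2 (by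
      rw [degree_eq_natDegree sq.ne_zero, h]; rfl)
    have h2 := h1.pow N
    rw [hq, mul_assoc] at h2
    exact not_isUnit_X (isUnit_of_mul_isUnit_left h2)
  · simp only [Polynomial.map_mul, Polynomial.map_pow, map_C, hg, hq', map_pow, mul_pow, hq]
    ring
  · simp only [Polynomial.map_add, Polynomial.map_mul, ← derivative_map, map_C, hg, ha, hb', map_mul,
      derivative_C_mul]
    linear_combination (C (algebraMap A (FractionRing A) u) * C (algebraMap A (FractionRing A) v) *
      C (algebraMap A (FractionRing A) d)) * hb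

end

end Pool.Agent.Lib.MP_5591bc_ag.E
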