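import Mathlib

/-! Holomorphic roots of a family of separable polynomials on a disc. -/

namespace Pool.Agent.Lib.MP_5591bc_ag.E

open Polynomial Metric Filter Topology Function Finset

noncomputable section

variable {g : ℂ → ℂ[X]} {R : ℝ} {n : ℕ}

theorem roots_ana (hc : ∀ i, DifferentiableOn ℂ (fun u => (g u).coeff i) (ball 0 R))
    (hn : ∀ u ∈ ball (0 : ℂ) R, (g u).natDegree = n) {z : ℂ × ℂ} (hz : z.1 ∈ ball (0 : ℂ) R) :
    AnalyticAt ℂ (fun z : ℂ × ℂ => (g z.1).eval z.2) z := by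
  have h1 : AnalyticAt ℂ (fun z : ℂ × ℂ => ∑ i ∈ range (n + 1), (g z.1).coeff i * z.2 ^ i) z :=
    Finset.analyticAt_fun_sum _ fun i _ =>
      (((hc i).analyticAt (isOpen_ball.mem_nhds hz)).comp analyticAt_fst).mul
        (analyticAt_snd.pow i)
  refine h1.congr ?_
  filter_upwards [continuous_fst.continuousAt.preimage_mem_nhds (isOpen_ball.mem_nhds hz)] with y hy
  rw [eval_eq_sum_range, hn y.1 hy]

theorem roots_inv (hc : ∀ i, DifferentiableOn ℂ (fun u => (g u).coeff i) (ball 0 R))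
    (hn : ∀ u ∈ ball (0 : ℂ) R, (g u).natDegree = n) {z : ℂ × ℂ} (hz : z.1 ∈ ball (0 : ℂ) R)
    (h0 : (g z.1).derivative.eval z.2 ≠ 0) : ∃ L : (ℂ × ℂ) ≃L[ℂ] ℂ × ℂ,
      HasStrictFDerivAt (fun z : ℂ × ℂ => (z.1, (g z.1).eval z.2)) (L : ℂ × ℂ →L[ℂ] ℂ × ℂ) z := by
  have h1 := (roots_ana hc hn hz).hasStrictFDerivAt
  generalize fderiv ℂ (fun z : ℂ × ℂ => (g z.1).eval z.2) z = L at h1
  have h2 : HasDerivAt (fun a : ℂ => (g z.1).eval a) (L (0, 1)) z.2 :=
    h1.hasFDerivAt.comp_hasDerivAt (f := fun a : ℂ => (z.1, a)) z.2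
      ((hasDerivAt_const z.2 z.1).prodMk (hasDerivAt_id z.2))
  have h3 : L (0, 1) ≠ 0 := by rwa [h2.unique ((g z.1).hasDerivAt z.2)]
  have hi : Injective ((ContinuousLinearMap.fst ℂ ℂ ℂ).prod L).toLinearMap := by
    rw [injective_iff_map_eq_zero]
    rintro ⟨v, w⟩ h
    obtain ⟨rfl, h4⟩ : v = 0 ∧ L (v, w) = 0 := Prod.ext_iff.1 h
    have : L (0, w) = w * L (0, 1) := by
      rw [← smul_eq_mul, ← map_smul]; simp
    rw [this] at h4
    rw [(mul_eq_zero.1 h4).resolve_right h3]; rfl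
  exact ⟨(LinearEquiv.ofInjectiveEndo _ hi).toContinuousLinearEquiv,
    hasStrictFDerivAt_fst.prodMk h1⟩

theorem roots_bd {p : ℂ[X]} (h1 : 0 < n) (hn : p.natDegree = n) (a : ℂ) :
    ‖a‖ ≤ 1 + (‖p.eval a‖ + ∑ i ∈ range n, ‖p.coeff i‖) / ‖p.coeff n‖ := by
  have h0 : 0 < ‖p.coeff n‖ := norm_pos_iff.2 (by
    rw [← hn]; exact leadingCoeff_ne_zero.2 fun h => by simp [h] at hn; omega)
  have hs : 0 ≤ ∑ i ∈ range n, ‖p.coeff i‖ := sum_nonneg fun _ _ => norm_nonneg _
  rcases le_or_gt ‖a‖ 1 with h | h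
  · exact h.trans (le_add_of_nonneg_right (by positivity))
  obtain ⟨m, rfl⟩ : ∃ m, n = m + 1 := ⟨n - 1, by omega⟩
  have e : p.coeff (m + 1) * a ^ (m + 1) =
      p.eval a - ∑ i ∈ range (m + 1), p.coeff i * a ^ i := by
    rw [eval_eq_sum_range, hn, sum_range_succ _ (m + 1)]; ring
  have hm : 1 ≤ ‖a‖ ^ m := one_le_pow₀ h.le
  have h2 : ‖p.coeff (m + 1)‖ * ‖a‖ * ‖a‖ ^ m ≤
      (‖p.eval a‖ + ∑ i ∈ range (m + 1), ‖p.coeff i‖) * ‖a‖ ^ m := by
    rw [mul_assoc, ← pow_succ', ← norm_pow, ← norm_mul, e, add_mul, sum_mul]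
    refine (norm_sub_le _ _).trans (add_le_add (le_mul_of_one_le_right (norm_nonneg _) hm)
      ((norm_sum_le _ _).trans (sum_le_sum fun i hi => ?_)))
    rw [norm_mul, norm_pow]
    exact mul_le_mul_of_nonneg_left
      (pow_le_pow_right₀ h.le (Nat.lt_succ_iff.1 (mem_range.1 hi))) (norm_nonneg _)
  have h3 := le_of_mul_le_mul_right h2 (by positivity)
  rw [mul_comm, ← le_div_iff₀ h0] at h3
  linarith

/-- the map whose fibres are the roots -/
def rootsP (g : ℂ → ℂ[X]) (R : ℝ) (z : ball (0 : ℂ) R × ℂ) : ball (0 : ℂ) R × ℂ :=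
  (z.1, (g z.1).eval z.2)

theorem roots_cov (hc : ∀ i, DifferentiableOn ℂ (fun u => (g u).coeff i) (ball 0 R)) (h1 : 0 < n)
    (hn : ∀ u ∈ ball (0 : ℂ) R, (g u).natDegree = n)
    (hs : ∀ u ∈ ball (0 : ℂ) R, ∀ a, (g u).eval a = 0 → (g u).derivative.eval a ≠ 0) :
    IsCoveringMapOn (rootsP g R) {y | y.2 = 0} := by
  have hι : IsOpenEmbedding (Prod.map (Subtype.val : ball (0 : ℂ) R → ℂ) (id : ℂ → ℂ)) :=
    isOpen_ball.isOpenEmbedding_subtypeVal.prodMap IsOpenEmbedding.id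
  have hp : Continuous (rootsP g R) := continuous_fst.prodMk (continuous_iff_continuousAt.2 fun z =>
    (roots_ana hc hn (z := (z.1, z.2)) z.1.2).continuousAt.comp
      (f := Prod.map (Subtype.val : ball (0 : ℂ) R → ℂ) (id : ℂ → ℂ)) hι.continuous.continuousAt)
  have hci : ∀ i, Continuous fun y : ball (0 : ℂ) R × ℂ => (g y.1).coeff i := fun i =>
    (hc i).continuousOn.domRestrict.comp continuous_fst
  have h0 : ∀ u : ball (0 : ℂ) R, g u ≠ 0 := fun u h => by
    have := hn u u.2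
    rw [h, natDegree_zero] at this; omega
  have hβ : Continuous fun y : ball (0 : ℂ) R × ℂ =>
      1 + (‖y.2‖ + ∑ i ∈ range n, ‖(g y.1).coeff i‖) / ‖(g y.1).coeff n‖ :=
    continuous_const.add ((continuous_snd.norm.add
      (continuous_finsetSum _ fun i _ => (hci i).norm)).div (hci n).norm fun y =>
        norm_ne_zero_iff.2 (by rw [← hn y.1 y.1.2]; exact leadingCoeff_ne_zero.2 (h0 y.1)))
  have hpr : IsProperMap (rootsP g R) := by
    refine isProperMap_iff_isCompact_preimage.2 ⟨hp, fun K hK => ?_⟩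
    obtain ⟨B, hB⟩ := (hK.image hβ).bddAbove
    refine ((hK.image continuous_fst).prod (isCompact_closedBall (0 : ℂ) B)).of_isClosed_subset
      (hK.isClosed.preimage hp) fun z hz => ⟨⟨_, hz, rfl⟩, ?_⟩
    exact mem_closedBall_zero_iff.2 ((roots_bd h1 (hn z.1 z.1.2) z.2).trans (hB ⟨_, hz, rfl⟩))
  refine hpr.isClosedMap.isCoveringMapOn_of_isLocalHomeomorphOn (fun y hy => ?_) ?_
  · refine (((g y.1).roots.toFinset.finite_toSet).image fun a => (y.1, a)).subset fun z hz => ?_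
    obtain rfl : rootsP g R z = y := hz
    exact ⟨z.2, Multiset.mem_toFinset.2 ((mem_roots (h0 z.1)).2 hy), rfl⟩
  · refine IsLocalHomeomorphOn.of_comp_left
      (g := Prod.map (Subtype.val : ball (0 : ℂ) R → ℂ) (id : ℂ → ℂ)) ?_
      hι.isLocalHomeomorph.isLocalHomeomorphOn fun _ _ => hp.continuousAt
    refine IsLocalHomeomorphOn.comp (g := fun z : ℂ × ℂ => (z.1, (g z.1).eval z.2))
      (t := {z | z.1 ∈ ball (0 : ℂ) R ∧ (g z.1).eval z.2 = 0}) (fun z hz => ?_)
      hι.isLocalHomeomorph.isLocalHomeomorphOn fun z hz => ⟨z.1.2, hz⟩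
    obtain ⟨L, hL⟩ := roots_inv hc hn hz.1 (hs _ hz.1 _ hz.2)
    exact ⟨_, hL.mem_toOpenPartialHomeomorph_source, rfl⟩

/-- The roots of a holomorphic family of separable polynomials are holomorphic on a disc. -/
theorem roots (hc : ∀ i, DifferentiableOn ℂ (fun u => (g u).coeff i) (ball 0 R))
    (hn : ∀ u ∈ ball (0 : ℂ) R, (g u).natDegree = n)
    (hs : ∀ u ∈ ball (0 : ℂ) R, ∀ a, (g u).eval a = 0 → (g u).derivative.eval a ≠ 0) :
    ∃ a : Fin n → ℂ → ℂ, (∀ j, DifferentiableOn ℂ (a j) (ball 0 R)) ∧ ∀ u ∈ ball (0 : ℂ) R,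
      Injective (a · u) ∧ g u = C (g u).leadingCoeff * ∏ j, (X - C (a j u)) := by
  rcases Nat.eq_zero_or_pos n with rfl | h1
  · refine ⟨Fin.elim0, fun j => j.elim0, fun u hu => ⟨fun j => j.elim0, ?_⟩⟩
    rw [univ_eq_empty, prod_empty, mul_one, leadingCoeff, hn u hu]
    exact eq_C_of_natDegree_eq_zero (hn u hu)
  rcases le_or_gt R 0 with hR | hR
  · refine ⟨0, fun j => differentiableOn_const _, fun u hu => ?_⟩
    rw [ball_eq_empty.2 hR] at hu; exact hu.elim
  have h0 : ∀ u ∈ ball (0 : ℂ) R, g u ≠ 0 := fun u hu h => by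
    have := hn u hu
    rw [h, natDegree_zero] at this; omega
  have cov := roots_cov hc h1 hn hs
  have := (convex_ball (0 : ℂ) R).contractibleSpace (nonempty_ball.2 hR)
  have := (isOpen_ball (x := (0 : ℂ)) (ε := R)).locallyPathConnectedSpace
  let f : C(ball (0 : ℂ) R, ball (0 : ℂ) R × ℂ) := ⟨fun u => (u, 0), by fun_prop⟩
  let o : ball (0 : ℂ) R := ⟨0, mem_ball_self hR⟩
  have hsep : (g 0).Separable := by
    rw [← nodup_roots_iff_of_splits (h0 0 o.2) (IsAlgClosed.splits _), Multiset.nodup_iff_count_le_one]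
    intro a
    rw [count_roots]
    by_contra h
    have := (one_lt_rootMultiplicity_iff_isRoot (h0 0 o.2)).1 (not_le.1 h)
    exact hs 0 o.2 a this.1 this.2
  have hcard : (g 0).roots.toFinset.card = n := by
    rw [Multiset.toFinset_card_of_nodup (nodup_roots hsep), ← hn 0 o.2]
    exact (IsAlgClosed.splits _).natDegree_eq_card_roots.symm
  let e := (Finset.equivFinOfCardEq hcard).symm
  have he : ∀ j, rootsP g R (o, (e j : ℂ)) = f o := fun j =>
    Prod.ext rfl (isRoot_of_mem_roots (Multiset.mem_toFinset.1 (e j).2))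
  choose F hF using fun j => (cov.existsUnique_continuousMap_lifts f (he j) fun _ => rfl).exists
  have hF1 : ∀ j u, (F j u).1 = u := fun j u => congrArg Prod.fst (congrFun (hF j).2 u)
  have hF2 : ∀ j (u : ball (0 : ℂ) R), (g u).eval (F j u).2 = 0 := fun j u => by
    have : (g (F j u).1).eval (F j u).2 = 0 := congrArg Prod.snd (congrFun (hF j).2 u)
    rwa [hF1 j u] at this
  classical
  let a : Fin n → ℂ → ℂ := fun j u => if h : u ∈ ball (0 : ℂ) R then (F j ⟨u, h⟩).2 else 0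
  have ha : ∀ j (u : ball (0 : ℂ) R), a j u = (F j u).2 := fun j u => dif_pos u.2
  have hr : ∀ j, ∀ u ∈ ball (0 : ℂ) R, (g u).eval (a j u) = 0 := fun j u hu => by
    rw [ha j ⟨u, hu⟩]; exact hF2 j ⟨u, hu⟩
  refine ⟨a, fun j u hu => ?_, fun u hu => ?_⟩
  · have hcont : ContinuousAt (a j) u := by
      refine (continuousOn_iff_continuous_domRestrict.2 ?_).continuousAt (isOpen_ball.mem_nhds hu)
      exact (continuous_snd.comp (F j).continuous).congr fun v => (ha j v).symm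
    obtain ⟨L, hL⟩ := roots_inv hc hn (z := (u, a j u)) hu (hs _ hu _ (hr j u hu))
    have h2 := hL.to_localInverse.hasFDerivAt.differentiableAt
    simp only [hr j u hu] at h2
    have h3 := (DifferentiableAt.comp (f := fun v : ℂ => (v, (0 : ℂ))) u h2
      (differentiableAt_id.prodMk (differentiableAt_const (0 : ℂ)))).snd
    refine (h3.congr_of_eventuallyEq ?_).differentiableWithinAt
    filter_upwards [(continuousAt_id.prodMk hcont).eventually hL.eventually_left_inverse,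
      isOpen_ball.mem_nhds hu] with v h4 hv
    simp only [id, hr j v hv] at h4
    exact (congrArg Prod.snd h4).symm
  · have hi : Injective (a · u) := fun i j h => by
      have h2 : F i ⟨u, hu⟩ = F j ⟨u, hu⟩ := Prod.ext ((hF1 i _).trans (hF1 j _).symm)
        ((ha i ⟨u, hu⟩).symm.trans (h.trans (ha j ⟨u, hu⟩)))
      have h3 : F i = F j := (cov.existsUnique_continuousMap_lifts f
        (congrFun (hF i).2 ⟨u, hu⟩) fun _ => rfl).unique ⟨rfl, (hF i).2⟩ ⟨h2.symm, (hF j).2⟩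
      have h4 := (hF i).1.symm.trans (h3 ▸ (hF j).1)
      exact e.injective (Subtype.ext (congrArg Prod.snd h4))
    refine ⟨hi, ?_⟩
    have hm : (∏ j, (X - C (a j u))).Monic := monic_prod_of_monic _ _ fun j _ => monic_X_sub_C _
    have hd : (∏ j, (X - C (a j u))).natDegree = n := by
      rw [natDegree_prod_of_monic _ _ fun j _ => monic_X_sub_C _]; simp
    obtain ⟨q, hq⟩ : (∏ j, (X - C (a j u))) ∣ g u :=
      Fintype.prod_dvd_of_coprime (pairwise_coprime_X_sub_C hi) fun j =>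
        dvd_iff_isRoot.2 (hr j u hu)
    have hq0 : q ≠ 0 := fun h => h0 u hu (by rw [hq, h, mul_zero])
    have hq1 : q.natDegree = 0 := by
      have := hn u hu
      rw [hq, hm.natDegree_mul' hq0, hd] at this; omega
    rw [eq_C_of_natDegree_eq_zero hq1] at hq
    rw [hq, leadingCoeff_monic_mul hm, leadingCoeff_C, mul_comm]

end

end Pool.Agent.Lib.MP_5591bc_ag.E
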