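import Pool.Agent.Lib.MP_5591bc_ag.M.CovB

/-! Size and separation of the roots in a family. -/

namespace Pool.Agent.Lib.MP_5591bc_ag.E

open Polynomial Metric Finset

noncomputable section

theorem sep_coef {K α : Type*} [Field K] [Algebra K ℂ] [Fintype α] (g : (MvPolynomial α K)[X]) :
    ∃ c : ℕ, ∀ Λ : ℕ, 0 < Λ → ∀ y : α → ℂ, ‖y‖ ≤ 2 ^ Λ → ∀ i,
      ‖MvPolynomial.aeval y (g.coeff i)‖ ≤ 2 ^ (c * Λ) := by
  choose c hc using fun i => M.cvb_pow (MvPolynomial.map (algebraMap K ℂ) (g.coeff i))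
  refine ⟨g.support.sup c, fun Λ Λ0 y hy i => ?_⟩
  by_cases hi : i ∈ g.support
  · have := (hc i Λ Λ0 y hy).le
    rw [MvPolynomial.eval_map, ← MvPolynomial.aeval_def] at this
    exact this.trans (pow_le_pow_right₀ one_le_two (Nat.mul_le_mul_right _ (le_sup hi)))
  · rw [notMem_support_iff.1 hi, map_zero, norm_zero]; positivity

theorem sep_eval {b : ℂ[X]} {m : ℕ} (hm : b.natDegree ≤ m) {W : ℝ} (W2 : 2 ≤ W)
    (hb : ∀ i, ‖b.coeff i‖ ≤ W) {z : ℂ} (hz : ‖z‖ ≤ W) : ‖b.eval z‖ ≤ W ^ (2 * m + 2) := by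
  have W1 : 1 ≤ W := by linarith
  rw [eval_eq_sum_range' (Nat.lt_succ_of_le hm)]
  refine (norm_sum_le _ _).trans ((sum_le_card_nsmul _ _ (W ^ (m + 1)) fun i hi => ?_).trans ?_)
  · rw [norm_mul, norm_pow, pow_succ']
    have := hb i
    have h2 : ‖z‖ ^ i ≤ W ^ m := (pow_le_pow_left₀ (norm_nonneg _) hz i).trans
      (pow_le_pow_right₀ W1 (Nat.lt_succ_iff.1 (mem_range.1 hi)))
    gcongr
  · rw [card_range, nsmul_eq_mul, show 2 * m + 2 = (m + 1) + (m + 1) by ring, pow_add W (m + 1)]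
    gcongr
    have h1 : ((m + 1 : ℕ) : ℝ) ≤ 2 ^ (m + 1) := by exact_mod_cast Nat.lt_two_pow_self.le
    exact h1.trans (pow_le_pow_left₀ zero_le_two W2 _)

theorem sep_core {n m : ℕ} {p a b : ℂ[X]} {L D : ℂ} {r : Fin n → ℂ} {V : ℝ} (V2 : 2 ≤ V)
    (hp : p = C L * ∏ j, (X - C (r j))) (h : a * p + b * derivative p = C D)
    (hm : b.natDegree ≤ m) (cp : ∀ i, ‖p.coeff i‖ ≤ V) (cb : ∀ i, ‖b.coeff i‖ ≤ V)
    (L1 : V⁻¹ ≤ ‖L‖) (L2 : ‖L‖ ≤ V) (D1 : V⁻¹ ≤ ‖D‖) :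
    (∀ j, ‖r j‖ ≤ V ^ 4) ∧ ∀ i j, i ≠ j →
      ((V ^ 4) ^ (2 * m + n + 4))⁻¹ ≤ ‖r i - r j‖ ∧ ‖r i - r j‖ ≤ V ^ 4 := by
  have V0 : 0 < V := by linarith
  have L0 : 0 < ‖L‖ := (inv_pos.2 V0).trans_le L1
  have mo : (∏ j, (X - C (r j))).Monic := monic_prod_of_monic _ _ fun j _ => monic_X_sub_C _
  have lc : p.leadingCoeff = L := by rw [hp, leadingCoeff_mul, mo.leadingCoeff]; simp
  have p0 : p ≠ 0 := leadingCoeff_ne_zero.1 (lc ▸ norm_pos_iff.1 L0)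
  have rt : ∀ j, p.eval (r j) = 0 := fun j => by
    rw [hp, eval_mul, eval_prod, prod_eq_zero (mem_univ j) (by simp), mul_zero]
  have r3 : ∀ j, ‖r j‖ ≤ V ^ 3 := fun j => by
    have h1 : (‖r j‖₊ : ℝ) < cauchyBound p := IsRoot.norm_lt_cauchyBound p0 (rt j)
    have h2 : ((range p.natDegree).sup (‖p.coeff ·‖₊) : NNReal) ≤ ⟨V, V0.le⟩ :=
      Finset.sup_le fun i _ => cp i
    have h3 : (((range p.natDegree).sup (‖p.coeff ·‖₊) : NNReal) : ℝ) ≤ V := h2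
    rw [cauchyBound, lc] at h1
    push_cast at h1
    have h4 : (((range p.natDegree).sup (‖p.coeff ·‖₊) : NNReal) : ℝ) / ‖L‖ ≤ V / V⁻¹ := by gcongr
    rw [div_inv_eq_mul] at h4
    nlinarith [mul_le_mul V2 V2 zero_le_two V0.le]
  have V3 : 0 < V ^ 3 := by positivity
  have r4 : ∀ i j, ‖r i - r j‖ ≤ V ^ 4 := fun i j => by
    have := norm_sub_le (r i) (r j)
    nlinarith [r3 i, r3 j]
  have r5 : ∀ j, ‖r j‖ ≤ V ^ 4 := fun j => by nlinarith [r3 j]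
  have VW : V ≤ V ^ 4 := le_self_pow₀ (by linarith) (by norm_num)
  refine ⟨r5, fun i j hij => ⟨?_, r4 i j⟩⟩
  generalize V ^ 4 = W at r4 r5 VW
  have W1 : 1 ≤ W := by linarith
  have e1 := congrArg (eval (r i)) h
  have e2 : (derivative p).eval (r i) =
      L * ((r i - r j) * ∏ k ∈ (univ.erase i).erase j, (r i - r k)) := by
    rw [hp, derivative_C_mul, eval_mul, eval_C, mul_prod_erase _ (fun k => r i - r k)
      (mem_erase.2 ⟨hij.symm, mem_univ j⟩), ← Lagrange.eval_nodal (v := r) (x := r i),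
      ← Lagrange.eval_nodal_derivative_eval_node_eq (mem_univ i)]
    rfl
  rw [eval_add, eval_mul, eval_mul, rt, mul_zero, zero_add, eval_C, e2] at e1
  have e3 := sep_eval hm (V2.trans VW) (fun i => (cb i).trans VW) (r5 i)
  have e4 : ‖∏ k ∈ (univ.erase i).erase j, (r i - r k)‖ ≤ W ^ n := by
    rw [norm_prod]
    refine (prod_le_prod (fun _ _ => norm_nonneg _) fun k _ => r4 i k).trans ?_
    rw [prod_const]
    exact pow_le_pow_right₀ W1 ((card_le_univ _).trans (by simp))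
  have e5 : ‖D‖ ≤ W ^ (2 * m + 2) * (W * (‖r i - r j‖ * W ^ n)) := by
    rw [← e1, norm_mul, norm_mul, norm_mul]
    have := L2.trans VW
    gcongr
  have e6 : W⁻¹ ≤ V⁻¹ := inv_anti₀ V0 VW
  have e7 := (e6.trans D1).trans e5
  rw [inv_le_iff_one_le_mul₀ (by positivity)] at e7 ⊢
  refine e7.trans_eq ?_
  ring

theorem sep {K α : Type*} [Field K] [Algebra K ℂ] [Fintype α] {g a b : (MvPolynomial α K)[X]}
    {Δ : MvPolynomial α K} (h : a * g + b * derivative g = C Δ) : ∃ c : ℕ, ∀ Λ : ℕ, 0 < Λ →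
    ∀ y : α → ℂ, ‖y‖ ≤ 2 ^ Λ → (2 ^ Λ)⁻¹ ≤ ‖MvPolynomial.aeval y (g.leadingCoeff * Δ)‖ →
      ∀ r : Fin g.natDegree → ℂ, g.map (MvPolynomial.aeval y : _ →ₐ[K] ℂ).toRingHom =
        C (MvPolynomial.aeval y g.leadingCoeff) * ∏ j, (X - C (r j)) →
      (∀ j, ‖r j‖ ≤ 2 ^ (c * Λ)) ∧ ∀ i j, i ≠ j →
        (2 ^ (c * Λ))⁻¹ ≤ ‖r i - r j‖ ∧ ‖r i - r j‖ ≤ 2 ^ (c * Λ) := by
  obtain ⟨c1, h1⟩ := sep_coef g
  obtain ⟨c2, h2⟩ := sep_coef b
  obtain ⟨c3, h3⟩ := sep_coef (C Δ)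
  refine ⟨(c1 + c2 + c3 + 1) * 4 * (2 * b.natDegree + g.natDegree + 4),
    fun Λ Λ0 y hy hl r hr => ?_⟩
  have mo : ∀ {u v : ℕ}, u ≤ v → (2 : ℝ) ^ (u * Λ) ≤ 2 ^ (v * Λ) := fun huv =>
    pow_le_pow_right₀ one_le_two (Nat.mul_le_mul_right _ huv)
  have k1 := h1 Λ Λ0 y hy
  have k3 := h3 Λ Λ0 y hy 0
  rw [coeff_C_zero] at k3
  have k4 : ‖MvPolynomial.aeval y g.leadingCoeff‖ ≤ 2 ^ (c1 * Λ) := k1 _
  have lo : ∀ {u v : ℂ} {c : ℕ}, (2 ^ Λ)⁻¹ ≤ ‖u‖ * ‖v‖ → ‖v‖ ≤ 2 ^ (c * Λ) →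
      c ≤ c1 + c2 + c3 → (2 ^ ((c1 + c2 + c3 + 1) * Λ))⁻¹ ≤ ‖u‖ := fun {u v c} e1 e2 e3 => by
    have e4 : ‖u‖ * ‖v‖ ≤ ‖u‖ * 2 ^ ((c1 + c2 + c3) * Λ) := by gcongr; exact e2.trans (mo e3)
    have e5 := e1.trans e4
    rw [inv_le_iff_one_le_mul₀ (by positivity)] at e5 ⊢
    refine e5.trans_eq ?_
    ring
  rw [map_mul, norm_mul] at hl
  have key := sep_core (V := 2 ^ ((c1 + c2 + c3 + 1) * Λ)) (m := b.natDegree)
    (a := a.map (MvPolynomial.aeval y : _ →ₐ[K] ℂ).toRingHom)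
    (b := b.map (MvPolynomial.aeval y : _ →ₐ[K] ℂ).toRingHom) (D := MvPolynomial.aeval y Δ)
    (le_self_pow₀ one_le_two (by positivity)) hr
    (by rw [derivative_map, ← Polynomial.map_mul, ← Polynomial.map_mul, ← Polynomial.map_add, h,
      map_C]; rfl) natDegree_map_le
    (fun i => by rw [coeff_map]; exact (k1 i).trans (mo (by omega)))
    (fun i => by rw [coeff_map]; exact (h2 Λ Λ0 y hy i).trans (mo (by omega)))
    (lo hl k3 (by omega)) (k4.trans (mo (by omega))) (lo (hl.trans_eq (mul_comm _ _)) k4 (by omega))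
  have up : ((2 : ℝ) ^ ((c1 + c2 + c3 + 1) * Λ)) ^ 4 ≤
      2 ^ ((c1 + c2 + c3 + 1) * 4 * (2 * b.natDegree + g.natDegree + 4) * Λ) := by
    rw [← pow_mul, mul_right_comm]
    exact mo (Nat.le_mul_of_pos_right _ (by omega))
  refine ⟨fun j => (key.1 j).trans up, fun i j hij => ⟨?_, (key.2 i j hij).2.trans up⟩⟩
  refine le_of_eq_of_le ?_ (key.2 i j hij).1
  rw [← pow_mul, ← pow_mul]
  congr 2
  ring

end

end Pool.Agent.Lib.MP_5591bc_ag.E
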