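import Pool.Agent.Lib.MP_5591bc_ag.E.Harn

/-! The last coordinate of the disc. -/

namespace Pool.Agent.Lib.MP_5591bc_ag.E

open Polynomial Metric Finset

noncomputable section

theorem perm_id {ι : Type*} [Fintype ι] [DecidableEq ι] {β : ι → ℂ} (hβ : Function.Injective β)
    {π : Equiv.Perm ι} (h : ∀ i j, ‖β (π i) - β (π j) - (β i - β j)‖ ≤
      ‖β i - β j‖ / (2 * (Fintype.card ι).factorial)) : π = 1 := by
  obtain hι | hι := isEmpty_or_nonempty ι
  · exact Subsingleton.elim _ _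
  obtain ⟨i, hi⟩ := Finite.exists_max fun i => ‖β (π i) - β i‖
  have hN : (0 : ℝ) < (Fintype.card ι).factorial := by exact_mod_cast Nat.factorial_pos _
  have hπ : π ^ (Fintype.card ι).factorial = 1 := by
    rw [← Fintype.card_perm]; exact pow_card_eq_one
  generalize (Fintype.card ι).factorial = N at h hN hπ
  have ht : ∀ r, ∑ t ∈ range r, (β (π ((π ^ t) i)) - β ((π ^ t) i)) = β ((π ^ r) i) - β i :=
    fun r => by
      have := sum_range_sub (fun t => β ((π ^ t) i)) r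
      simpa only [pow_succ', Equiv.Perm.mul_apply, pow_zero, Equiv.Perm.one_apply] using this
  have h1 : ∀ r ∈ range N, ‖β (π i) - β i - (β (π ((π ^ r) i)) - β ((π ^ r) i))‖ ≤
      ‖β (π i) - β i‖ / 2 := fun r hr => by
    have h2 : ‖β ((π ^ r) i) - β i‖ ≤ N * ‖β (π i) - β i‖ := by
      rw [← ht]
      refine (norm_sum_le _ _).trans ((sum_le_card_nsmul _ _ _ fun t _ => hi _).trans ?_)
      rw [card_range, nsmul_eq_mul]
      exact mul_le_mul_of_nonneg_right (Nat.cast_le.2 (mem_range.1 hr).le) (norm_nonneg _)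
    have h3 := h i ((π ^ r) i)
    rw [norm_sub_rev (β i)] at h3
    rw [sub_sub_sub_comm]
    refine h3.trans ?_
    rw [div_le_div_iff₀ (by positivity) two_pos]
    linarith
  have h4 : N * ‖β (π i) - β i‖ ≤ N * (‖β (π i) - β i‖ / 2) := by
    have h5 := (norm_sum_le _ _).trans (sum_le_card_nsmul _ _ _ h1)
    rw [sum_sub_distrib, ht, hπ, Equiv.Perm.one_apply, sub_self, sub_zero, sum_const, card_range,
      nsmul_eq_mul, nsmul_eq_mul, norm_mul, Complex.norm_natCast] at h5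
    exact h5
  have h6 : ‖β (π i) - β i‖ ≤ 0 := by linarith [le_of_mul_le_mul_left h4 hN]
  ext j
  exact hβ (sub_eq_zero.1 (norm_le_zero_iff.1 ((hi j).trans h6)))

theorem step {m : ℕ} (m0 : 0 < m) : ∃ c : ℕ, 0 < c ∧ ∀ (Λ R : ℕ) (r : ℝ), 0 < Λ → 2 ≤ R →
    c * Λ * R ≤ r → ∀ a : Fin m → ℂ → ℂ, (∀ j, DifferentiableOn ℂ (a j) (ball 0 r)) →
    (∀ u ∈ ball (0 : ℂ) r, ∀ i j, i ≠ j →
      (2 ^ Λ)⁻¹ ≤ ‖a i u - a j u‖ ∧ ‖a i u - a j u‖ ≤ 2 ^ Λ) →
    ∀ (b b' : Fin m → ℂ) (π π' : Equiv.Perm (Fin m)) (s x : ℂ), (∀ j, a j 0 = b (π j)) →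
    (∀ j, a j 1 = b' (π' j)) →
    (∀ i j, i ≠ j → ‖b i - b j - (b' i - b' j)‖ ≤ ‖b' i - b' j‖ / (c * R)) →
    (∀ i, ‖s - b i - (x - b' i)‖ ≤ ‖x - b' i‖ / (c * R)) → ∃ j, ∀ u ∈ ball (0 : ℂ) R, ∀ i,
      ‖a j u + (s - a j 0) + u * (x - a j 1 - (s - a j 0)) - a i u - (x - a i 1)‖ ≤
        ‖x - a i 1‖ / 2 := by
  refine ⟨256 * m.factorial + 1, by positivity, fun Λ R r hΛ hR hr a ha hb b b' π π' s x h0 h1 hbb
    hs => ?_⟩
  have hN : (1 : ℝ) ≤ m.factorial := by exact_mod_cast Nat.factorial_pos m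
  have hΛ' : (1 : ℝ) ≤ Λ := by exact_mod_cast hΛ
  have hR' : (2 : ℝ) ≤ R := by exact_mod_cast hR
  push_cast at hr hbb hs
  have hP := fun (β : Fin m → ℂ) (hβ : Function.Injective β) (τ : Equiv.Perm (Fin m)) =>
    perm_id hβ (π := τ)
  rw [Fintype.card_fin] at hP
  generalize (m.factorial : ℝ) = N at hN hr hbb hs hP
  have N0 : 0 < N := by linarith
  have hS : (R : ℝ) * (1 + 16 * (Λ + 1) / (8 * N)⁻¹) ≤ r := by
    refine le_trans ?_ hr
    rw [div_inv_eq_mul, mul_comm]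
    exact mul_le_mul_of_nonneg_right (by nlinarith) (by linarith)
  have m1 : (1 : ℂ) ∈ ball (0 : ℂ) R := by rw [mem_ball_zero_iff, norm_one]; linarith
  have hRr : (R : ℝ) ≤ r := le_trans (le_mul_of_one_le_right (by linarith)
    (le_add_of_nonneg_right (by positivity))) hS
  have hH : ∀ i j, ∀ u ∈ ball (0 : ℂ) R, ‖a i u - a j u - (a i 1 - a j 1)‖ ≤
      (8 * N)⁻¹ * ‖a i 1 - a j 1‖ := fun i j u hu => by
    rcases eq_or_ne i j with rfl | hij
    · simp
    refine harn (h := fun u => a i u - a j u) ((ha i).sub (ha j))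
      (fun v hv => ⟨?_, (hb v hv i j hij).2⟩) (by positivity)
      (inv_le_one_of_one_le₀ (by linarith)) hS hu m1
    exact (inv_le_iff_one_le_mul₀' (by positivity)).1 (hb v hv i j hij).1
  have hη : ∀ t : ℝ, 0 ≤ t → t / ((256 * N + 1) * R) ≤ (8 * N)⁻¹ * t := fun t ht => by
    rw [div_eq_inv_mul]
    exact mul_le_mul_of_nonneg_right (inv_anti₀ (by positivity) (by nlinarith)) ht
  have e8 : (8 * N)⁻¹ ≤ 1 / 8 := by
    rw [one_div]; exact inv_anti₀ (by norm_num) (by linarith)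
  have hτ : π'⁻¹ * π = 1 := by
    refine hP (fun j => a j 1) (fun i j h => by_contra fun hij => ?_) _ fun i j => ?_
    · have := (hb 1 (ball_subset_ball hRr m1) i j hij).1
      rw [show a i 1 = a j 1 from h, sub_self, norm_zero] at this
      exact absurd this (not_le.2 (by positivity))
    rcases eq_or_ne i j with rfl | hij
    · simp
    have e : ∀ l, a ((π'⁻¹ * π) l) 1 = b' (π l) := fun l => by rw [h1]; simp
    have h2 := (hbb _ _ (π.injective.ne hij)).trans (hη _ (norm_nonneg _))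
    have h3 := hH i j 0 (mem_ball_self (by linarith))
    rw [h0, h0] at h3
    simp only [e]
    generalize b' (π i) - b' (π j) = X at h2 ⊢
    generalize b (π i) - b (π j) = Z at h2 h3
    generalize a i 1 - a j 1 = Y at h3 ⊢
    have h4 : ‖X - Y‖ ≤ ‖Z - X‖ + ‖Z - Y‖ := by
      rw [norm_sub_rev Z X]; exact norm_sub_le_norm_sub_add_norm_sub _ _ _
    have h5 : ‖X‖ ≤ ‖X - Y‖ + ‖Y‖ := norm_le_norm_sub_add _ _
    have h6 : ‖Y‖ / (2 * N) = 4 * ((8 * N)⁻¹ * ‖Y‖) := by field_simp; ring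
    have h7 : (8 * N)⁻¹ * ‖X‖ ≤ 1 / 8 * ‖X - Y‖ + (8 * N)⁻¹ * ‖Y‖ :=
      (mul_le_mul_of_nonneg_left h5 (by positivity)).trans (by rw [mul_add]; gcongr)
    have h8 : 0 ≤ (8 * N)⁻¹ * ‖Y‖ := by positivity
    rw [h6]
    linarith
  obtain rfl : π' = π := inv_mul_eq_one.1 hτ
  have : Nonempty (Fin m) := ⟨⟨0, m0⟩⟩
  obtain ⟨j, hj⟩ := Finite.exists_min fun j => ‖x - a j 1‖
  refine ⟨j, fun u hu i => ?_⟩
  have h2 := hs (π' j)
  rw [← h0, ← h1] at h2
  have h3 := hH j i u hu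
  have h4 : ‖a j 1 - a i 1‖ ≤ 2 * ‖x - a i 1‖ := by
    have := norm_sub_le_norm_sub_add_norm_sub (a j 1) x (a i 1)
    rw [norm_sub_rev (a j 1) x] at this
    linarith [hj i]
  have h5 : ‖(1 - u) * (s - a j 0 - (x - a j 1))‖ ≤ ‖x - a i 1‖ / 4 := by
    have h6 : ‖1 - u‖ ≤ 2 * R := by
      have := norm_sub_le 1 u
      rw [norm_one] at this
      linarith [mem_ball_zero_iff.1 hu]
    rw [norm_mul]
    refine (mul_le_mul h6 (h2.trans (div_le_div_of_nonneg_right (hj i) (by positivity)))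
      (norm_nonneg _) (by positivity)).trans ?_
    rw [← mul_div_assoc, div_le_div_iff₀ (by positivity) (by norm_num)]
    have : 0 ≤ ‖x - a i 1‖ * (N * R) := by positivity
    have : ‖x - a i 1‖ * R ≤ ‖x - a i 1‖ * (N * R) := by gcongr; nlinarith
    nlinarith
  have e : a j u + (s - a j 0) + u * (x - a j 1 - (s - a j 0)) - a i u - (x - a i 1) =
      a j u - a i u - (a j 1 - a i 1) + (1 - u) * (s - a j 0 - (x - a j 1)) := by ring
  rw [e]
  have h7 : (8 * N)⁻¹ * ‖a j 1 - a i 1‖ ≤ 1 / 8 * (2 * ‖x - a i 1‖) := by gcongr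
  linarith [norm_add_le (a j u - a i u - (a j 1 - a i 1)) ((1 - u) * (s - a j 0 - (x - a j 1)))]

end

end Pool.Agent.Lib.MP_5591bc_ag.E
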