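import Pool.Agent.Lib.MP_5591bc_ag.E.CellA
import Pool.Agent.Lib.MP_5591bc_ag.E.Alg
import Pool.Agent.Lib.MP_5591bc_ag.E.Sep
import Pool.Agent.Lib.MP_5591bc_ag.E.Step
import Pool.Agent.Lib.MP_5591bc_ag.E.Roots

/-! Few cells, any two points of a cell lie on a disc. -/

namespace Pool.Agent.Lib.MP_5591bc_ag.E

open Metric Finset

noncomputable section

open MvPolynomial (aeval optionEquivLeft rename)
open Polynomial (C X derivative)

variable {K : Type} [Field K] [Algebra K ℂ]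

theorem cell_rt {α : Type} [Fintype α] {g a b : Polynomial (MvPolynomial α K)}
    {Δ : MvPolynomial α K} (h : a * g + b * derivative g = C Δ) {φ : ℂ → α → ℂ} {R : ℝ}
    (hφ : DifferentiableOn ℂ φ (ball 0 R))
    (h0 : ∀ u ∈ ball (0 : ℂ) R, aeval (φ u) (g.leadingCoeff * Δ) ≠ 0) :
    ∃ r : Fin g.natDegree → ℂ → ℂ, (∀ j, DifferentiableOn ℂ (r j) (ball 0 R)) ∧
      ∀ u ∈ ball (0 : ℂ) R, g.map (aeval (φ u) : _ →ₐ[K] ℂ).toRingHom =
        C (aeval (φ u) g.leadingCoeff) * ∏ j, (X - C (r j u)) := by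
  have l0 : ∀ u ∈ ball (0 : ℂ) R, (aeval (φ u) : _ →ₐ[K] ℂ).toRingHom g.leadingCoeff ≠ 0 :=
    fun u hu => left_ne_zero_of_mul ((map_mul _ _ _).symm.trans_ne (h0 u hu))
  obtain ⟨r, r1, r2⟩ := roots (g := fun u => g.map (aeval (φ u) : _ →ₐ[K] ℂ).toRingHom)
    (fun i => by simpa using cell_diff (g.coeff i) hφ)
    (fun u hu => Polynomial.natDegree_map_of_leadingCoeff_ne_zero _ (l0 u hu)) fun u hu z h1 h2 => by
      have := congrArg (fun p => (p.map (aeval (φ u) : _ →ₐ[K] ℂ).toRingHom).eval z) h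
      simp only [Polynomial.map_add, Polynomial.map_mul, Polynomial.eval_add, Polynomial.eval_mul,
        ← Polynomial.derivative_map, h1, h2, mul_zero, add_zero, Polynomial.map_C,
        Polynomial.eval_C] at this
      exact right_ne_zero_of_mul ((map_mul _ _ _).symm.trans_ne (h0 u hu)) this.symm
  exact ⟨r, r1, fun u hu => (r2 u hu).2.trans (by
    rw [Polynomial.leadingCoeff_map_of_leadingCoeff_ne_zero _ (l0 u hu)]; rfl)⟩

theorem cell_option [CharZero K] {α : Type} [Fintype α] (ih : CellP K α) :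
    CellP K (Option α) := by
  classical
  intro T T0
  obtain ⟨g, q, a, b, β, Δ, N, β0, Δ0, m0, hq, hb⟩ :=
    rad_bez ((map_ne_zero_iff _ (optionEquivLeft K α).injective).2 T0)
  have g0 : g ≠ 0 := fun e => by simp [e] at m0
  obtain ⟨T1, T10, c0, c00, hc0⟩ := ih (β * (g.leadingCoeff * Δ))
    (mul_ne_zero β0 (mul_ne_zero (Polynomial.leadingCoeff_ne_zero.2 g0) Δ0))
  obtain ⟨c1, hc1⟩ := sep hb
  obtain ⟨c2, c20, hc2⟩ := step m0
  obtain ⟨cG, hG⟩ := cell_pow ((optionEquivLeft K α).symm g)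
  obtain ⟨cQ, hQ⟩ := cell_pow ((optionEquivLeft K α).symm q)
  obtain ⟨cT, hT⟩ := cell_pow T1
  obtain ⟨cβ, hβ⟩ := cell_pow β
  obtain ⟨ca, ha⟩ := cell_pow g.leadingCoeff
  obtain ⟨cd, hd⟩ := cell_pow Δ
  obtain ⟨k1, e1⟩ : ∃ k, k = cG + cT + 1 := ⟨_, rfl⟩
  obtain ⟨k2, e2⟩ : ∃ k, k = c0 * k1 := ⟨_, rfl⟩
  obtain ⟨k3, e3⟩ : ∃ k, k = (cβ + ca + cd + 1) * k2 := ⟨_, rfl⟩
  obtain ⟨k4, e4⟩ : ∃ k, k = (c1 + 1) * k3 := ⟨_, rfl⟩
  obtain ⟨k5, e5⟩ : ∃ k, k = k1 + k3 + (g.natDegree + 1) * (k4 + 1) := ⟨_, rfl⟩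
  obtain ⟨k6, e6⟩ : ∃ k, k = k3 + N * (k3 + g.natDegree * (k5 + 1)) + (cQ + 1) * (k5 + 2) :=
    ⟨_, rfl⟩
  have p1 : 0 < k1 := by omega
  have p2 : 0 < k2 := by rw [e2]; positivity
  have q1 : k1 ≤ k2 := e2 ▸ Nat.le_mul_of_pos_left _ c00
  have q2 : k2 ≤ k3 := e3 ▸ Nat.le_mul_of_pos_left _ (by omega)
  have q3 : k3 ≤ k4 := e4 ▸ Nat.le_mul_of_pos_left _ (by omega)
  have q4 : k4 + 1 ≤ k5 := by rw [e5, add_mul _ 1]; omega
  refine ⟨(optionEquivLeft K α).symm g * rename some T1, mul_ne_zero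
    ((map_ne_zero_iff _ (optionEquivLeft K α).symm.injective).2 g0)
    ((map_ne_zero_iff _ (MvPolynomial.rename_injective _ (Option.some_injective α))).2 T10),
    k6 + c0 * k1 * (c2 * k4) + (2 * k5 + 1) * (8 * c2 + 1) ^ 2 + (2 * c0 + 3 * g.natDegree ^ 2) + 1,
    by omega, fun Λ R Λ0 R2 => ?_⟩
  generalize ec : k6 + c0 * k1 * (c2 * k4) + (2 * k5 + 1) * (8 * c2 + 1) ^ 2 +
    (2 * c0 + 3 * g.natDegree ^ 2) + 1 = c
  have mo : ∀ {i j : ℕ}, i ≤ j → (2 : ℝ) ^ (i * Λ) ≤ 2 ^ (j * Λ) := fun h =>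
    pow_le_pow_right₀ one_le_two (Nat.mul_le_mul_right _ h)
  have z1 : k1 * Λ = cG * Λ + cT * Λ + Λ := by rw [e1]; ring
  have z3 : k3 * Λ = cβ * (k2 * Λ) + ca * (k2 * Λ) + cd * (k2 * Λ) + k2 * Λ := by rw [e3]; ring
  have z4 : k4 * Λ = c1 * (k3 * Λ) + k3 * Λ := by rw [e4]; ring
  have z5 : k5 * Λ = k1 * Λ + k3 * Λ + (k4 + 1) * Λ * g.natDegree + (k4 + 1) * Λ := by
    rw [e5]; ring
  have z6 : k6 * Λ = k3 * Λ + (k3 * Λ + (k5 + 1) * Λ * g.natDegree) * N + cQ * ((k5 + 2) * Λ) +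
    (k5 + 2) * Λ := by rw [e6]; ring
  have RR : R ≤ c2 * (k4 * Λ) * R := Nat.le_mul_of_pos_left _ (by have : 0 < k4 := by omega
                                                                  positivity)
  obtain ⟨𝒞, n1, n2, n3⟩ := hc0 (k1 * Λ) (c2 * (k4 * Λ) * R) (by positivity) (R2.trans RR)
  rw [← mul_assoc c0, ← e2] at n1 n3
  let Gd : (α → ℂ) → Prop := fun y => ‖y‖ ≤ 2 ^ (k2 * Λ) ∧
    (2 ^ (k2 * Λ))⁻¹ ≤ ‖aeval y (β * (g.leadingCoeff * Δ))‖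
  have f1 : ∀ y, Gd y → (2 ^ (k3 * Λ))⁻¹ ≤ ‖aeval y β‖ ∧
      (2 ^ (k3 * Λ))⁻¹ ≤ ‖aeval y (g.leadingCoeff * Δ)‖ ∧
      (2 ^ (k3 * Λ))⁻¹ ≤ ‖aeval y g.leadingCoeff‖ ∧ ‖aeval y g.leadingCoeff‖ ≤ 2 ^ (k3 * Λ) := by
    rintro y ⟨y1, y2⟩
    have a1 := hβ _ (by positivity) y y1
    have a2 := ha _ (by positivity) y y1
    have a3 := hd _ (by positivity) y y1
    simp only [map_mul] at y2 ⊢
    have a4 := cell_low (mul_comm (aeval y β) _ ▸ y2) a1 le_rfl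
    refine ⟨cell_low y2 (q := ca * (k2 * Λ) + cd * (k2 * Λ)) ?_ (by omega),
      (cell_inv (by omega)).trans a4, cell_low a4 a3 (by omega),
      a2.trans (pow_le_pow_right₀ one_le_two (by omega))⟩
    rw [pow_add]
    exact (norm_mul_le _ _).trans (by gcongr)
  have f0 : ∀ y, Gd y → aeval y (g.leadingCoeff * Δ) ≠ 0 := fun y hy =>
    norm_pos_iff.1 (lt_of_lt_of_le (by positivity) (f1 y hy).2.1)
  have f2 : ∀ y, Gd y → ∀ r : Fin g.natDegree → ℂ, g.map (aeval y : _ →ₐ[K] ℂ).toRingHom =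
      C (aeval y g.leadingCoeff) * ∏ j, (X - C (r j)) → (∀ j, ‖r j‖ ≤ 2 ^ (k4 * Λ)) ∧
      ∀ i j, i ≠ j → (2 ^ (k4 * Λ))⁻¹ ≤ ‖r i - r j‖ ∧ ‖r i - r j‖ ≤ 2 ^ (k4 * Λ) := by
    intro y hy r hr
    obtain ⟨a1, a2⟩ := hc1 (k3 * Λ) (by have : 0 < k3 := by omega
                                        positivity) y (hy.1.trans (mo q2)) (f1 y hy).2.1 r hr
    have l : c1 * (k3 * Λ) ≤ k4 * Λ := by omega
    exact ⟨fun j => (a1 j).trans (pow_le_pow_right₀ one_le_two l), fun i j h =>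
      ⟨(cell_inv l).trans (a2 i j h).1, (a2 i j h).2.trans (pow_le_pow_right₀ one_le_two l)⟩⟩
  have f3 : ∀ y, ∃ r : Fin g.natDegree → ℂ, Gd y → g.map (aeval y : _ →ₐ[K] ℂ).toRingHom =
      C (aeval y g.leadingCoeff) * ∏ j, (X - C (r j)) := fun y => by
    by_cases hy : Gd y
    · obtain ⟨r, -, hr⟩ := cell_rt hb (φ := fun _ => y) (R := 1) (differentiableOn_const _)
        fun _ _ => f0 y hy
      exact ⟨fun j => r j 0, fun _ => hr 0 (mem_ball_self one_pos)⟩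
    · exact ⟨0, fun h => absurd h hy⟩
  choose ρ hρ using f3
  have R0 : (0 : ℂ) ∈ ball (0 : ℂ) (c2 * (k4 * Λ) * R : ℕ) :=
    mem_ball_self (by exact_mod_cast lt_of_lt_of_le two_pos (R2.trans RR))
  have R1 : (1 : ℂ) ∈ ball (0 : ℂ) (c2 * (k4 * Λ) * R : ℕ) := by
    rw [mem_ball_zero_iff, norm_one]
    exact_mod_cast lt_of_lt_of_le one_lt_two (R2.trans RR)
  have f4 : ∀ C ∈ 𝒞, ∀ y ∈ C, Gd y := fun C hC y hy => by
    obtain ⟨φ, k⟩ := n3 C hC y hy y hy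
    exact k.zero ▸ ⟨k.le 0 R0, k.ge 0 R0⟩
  let S : Set (Option α → ℂ) := {x | ‖x‖ ≤ 2 ^ Λ ∧ Gd (fun l => x (some l)) ∧
    (2 ^ (k1 * Λ))⁻¹ ≤ ‖aeval x ((optionEquivLeft K α).symm g)‖}
  have two : ∀ i, (2 : ℝ) ^ (i * Λ) + 2 ^ (i * Λ) ≤ 2 ^ ((i + 1) * Λ) := fun i => by
    rw [← two_mul, ← pow_succ']
    exact pow_le_pow_right₀ one_le_two (by rw [add_mul]; omega)
  have f5 : ∀ x ∈ S, ∀ i, (2 ^ (k5 * Λ))⁻¹ ≤ ‖x none - ρ (fun l => x (some l)) i‖ ∧
      ‖x none - ρ (fun l => x (some l)) i‖ ≤ 2 ^ (k5 * Λ) := by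
    rintro x ⟨x1, x2, x3⟩ i
    have up : ∀ j, ‖x none - ρ (fun l => x (some l)) j‖ ≤ 2 ^ ((k4 + 1) * Λ) := fun j =>
      (norm_sub_le _ _).trans ((add_le_add (((norm_le_pi_norm x none).trans x1).trans
        (by simpa using mo (i := 1) (j := k4) (by omega))) ((f2 _ x2 _ (hρ _ x2)).1 j)).trans (two _))
    refine ⟨?_, (up i).trans (mo q4)⟩
    rw [cell_ev, AlgEquiv.apply_symm_apply, hρ _ x2, Polynomial.eval_mul, Polynomial.eval_C,
      Polynomial.eval_prod, ← mul_prod_erase _ _ (mem_univ i), mul_left_comm] at x3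
    simp only [Polynomial.eval_sub, Polynomial.eval_X, Polynomial.eval_C] at x3
    refine cell_low x3 (q := k3 * Λ + (k4 + 1) * Λ * g.natDegree) ?_ (by omega)
    rw [pow_add, norm_mul, norm_prod, pow_mul _ _ g.natDegree]
    refine mul_le_mul (f1 _ x2).2.2.2 ((prod_le_prod (fun _ _ => norm_nonneg _) fun j _ => up j).trans
      ((prod_const _).trans_le (pow_le_pow_right₀ (one_le_pow₀ one_le_two)
        ((card_le_univ _).trans_eq (Fintype.card_fin _)))))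
      (by positivity) (by positivity)
  let F : Fin g.natDegree × Fin g.natDegree → (Option α → ℂ) → ℂ := fun p x =>
    (if p.1 = p.2 then x none else ρ (fun l => x (some l)) p.1) - ρ (fun l => x (some l)) p.2
  obtain ⟨t, col, t1, t2, t3⟩ := M.cva_pi F (fun p x => ‖F p x‖) (lo := (2 ^ (k5 * Λ))⁻¹)
    (by positivity) (m := c2 * R) (by positivity) (2 * (k5 * Λ) + 1) (S := S) fun x hx p => by
      have : (2 ^ (k5 * Λ))⁻¹ ≤ ‖F p x‖ ∧ ‖F p x‖ ≤ 2 ^ (k5 * Λ) := by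
        simp only [F]
        split_ifs with h
        · exact f5 x hx _
        · have := (f2 _ hx.2.1 _ (hρ _ hx.2.1)).2 _ _ h
          exact ⟨(cell_inv (Nat.mul_le_mul_right _ (by omega))).trans this.1, this.2.trans (mo (by omega))⟩
      refine ⟨this.1, this.2.trans_lt ?_, le_rfl⟩
      rw [← div_eq_mul_inv, lt_div_iff₀ (by positivity), ← pow_add]
      exact pow_lt_pow_right₀ one_lt_two (by omega)
  refine ⟨(𝒞 ×ˢ t).image fun p => {x | x ∈ S ∧ (fun l => x (some l)) ∈ p.1 ∧ col x = p.2},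
    ?_, fun x x1 x2 => ?_, fun D hD s hs x hx => ?_⟩
  · refine card_image_le.trans ((card_product _ _).le.trans ((Nat.mul_le_mul n1 t1).trans ?_))
    rw [mul_assoc c]
    refine le_trans (Nat.mul_le_mul (Nat.pow_le_pow_left ?_ _) ?_) (cell_cnt
      (A := c0 * k1 * (c2 * k4)) (A' := (2 * k5 + 1) * (8 * c2 + 1) ^ 2) (a := c0)
      (e := g.natDegree ^ 2) (by omega) (by omega) (by omega) (by positivity) (by omega))
    · rw [← e2]
      calc _ = k2 * (c2 * k4) * (Λ * R * Λ) * 1 := by ring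
        _ ≤ k2 * (c2 * k4) * (Λ * R * Λ) * R := by gcongr; omega
        _ = _ := by ring
    · rw [Fintype.card_prod, Fintype.card_fin, ← sq]
      refine Nat.pow_le_pow_left ?_ _
      have z1 : Λ ≤ Λ * R := Nat.le_mul_of_pos_right _ (by omega)
      have z2 : R ≤ Λ * R := Nat.le_mul_of_pos_left _ Λ0
      calc _ ≤ ((2 * k5 + 1) * (Λ * R)) * ((8 * c2 + 1) * (Λ * R)) ^ 2 := by
            have := Nat.mul_le_mul_left k5 z1
            have := Nat.mul_le_mul_left c2 z2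
            refine Nat.mul_le_mul ?_ (Nat.pow_le_pow_left ?_ _) <;> rw [add_mul, mul_assoc] <;> omega
        _ = _ := by ring
  · have x0 : ‖fun l => x (some l)‖ ≤ 2 ^ Λ := (pi_norm_le_iff_of_nonneg (by positivity)).2
      fun l => (norm_le_pi_norm x _).trans x1
    rw [map_mul, MvPolynomial.aeval_rename] at x2
    obtain ⟨D, hD, k⟩ := n2 _ (x0.trans (by simpa using mo (i := 1) p1))
      (cell_low (x2.trans_eq (congrArg _ (mul_comm _ _))) (hG Λ Λ0 x x1) (by omega))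
    have xS : x ∈ S := ⟨x1, f4 D hD _ k, cell_low x2 (hT Λ Λ0 _ x0) (by omega)⟩
    exact ⟨_, mem_image_of_mem _ (mk_mem_product hD (t2 x xS)), xS, k, rfl⟩
  obtain ⟨p, hp, rfl⟩ := mem_image.1 hD
  obtain ⟨sS, sC, sc⟩ := hs
  obtain ⟨xS, xC, xc⟩ := hx
  have cl := t3 s x xS (sc.trans xc.symm)
  obtain ⟨φ, r, k, r1, r2, r3⟩ : ∃ (φ : ℂ → α → ℂ) (r : Fin g.natDegree → ℂ → ℂ),
      Arc (β * (g.leadingCoeff * Δ)) (c2 * (k4 * Λ) * R : ℕ) (2 ^ (k2 * Λ)) (fun l => s (some l))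
        (fun l => x (some l)) φ ∧ (∀ j, DifferentiableOn ℂ (r j) (ball 0 (c2 * (k4 * Λ) * R : ℕ))) ∧
      (∀ u ∈ ball (0 : ℂ) (c2 * (k4 * Λ) * R : ℕ), g.map (aeval (φ u) : _ →ₐ[K] ℂ).toRingHom =
        C (aeval (φ u) g.leadingCoeff) * ∏ j, (X - C (r j u))) ∧
      ((fun l => s (some l)) = (fun l => x (some l)) → ∀ j u, r j u = r j 0) := by
    by_cases e : (fun l => s (some l)) = fun l => x (some l)
    · exact ⟨fun _ l => s (some l), fun j _ => ρ _ j, ⟨differentiableOn_const _, rfl, e,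
        fun _ _ => sS.2.1.1, fun _ _ => sS.2.1.2, fun h => absurd e h⟩,
        fun _ => differentiableOn_const _, fun _ _ => hρ _ sS.2.1, fun _ _ _ => rfl⟩
    · obtain ⟨φ, k⟩ := n3 _ (mem_product.1 hp).1 _ sC _ xC
      obtain ⟨r, r1, r2⟩ := cell_rt hb k.hol fun u hu => f0 _ ⟨k.le u hu, k.ge u hu⟩
      exact ⟨φ, r, k, r1, r2, fun h => absurd h e⟩
  have r4 := fun u hu => f2 _ ⟨k.le u hu, k.ge u hu⟩ _ (r2 u hu)
  have inj : ∀ u ∈ ball (0 : ℂ) (c2 * (k4 * Λ) * R : ℕ), Function.Injective (r · u) :=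
    fun u hu i j e => by_contra fun h => by
      have := ((r4 u hu).2 i j h).1
      rw [show r i u = r j u from e, sub_self, norm_zero] at this
      exact absurd this (not_le.2 (by positivity))
  obtain ⟨π, hπ⟩ := cell_perm (inj 0 R0) (left_ne_zero_of_mul (by
    simpa only [map_mul] using f0 _ sS.2.1)) ((k.zero ▸ (r2 0 R0).symm :).trans (hρ _ sS.2.1))
  obtain ⟨π', hπ'⟩ := cell_perm (inj 1 R1) (left_ne_zero_of_mul (by
    simpa only [map_mul] using f0 _ xS.2.1)) ((k.one ▸ (r2 1 R1).symm :).trans (hρ _ xS.2.1))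
  obtain ⟨j, hj⟩ := hc2 (k4 * Λ) R (c2 * (k4 * Λ) * R : ℕ) (by have : 0 < k4 := by omega
                                                               positivity) R2
    (by push_cast; rfl) r r1 (fun u hu => (r4 u hu).2) _ _ π π' (s none) (x none) hπ hπ'
    (fun i j h => by simpa [F, h] using (cl (i, j)).le) fun i => by simpa [F] using (cl (i, i)).le
  have sub : ball (0 : ℂ) R ⊆ ball 0 (c2 * (k4 * Λ) * R : ℕ) :=
    ball_subset_ball (by exact_mod_cast RR)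
  obtain ⟨ψ, eψ⟩ : ∃ ψ : ℂ → ℂ, ψ = fun u => r j u + (s none - r j 0) +
    u * (x none - r j 1 - (s none - r j 0)) := ⟨_, rfl⟩
  have w : ∀ u ∈ ball (0 : ℂ) R, ∀ i, (2 ^ ((k5 + 1) * Λ))⁻¹ ≤ ‖ψ u - r i u‖ ∧
      ‖ψ u - r i u‖ ≤ 2 ^ ((k5 + 1) * Λ) := fun u hu i => by
    have a1 := hj u hu i
    have a2 := f5 x xS (π' i)
    rw [← hπ', ] at a2
    have a3 := abs_le.1 ((abs_norm_sub_norm_le _ _).trans a1)
    have a4 := two k5
    have a5 : (2 ^ ((k5 + 1) * Λ) : ℝ)⁻¹ ≤ (2 ^ (k5 * Λ))⁻¹ / 2 := by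
      rw [div_eq_mul_inv, ← mul_inv, mul_two]
      exact inv_anti₀ (by positivity) a4
    rw [eψ]
    constructor <;> linarith [a3.1, a3.2, a2.1, a2.2, norm_nonneg (x none - r i 1)]
  have le : ∀ u ∈ ball (0 : ℂ) R, ‖fun o : Option α => o.elim (ψ u) (φ u)‖ ≤ 2 ^ ((k5 + 2) * Λ) :=
    fun u hu => (pi_norm_le_iff_of_nonneg (by positivity)).2 fun o => by
      cases o with
      | none => exact (norm_le_norm_sub_add _ (r j u)).trans ((add_le_add (w u hu j).2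
          (((r4 u (sub hu)).1 j).trans (mo (by omega)))).trans (two _))
      | some l => exact (norm_le_pi_norm (φ u) l).trans ((k.le u (sub hu)).trans (mo (by omega)))
  have q6 : k5 + 2 ≤ k6 := by rw [e6, add_mul _ 1]; omega
  refine ⟨fun u o => o.elim (ψ u) (φ u), differentiableOn_pi.2 fun o => ?_, ?_, ?_,
    fun u hu => (le u hu).trans (mo (by omega)), fun u hu => ?_, fun hn => ?_⟩
  · cases o with
    | none =>
      rw [eψ]
      exact (((r1 j).mono sub).add_const _).fun_add (differentiableOn_id.mul_const _)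
    | some l => exact differentiableOn_pi.1 (k.hol.mono sub) l
  · funext o
    cases o <;> simp [eψ, k.zero]
  · funext o
    cases o <;> simp [eψ, k.one]
  · have a1 := hQ _ (by positivity) _ (le u hu)
    have a2 := congrArg (fun p => (p.map (aeval (φ u) : _ →ₐ[K] ℂ).toRingHom).eval (ψ u)) hq
    have a3 := f1 _ ⟨k.le u (sub hu), k.ge u (sub hu)⟩
    rw [cell_ev, AlgEquiv.apply_symm_apply] at a1
    simp only [Polynomial.map_mul, Polynomial.eval_mul, Polynomial.map_pow, Polynomial.eval_pow,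
      r2 u (sub hu), Polynomial.map_C, Polynomial.eval_C, Polynomial.eval_prod,
      Polynomial.eval_sub, Polynomial.eval_X] at a2
    rw [cell_ev]
    refine cell_low (p := k3 * Λ + (k3 * Λ + (k5 + 1) * Λ * g.natDegree) * N)
      (le_trans ?_ (congrArg norm a2).ge) a1 (le_trans (by omega)
        (Nat.mul_le_mul_right Λ (show k6 ≤ c by omega)))
    rw [pow_add, mul_inv, norm_mul, norm_pow, pow_mul _ _ N, ← inv_pow _ N, pow_add, mul_inv,
      norm_mul, norm_prod, pow_mul _ _ g.natDegree, ← inv_pow _ g.natDegree]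
    refine mul_le_mul a3.1 (pow_le_pow_left₀ (by positivity) (mul_le_mul a3.2.2.1 ?_
      (by positivity) (norm_nonneg _)) _) (by positivity) (norm_nonneg _)
    exact le_trans (by simp) (prod_le_prod (fun _ _ => by positivity) fun i _ => (w u hu i).1)
  · by_cases e : (fun l => s (some l)) = fun l => x (some l)
    · refine ⟨none, fun h => hn (funext fun o => ?_), fun u => ?_⟩
      · cases o with
        | none => exact h.symm
        | some l => exact congrFun e l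
      · simp only [eψ, Option.elim_none, r3 e j u, r3 e j 1]
        ring
    · obtain ⟨l, l1, l2⟩ := k.lin e
      exact ⟨some l, l1, l2⟩

theorem cells {K : Type} [Field K] [CharZero K] [Algebra K ℂ] (σ : Type) [Fintype σ]
    {T : MvPolynomial σ K} (T0 : T ≠ 0) : ∃ T' : MvPolynomial σ K, T' ≠ 0 ∧ ∃ c : ℕ,
    ∀ Λ R : ℕ, 0 < Λ → 2 ≤ R → ∃ 𝒞 : Finset (Set (σ → ℂ)), #𝒞 ≤ (c * Λ * R) ^ c ∧
      (∀ x, ‖x‖ ≤ 2 ^ Λ → (2 ^ Λ)⁻¹ ≤ ‖MvPolynomial.aeval x T'‖ → ∃ C ∈ 𝒞, x ∈ C) ∧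
      ∀ C ∈ 𝒞, ∀ s ∈ C, ∀ x ∈ C, ∃ φ, Arc T R (2 ^ (c * Λ)) s x φ :=
  let ⟨T', h, c, _, k⟩ := Fintype.induction_empty_option (P := fun σ _ => CellP K σ)
    (fun α _ _ e => @cell_equiv K _ _ α _ (Fintype.ofEquiv _ e.symm) _ e) cell_empty
    (fun _ _ => cell_option) σ T T0
  ⟨T', h, c, k⟩

end

end Pool.Agent.Lib.MP_5591bc_ag.E
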