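import Pool.Agent.Lib.MP_5591bc_ag.E.Cont

/-! Continuation to a tube round a disc. -/

namespace Pool.Agent.Lib.MP_5591bc_ag.E

open Matrix Filter Topology MvPowerSeries G R W M Metric

noncomputable section

variable {σ K ν : Type*} [Fintype σ] [DecidableEq σ] [Field K] [Algebra K ℂ] [Fintype ν]
  [DecidableEq ν] {T : MvPolynomial σ K} {B : σ → Matrix ν ν (MvPolynomial σ K)}
  {U V : Set (σ → ℂ)} {P G : (σ → ℂ) → Matrix ν ν ℂ}

theorem tube_sol {A : ℂ → Matrix ν ν ℂ} (hA : Hol (ball 0 18) A) (M : Matrix ν ν ℂ) :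
    ∃ Y : ℂ → Matrix ν ν ℂ, Y 0 = M ∧ ∀ u ∈ ball (0 : ℂ) (35 / 2), MSol A Y u := by
  have sub : closedBall (0 : ℂ) (35 / 2) ⊆ ball 0 18 := closedBall_subset_ball (by norm_num)
  obtain ⟨c, hc⟩ := (isCompact_closedBall (0 : ℂ) (35 / 2)).exists_bound_of_continuousOn
    (f := fun u (a : ν × ν) => A u a.1 a.2)
    (continuousOn_pi.2 fun a => (hA a.1 a.2).continuousOn.mono sub)
  obtain ⟨Φ, Ψ, h0, -, h⟩ := exists_fund (convex_ball (0 : ℂ) (35 / 2)) isOpen_ball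
    (mem_ball_self (by norm_num)) (A := A)
    (fun i j => (hA i j).mono (ball_subset_closedBall.trans sub)) (c := |c|)
    (fun t ht i j => ((norm_le_pi_norm (fun a : ν × ν => A t a.1 a.2) (i, j)).trans
      (hc t (ball_subset_closedBall ht))).trans (le_abs_self c)) (abs_nonneg c)
  exact ⟨fun u => Φ u * M, by simp only [h0, Matrix.one_mul], fun u hu => (h u hu).1.mul_const M⟩

theorem tube (loc : Loc T B) (ho : IsOpen V) (hP : FundM T B V P) {s x : σ → ℂ} (hs : s ∈ V)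
    {φ : ℂ → σ → ℂ} (hφ : DifferentiableOn ℂ φ (ball 0 18)) (h0 : φ 0 = s) (h1 : φ 1 = x) {l : σ}
    (hl : x l ≠ s l) (lin : ∀ u, φ u l = s l + u * (x l - s l)) {ρ : ℝ} (ρ0 : 0 < ρ)
    (hT : ∀ u ∈ ball (0 : ℂ) 18, ∀ z, ‖z - φ u‖ ≤ 40 * ρ → MvPolynomial.aeval z T ≠ 0) :
    ∃ (U : Set (σ → ℂ)) (Q g : (σ → ℂ) → Matrix ν ν ℂ) (S : ℝ), IsOpen U ∧ IsPreconnected U ∧
      s ∈ U ∧ x ∈ U ∧ FundM T B U Q ∧ Q =ᶠ[𝓝 s] P ∧ FundM T B (ball x (2 * ρ)) g ∧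
      g =ᶠ[𝓝 x] Q ∧ ∀ η : σ → ℂ, ‖η‖ ≤ ρ → ∃ Y : ℂ → Matrix ν ν ℂ, Hol (ball 0 17) Y ∧
        (∀ u ∈ ball (0 : ℂ) 17, ∀ i j, ‖Y u i j‖ ≤ S) ∧ Y 1 = g (x + η) ∧
        ∀ᶠ u in 𝓝 (0 : ℂ), Y u = P (φ u + u • η) := by
  obtain ⟨ε, ε0, hε⟩ := Metric.isOpen_iff.1 ho s hs
  obtain ⟨e, e0, e1, e2⟩ : ∃ e : ℝ, 0 < e ∧ e ≤ ε ∧ e ≤ 4 * ρ :=
    ⟨min ε (4 * ρ), by positivity, min_le_left _ _, min_le_right _ _⟩
  let O : Set ((σ → ℂ) × (σ → ℂ)) := ball 0 (2 * ρ) ×ˢ ball 0 e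
  let Φ : (σ → ℂ) × (σ → ℂ) → ℂ → σ → ℂ := fun θ u => φ u + u • θ.1 + θ.2
  have oO : IsOpen O := isOpen_ball.prod isOpen_ball
  have sub : ball (0 : ℂ) (35 / 2) ⊆ ball 0 18 := ball_subset_ball (by norm_num)
  have dΦ : ∀ θ, DifferentiableOn ℂ (Φ θ) (ball 0 18) := fun θ =>
    (hφ.add (differentiableOn_id.smul_const _)).add_const _
  have TΦ : ∀ θ ∈ O, ∀ u ∈ ball (0 : ℂ) 18, MvPolynomial.aeval (Φ θ u) T ≠ 0 := fun θ hθ u hu => by
    refine hT u hu _ ?_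
    have a1 := mem_ball_zero_iff.1 hθ.1
    have a2 := mem_ball_zero_iff.1 hθ.2
    have a3 := mem_ball_zero_iff.1 hu
    rw [show Φ θ u - φ u = u • θ.1 + θ.2 by simp only [Φ]; abel]
    refine (norm_add_le _ _).trans ?_
    rw [norm_smul]
    nlinarith [norm_nonneg u, norm_nonneg θ.1]
  choose! Y Y0 Y1 using fun θ (hθ : θ ∈ O) =>
    tube_sol (apb_hol (B := B) isOpen_ball (dΦ θ) (TΦ θ hθ)) (P (Φ θ 0))
  have cφ : ContinuousOn φ (ball 0 18) := hφ.continuousOn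
  have cΦ : ContinuousOn (fun p : ((σ → ℂ) × (σ → ℂ)) × ℂ => Φ p.1 p.2) (O ×ˢ ball 0 (35 / 2)) :=
    ((cφ.comp continuousOn_snd fun p hp => sub hp.2).add (by fun_prop)).add (by fun_prop)
  obtain ⟨c1, c2⟩ := cont loc ho hP oO (fun θ _ => (dΦ θ).mono sub) cΦ
    (fun θ hθ u hu => TΦ θ hθ u (sub hu)) (fun θ hθ => hε (by
      simp only [Φ, h0, zero_smul, add_zero, mem_ball, dist_self_add_left]
      exact (mem_ball_zero_iff.1 hθ.2).trans_le e1)) fun θ hθ => ⟨Y0 θ hθ, Y1 θ hθ⟩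
  have fund : ∀ (f : (σ → ℂ) → ((σ → ℂ) × (σ → ℂ)) × ℂ) (z : σ → ℂ), ContinuousAt f z →
      (∀ y, Φ (f y).1 (f y).2 = y) → (f z).1 ∈ O → (f z).2 ∈ ball (0 : ℂ) (35 / 2) →
      FundM T B {z} fun y => Y (f y).1 (f y).2 := fun f z hf h1 h2 h3 => by
    obtain ⟨V', G, -, g2, g3, g4⟩ := c1 _ h2 _ h3
    refine fund_congr g2 (h1 z ▸ g3) ?_
    filter_upwards [hf.tendsto.eventually g4] with y hy
    rw [hy, h1]
  let a : (σ → ℂ) → ℂ := fun z => (z l - s l) / (x l - s l)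
  have ca : Continuous a := by fun_prop
  have aφ : ∀ u, a (φ u) = u := fun u => by
    simp only [a, lin, add_sub_cancel_left]
    exact mul_div_cancel_right₀ _ (sub_ne_zero.2 hl)
  let f : (σ → ℂ) → ((σ → ℂ) × (σ → ℂ)) × ℂ := fun z => ((0, z - φ (a z)), a z)
  let f' : (σ → ℂ) → ((σ → ℂ) × (σ → ℂ)) × ℂ := fun z => ((z - x, 0), 1)
  have hf : ∀ y, Φ (f y).1 (f y).2 = y := fun y => by simp [Φ, f]
  have hf' : ∀ y, Φ (f' y).1 (f' y).2 = y := fun y => by simp [Φ, f', h1]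
  have cf : ∀ z, a z ∈ ball (0 : ℂ) (35 / 2) → ContinuousAt f z := fun z hz =>
    (continuousAt_const.prodMk (continuousAt_id.sub
      ((cφ.continuousAt (isOpen_ball.mem_nhds (sub hz))).comp ca.continuousAt))).prodMk
      ca.continuousAt
  have cf' : Continuous f' := by fun_prop
  let N : Set (σ → ℂ) := {z | f z ∈ O ×ˢ ball (0 : ℂ) (35 / 2)}
  have oN : IsOpen N := isOpen_iff_mem_nhds.2 fun z hz =>
    (cf z hz.2).preimage_mem_nhds ((oO.prod isOpen_ball).mem_nhds hz)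
  have O0 : ((0, 0) : (σ → ℂ) × (σ → ℂ)) ∈ O :=
    ⟨mem_ball_self (by positivity), mem_ball_self e0⟩
  have fφ : ∀ u, f (φ u) = ((0, 0), u) := fun u => by simp [f, aφ]
  have b0 : (0 : ℂ) ∈ ball (0 : ℂ) (35 / 2) := mem_ball_self (by norm_num)
  have b1 : (1 : ℂ) ∈ ball (0 : ℂ) (35 / 2) := by norm_num
  have im : φ '' ball 0 (35 / 2) ⊆ connectedComponentIn N s :=
    ((convex_ball (0 : ℂ) (35 / 2)).isPreconnected.image φ (cφ.mono sub)).subset_connectedComponentIn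
      ⟨0, b0, h0⟩ (by
        rintro _ ⟨u, hu, rfl⟩
        change f (φ u) ∈ O ×ˢ ball (0 : ℂ) (35 / 2)
        rw [fφ]
        exact Set.mk_mem_prod O0 hu)
  have sub' : closedBall (0 : ℂ) 17 ⊆ ball 0 (35 / 2) := closedBall_subset_ball (by norm_num)
  have Oη : ∀ η : σ → ℂ, ‖η‖ ≤ ρ → ((η, 0) : (σ → ℂ) × (σ → ℂ)) ∈ O := fun η hη =>
    ⟨mem_ball_zero_iff.2 (by linarith), mem_ball_self e0⟩
  obtain ⟨S, hS⟩ := ((isCompact_closedBall (0 : σ → ℂ) ρ).prod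
    (isCompact_closedBall (0 : ℂ) 17)).exists_bound_of_continuousOn
    (f := fun p (b : ν × ν) => Y (p.1, 0) p.2 b.1 b.2) (fun p hp => by
      have m1 := Oη _ (mem_closedBall_zero_iff.1 hp.1)
      obtain ⟨V', G, -, g2, g3, g4⟩ := c1 _ m1 _ (sub' hp.2)
      have k1 : ContinuousAt (fun q : (σ → ℂ) × ℂ => (((q.1, 0), q.2) :
        ((σ → ℂ) × (σ → ℂ)) × ℂ)) p := by fun_prop
      have k2 := ContinuousAt.comp (f := fun q : (σ → ℂ) × ℂ => (((q.1, 0), q.2) :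
        ((σ → ℂ) × (σ → ℂ)) × ℂ)) (cΦ.continuousAt ((oO.prod isOpen_ball).mem_nhds
          (Set.mk_mem_prod m1 (sub' hp.2)))) k1
      refine (continuousAt_pi.2 fun b => ?_).continuousWithinAt
      refine ContinuousAt.congr (ContinuousAt.comp ((g2 _ g3).2 b.1 b.2).1.continuousAt k2) ?_
      filter_upwards [k1.tendsto.eventually g4] with q hq
      exact (congrFun₂ hq b.1 b.2).symm)
  refine ⟨connectedComponentIn N s, fun y => Y (f y).1 (f y).2, fun y => Y (f' y).1 (f' y).2, S,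
    oN.connectedComponentIn, isPreconnected_connectedComponentIn, im ⟨0, b0, h0⟩, im ⟨1, b1, h1⟩,
    fun z hz => ?_, ?_, fun z hz => ?_, ?_, fun η hη => ⟨Y (η, 0), fun i j u hu => ?_,
      fun u hu i j => ?_, by simp [f'], ?_⟩⟩
  · have := connectedComponentIn_subset _ _ hz
    exact fund f z (cf z this.2) hf this.1 this.2 z rfl
  · have k := (cf s (by rw [← h0, aφ]; exact b0)).tendsto
    rw [show f s = ((0, 0), 0) from h0 ▸ fφ 0] at k
    filter_upwards [k.eventually (c2 (by norm_num) _ O0)] with y hy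
    rw [hy, hf]
  · exact fund f' z cf'.continuousAt hf'
      ⟨mem_ball_zero_iff.2 (mem_ball_iff_norm.1 hz), mem_ball_self e0⟩ b1 z rfl
  · obtain ⟨V', G, -, -, -, g4⟩ := c1 _ O0 _ b1
    have k := (cf x (by rw [← h1, aφ]; exact b1)).tendsto
    rw [show f x = ((0, 0), 1) from h1 ▸ fφ 1] at k
    have k' := (cf'.continuousAt (x := x)).tendsto
    rw [show f' x = ((0, 0), 1) by simp [f']] at k'
    filter_upwards [k.eventually g4, k'.eventually g4] with y hy hy'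
    rw [hy, hy', hf, hf']
  · exact (Y1 _ (Oη η hη) u (sub' (ball_subset_closedBall hu)) i
      j).differentiableAt.differentiableWithinAt
  · exact (norm_le_pi_norm (fun b : ν × ν => Y (η, 0) u b.1 b.2) (i, j)).trans
      (hS (η, u) ⟨mem_closedBall_zero_iff.2 hη, ball_subset_closedBall hu⟩)
  · have k : ContinuousAt (fun u : ℂ => (((η, 0), u) : ((σ → ℂ) × (σ → ℂ)) × ℂ)) 0 := by fun_prop
    filter_upwards [k.tendsto.eventually (c2 (by norm_num) _ (Oη η hη))] with u hu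
    simpa [Φ] using hu

end

end Pool.Agent.Lib.MP_5591bc_ag.E
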