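import Pool.Agent.Lib.MP_5591bc_ag.E.Gap
import Pool.Agent.Lib.MP_5591bc_ag.E.Cell
import Pool.Agent.Lib.MP_5591bc_ag.E.Tube
import Pool.Agent.Lib.MP_5591bc_ag.E.Loc
import Pool.Agent.Lib.MP_5591bc_ag.E.Branch
import Pool.Agent.Lib.MP_5591bc_ag.M.Main

/-! All exceptional points lie on a hypersurface of small degree. -/

namespace Pool.Agent.Lib.MP_5591bc_ag.E

open Matrix Filter Topology G R W M Metric MvPolynomial

noncomputable section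

variable {σ K : Type} [Fintype σ] [DecidableEq σ] [Field K] [NumberField K]
  [Algebra K ℂ] {n : ℕ} {T : MvPolynomial σ K}
  {B : σ → Matrix (Fin n) (Fin n) (MvPolynomial σ K)}

omit [DecidableEq σ] [NumberField K] in
theorem main_room (T : MvPolynomial σ K) : ∃ c : ℕ, ∀ Λ₀ Λ : ℕ, 0 < Λ₀ → c * Λ₀ ≤ Λ →
    ∀ y : σ → ℂ, ‖y‖ ≤ 2 ^ Λ₀ → (2 ^ Λ₀)⁻¹ ≤ ‖aeval y T‖ → ∀ z, ‖z - y‖ ≤ 40 * (2 ^ Λ)⁻¹ →
      aeval z T ≠ 0 := by
  obtain ⟨A, A1, hA⟩ := cva_poly (map (algebraMap K ℂ) T)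
  simp only [eval_map, ← aeval_def] at hA
  generalize (map (algebraMap K ℂ) T).totalDegree = g at hA
  obtain ⟨u, hu⟩ := pow_unbounded_of_one_lt A (one_lt_two (α := ℝ))
  refine ⟨u + 2 * g + 7, fun Λ₀ Λ h0 h1 y y1 y2 z hz e => ?_⟩
  have a1 : (1 : ℝ) ≤ 2 ^ Λ₀ := one_le_pow₀ one_le_two
  have a2 : (2 : ℝ) ^ (u + (Λ₀ + 1) * g + Λ₀ + 6) ≤ 2 ^ Λ :=
    pow_le_pow_right₀ one_le_two (by nlinarith)
  have a3 : (2 : ℝ) ^ 6 ≤ 2 ^ Λ := (pow_le_pow_right₀ one_le_two (by omega)).trans a2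
  rw [← div_eq_mul_inv, le_div_iff₀ (by positivity)] at hz
  have a4 : ‖z‖ ≤ 2 ^ (Λ₀ + 1) := by
    have := norm_le_norm_sub_add z y
    rw [pow_succ]
    nlinarith [norm_nonneg (z - y)]
  have a5 : (1 : ℝ) ≤ 2 ^ (Λ₀ + 1) := one_le_pow₀ one_le_two
  have a6 := (hA _ a5 z y a4 (y1.trans (pow_le_pow_right₀ one_le_two Λ₀.le_succ))).2
  rw [e, zero_sub, norm_neg, ← pow_mul] at a6
  rw [inv_le_iff_one_le_mul₀ (by positivity)] at y2
  have a7 := (le_mul_of_one_le_right (norm_nonneg _) a5).trans a6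
  have a8 : (1 : ℝ) * 2 ^ Λ ≤ A * 2 ^ ((Λ₀ + 1) * g) * 2 ^ Λ₀ * 40 :=
    calc _ ≤ A * 2 ^ ((Λ₀ + 1) * g) * ‖z - y‖ * 2 ^ Λ₀ * 2 ^ Λ := by
          gcongr
          exact y2.trans (by gcongr)
      _ = A * 2 ^ ((Λ₀ + 1) * g) * 2 ^ Λ₀ * (‖z - y‖ * 2 ^ Λ) := by ring
      _ ≤ _ := by gcongr
  rw [pow_add, pow_add, pow_add] at a2
  have : A * 2 ^ ((Λ₀ + 1) * g) * 2 ^ Λ₀ * 40 < 2 ^ u * 2 ^ ((Λ₀ + 1) * g) * 2 ^ Λ₀ * 2 ^ 6 := by
    gcongr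
    norm_num
  linarith

omit [NumberField K] in
theorem main_tb (loc : Loc T B) {V : Set (σ → ℂ)} {P : (σ → ℂ) → Matrix (Fin n) (Fin n) ℂ}
    (ho : IsOpen V) (hP : FundM T B V P) {s x : σ → ℂ} (hs : s ∈ V) (hn : s ≠ x) {a Λ : ℕ}
    {φ : ℂ → σ → ℂ} (k : Arc T (18 : ℕ) (2 ^ a) s x φ) (h : a + 6 ≤ Λ)
    (hT : ∀ u ∈ ball (0 : ℂ) 18, ∀ z, ‖z - φ u‖ ≤ 40 * (2 ^ Λ)⁻¹ → aeval z T ≠ 0) :
    ∃ U Q, Tb T B (2 ^ Λ) (2 ^ Λ)⁻¹ s x P U Q := by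
  obtain ⟨l, l1, l2⟩ := k.lin hn
  have hol : DifferentiableOn ℂ φ (ball 0 18) := by simpa using k.hol
  obtain ⟨U, Q, g, S, a1, a2, a3, a4, a5, a6, a7, a8, a9⟩ :=
    tube loc ho hP hs hol k.zero k.one l1 l2 (by positivity) hT
  refine ⟨U, Q, a1, a2, a3, a4, a5, a6, hT 1 (by simp) x (by simp [k.one]), g, S, a7, a8,
    fun y hy => ?_⟩
  obtain ⟨Y, b1, b2, b3, b4⟩ := a9 (y - x) hy
  refine ⟨fun u => φ u + u • (y - x), Y, (hol.mono (ball_subset_ball (by norm_num))).fun_add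
    (by fun_prop), by simp [k.zero], by simp [k.one], fun u hu => ?_, b1, b2, by simpa using b3, b4⟩
  have c0 := k.le 0 (by simp)
  have c1 := k.le u (ball_subset_ball (by norm_num) hu)
  have c2 : ‖u • (y - x)‖ ≤ 17 * 1 := (norm_smul_le _ _).trans (mul_le_mul
    (mem_ball_zero_iff.1 hu).le (hy.trans (inv_le_one_of_one_le₀ (one_le_pow₀ one_le_two)))
    (norm_nonneg _) (by norm_num))
  have c3 : (2 : ℝ) ^ (a + 6) ≤ 2 ^ Λ := pow_le_pow_right₀ one_le_two h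
  have c4 : (1 : ℝ) ≤ 2 ^ a := one_le_pow₀ one_le_two
  rw [k.zero] at c0
  rw [pow_add] at c3
  linarith [norm_sub_le (φ u + u • (y - x)) s, norm_add_le (φ u) (u • (y - x))]

theorem hyp_natE [Nonempty σ] (T0 : T ≠ 0) (h : GalM T B) : ∃ C : ℕ, 0 < C ∧
    ∀ (δ : ℕ) (U : Set (σ → ℂ)) (P : (σ → ℂ) → Matrix (Fin n) (Fin n) ℂ), IsOpen U →
      IsPreconnected U → FundM T B U P → ConnM U P → RatMon K U P → ∀ d L : ℕ, 0 < d → 0 < L →
      ∀ S : Finset (σ → ℂ), (∀ t ∈ S, (∀ j, ∃ q : Polynomial ℤ, q ≠ 0 ∧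
          (∀ i, |(q.coeff i : ℝ)| ≤ 2 ^ L) ∧ Polynomial.aeval (t j) q = 0) ∧
        ∃ U' P', ContM U P U' P' ∧ FundM T B U' P' ∧ t ∈ U' ∧
          ∃ (E : IntermediateField K ℂ) (x : σ → E), pc x = t ∧ FiniteDimensional ℚ E ∧
          Module.finrank ℚ E ≤ d ∧ ¬ GoodV U' P' δ x) →
        Hyp (S : Set (σ → ℂ)) ((C * (δ + 1) * (d * L)) ^ (C * (δ + 1) ^ n ^ 2)) := by
  classical
  obtain ⟨c₀, e, hg⟩ := gapE h
  obtain ⟨T', T1, c₂, hc⟩ := cells σ T0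
  obtain ⟨c₁, hL⟩ := liouM T'
  obtain ⟨c₃, hr⟩ := main_room T
  obtain ⟨k, hk⟩ : ∃ k, k = Fintype.card σ := ⟨_, rfl⟩
  obtain ⟨a, ha⟩ : ∃ a, a = (c₃ + 25) * ((c₂ + 1) * (c₁ + 1)) := ⟨_, rfl⟩
  obtain ⟨b, hb⟩ : ∃ b, b = a + 2 * (k + 1) := ⟨_, rfl⟩
  obtain ⟨C, C0, he⟩ := mu_num (T * T').totalDegree c₀ b (e + 1 + c₂) (n ^ 2)
  refine ⟨C, C0, fun δ U P ho hU hP hC hM d L d0 L0 S hS => ?_⟩
  refine Hyp.mono ?_ subset_rfl (he δ (d * L) (Nat.mul_pos d0 L0))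
  obtain ⟨N, hN⟩ : ∃ N, N = (δ + 1) ^ n ^ 2 := ⟨_, rfl⟩
  replace hg := hg δ N (by simp [hN, sq])
  rw [← hN]
  generalize c₀ * δ = c at hg ⊢
  obtain ⟨m, hm⟩ : ∃ m, m = (L + 1) * d := ⟨_, rfl⟩
  have m0 : 0 < m := hm ▸ by positivity
  have x0 : 0 < d * L := Nat.mul_pos d0 L0
  have x1 : d ≤ d * L := Nat.le_mul_of_pos_right _ L0
  have x3 : d * L ≤ (d * L) ^ 2 := Nat.le_self_pow two_ne_zero _
  have x4 : d * d ≤ (d * L) ^ 2 := by rw [sq]; exact Nat.mul_le_mul x1 x1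
  have x5 : m ≤ 2 * (d * L) := by rw [hm, add_mul, mul_comm L, one_mul]; omega
  have x6 := Nat.mul_le_mul_left c (x5.trans (Nat.mul_le_mul_left 2 x3))
  have x8 := Nat.mul_le_mul_left a (x5.trans (Nat.mul_le_mul_left 2 x3))
  have x9 := Nat.mul_le_mul_left (k + 1) (show 2 * m + 1 ≤ 6 * (d * L) ^ 2 by omega)
  obtain ⟨Λ, hΛ⟩ : ∃ Λ, Λ = (2 * c + 3 * b + 8) * (d * L) ^ 2 := ⟨_, rfl⟩
  have eΛ : Λ = c * (2 * (d * L) ^ 2) + a * (2 * (d * L) ^ 2) +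
      (k + 1) * (6 * (d * L) ^ 2) + (a + 8) * (d * L) ^ 2 := by rw [hΛ, hb]; ring
  obtain ⟨p, hp⟩ : ∃ p, p = (c₁ + 1) * m := ⟨_, rfl⟩
  have p0 : 0 < p := hp ▸ by positivity
  have y0 : a * m = c₃ * (c₂ * p + p) + 25 * (c₂ * p) + 25 * p := by rw [ha, hp]; ring
  have y2 : d * d ≤ Λ := by rw [add_mul _ 8] at eΛ; omega
  have an : ∀ {V Q}, FundM T B V Q → ∀ i j, AnalyticOnNhd ℂ (fun t => Q t i j) V :=
    fun h i j t ht => ((h t ht).2 i j).1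
  choose! hq V Q hV hQ mV hbad using hS
  have dom := fun t ht => cont_dom ho hU (an hP) (hV t ht)
  have bad : ∀ t ∈ S, ∀ U' (P' : _ → Matrix (Fin n) (Fin n) ℂ), IsOpen U' →
      (∃ (E : IntermediateField K ℂ) (x : σ → E), pc x = t ∧
      FiniteDimensional ℚ E ∧ Module.finrank ℚ E ≤ d ∧ ¬ GoodV U' P' δ x) →
      BadM K U' P' d δ (2 ^ m) t := by
    rintro t ht U' P' ho' ⟨E, x, rfl, hE, hd, hb⟩
    have : NumberField E := {}
    have := mt (goodV_of (δ := δ) (x := x) ho') hb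
    push Not at this
    obtain ⟨F, hF, hn⟩ := this
    refine ⟨E, inferInstance, x, F, rfl, hd, fun j => ?_, hF, hn⟩
    obtain ⟨q, q0, q1, q2⟩ := hq _ ht j
    have qy : Polynomial.aeval (x j) q = 0 := (algebraMap E ℂ).injective (by
      rw [map_zero, ← q2]
      exact (Polynomial.aeval_algHom_apply (algebraMap E ℂ).toIntAlgHom _ q).symm)
    refine ⟨2 * 2 ^ L, ?_, Ht_of_poly q0 q1 qy, ?_⟩
    · linarith [one_le_pow₀ (one_le_two (α := ℝ)) (n := L)]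
    · rw [← pow_succ', ← pow_mul, hm]
      exact pow_le_pow_right₀ one_le_two (Nat.mul_le_mul_left _ hd)
  obtain ⟨𝒞, t1, t2, t3⟩ := hc p 18 p0 (by norm_num)
  have h1 : Hyp {z : σ → ℂ | aeval z (T * T') = 0} (T * T').totalDegree :=
    ⟨TM ℂ (T * T'), (map_ne_zero_iff _ (map_injective _ (algebraMap K ℂ).injective)).2
      (mul_ne_zero T0 T1), Finset.sup_mono (support_map_subset _ _),
      fun z hz => by rwa [eval_map, ← aeval_def]⟩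
  have h2 := Hyp.cover (A := (S.filter fun z => aeval z (T * T') ≠ 0 : Finset (σ → ℂ)))
    (n := 1 + (Λ + N + 2) ^ (e * (N + 1)))
    (Cs := 𝒞.image fun D => (S.filter fun z => aeval z (T * T') ≠ 0).filter fun z => z ∈ D)
    (fun S' hS' => ?_) fun z hz => ?_
  · refine (h1.union h2).mono (fun z hz => ?_) (Nat.add_le_add_left ?_ _)
    · by_cases e : aeval z (T * T') = 0
      exacts [Or.inl e, Or.inr (Finset.mem_coe.2 (Finset.mem_filter.2 ⟨hz, e⟩))]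
    rw [← hΛ]
    refine le_trans ?_ ((Nat.le_mul_of_pos_right _ (by positivity)).trans
      (Nat.le_mul_of_pos_left _ (Nat.mul_pos (by omega) (by omega))))
    rw [add_mul _ c₂, pow_add, mul_comm]
    refine Nat.mul_le_mul ?_ (Finset.card_image_le.trans (t1.trans
      ((Nat.pow_le_pow_left (by omega) _).trans
        (Nat.pow_le_pow_right (by omega) (Nat.le_mul_of_pos_right _ N.succ_pos)))))
    rw [add_mul, pow_add, one_mul]
    have w1 : 0 < (Λ + N + 2) ^ (e * (N + 1)) := by positivity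
    have w2 : 2 ≤ (Λ + N + 2) ^ (N + 1) := le_trans (by omega) (Nat.le_self_pow N.succ_ne_zero _)
    exact le_trans (by omega) (Nat.mul_le_mul_left _ w2)
  · obtain ⟨D, hD, rfl⟩ := Finset.mem_image.1 hS'
    rcases Finset.eq_empty_or_nonempty
      ((S.filter fun z => aeval z (T * T') ≠ 0).filter fun z => z ∈ D) with e0 | ⟨s, hs⟩
    · rw [e0, Finset.coe_empty]
      exact hyp_empty.mono subset_rfl (Nat.zero_le _)
    obtain ⟨s1, s2⟩ := Finset.mem_filter.1 hs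
    obtain ⟨s3, s4⟩ := Finset.mem_filter.1 s1
    replace s4 := left_ne_zero_of_mul ((map_mul _ _ _).symm.trans_ne s4)
    obtain ⟨l⟩ := ‹Nonempty σ›
    have h3 : Hyp ({s} : Set (σ → ℂ)) 1 := ⟨X l - MvPolynomial.C (s l),
      fun e => by simpa using congrArg (eval fun i => s i + 1) e,
      (totalDegree_sub_C_le _ _).trans (totalDegree_X l).le, fun x hx => by simp [show x = s from hx]⟩
    refine (h3.union (hg m d Λ s (V s) (Q s) m0 (by omega) (by rw [← hk]; omega) y2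
      (hQ s s3 s (mV s s3)).1 s4 (irr_of_connM (dom s s3).1 (dom s s3).2.1 (hQ s s3)
        (conn_cont ho hU (an hP) (hV s s3) hC) (mV s s3) s4)
      (bad s s3 _ _ (dom s s3).1 (hbad s s3)) (Finset.erase _ s) fun x hx => ?_)).mono
      (fun z hz => (em (z = s)).imp id fun e => Finset.mem_coe.2 (Finset.mem_erase.2 ⟨e, hz⟩)) le_rfl
    obtain ⟨a0, hx⟩ := Finset.mem_erase.1 hx
    obtain ⟨a1, a2⟩ := Finset.mem_filter.1 hx
    have a3 := (Finset.mem_filter.1 a1).1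
    obtain ⟨φ, arc⟩ := t3 D hD s s2 x a2
    obtain ⟨U', Q', tb⟩ := main_tb (loc_fund (dom s s3).1 ⟨s, mV s s3⟩ (hQ s s3) T0) (dom s s3).1
      (hQ s s3) (mV s s3) a0.symm arc (Λ := Λ) (by omega) fun u hu =>
      hr (c₂ * p + p) Λ (by omega) (by omega) _ ((arc.le u (by simpa using hu)).trans
        (pow_le_pow_right₀ one_le_two (by omega)))
        ((cell_inv (by omega)).trans (arc.ge u (by simpa using hu)))
    have ct : ContM U P U' Q' := .step _ _ _ _ s (hV s s3) tb.op tb.co (an tb.fd) (mV s s3) tb.ms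
      tb.eq.symm
    obtain ⟨γ, hγ⟩ := hM _ _ _ _ ct (hV x a3) x ⟨tb.mx, mV x a3⟩
    obtain ⟨γ', hγ'⟩ := hM _ _ _ _ (hV x a3) ct x ⟨mV x a3, tb.mx⟩
    obtain ⟨E, y, rfl, f1, f2, f3⟩ := hbad x a3
    have mm : ∀ γ : Matrix (Fin n) (Fin n) K,
        (γ.map (algebraMap K E)).map (algebraMap E ℂ) = γ.map (algebraMap K ℂ) := fun _ => rfl
    exact ⟨U', Q', tb, bad _ a3 _ _ tb.op ⟨E, y, rfl, f1, f2, fun g => f3 (good_mul tb.op
      (dom _ a3).1 (dom _ a3).2.1 (dom _ a3).2.2 tb.mx (mV _ a3) (tb.fd _ tb.mx).1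
      (γ := γ.map (algebraMap K E)) (γ' := γ'.map (algebraMap K E)) hγ hγ' g)⟩⟩
  · obtain ⟨z1, z2⟩ := Finset.mem_filter.1 hz
    obtain ⟨E, _, x, -, rfl, hd, hx, -⟩ := bad z z1 _ _ (dom z z1).1 (hbad z z1)
    replace z2 := right_ne_zero_of_mul ((map_mul _ _ _).symm.trans_ne z2)
    rw [← aeval_TM (K := E), aeval_pc] at z2
    obtain ⟨D, hD, k⟩ := t2 (pc x) ((pi_norm_le_iff_of_nonneg (by positivity)).2 fun j =>
      ((hx j).ht.norm_le _).trans (pow_le_pow_right₀ one_le_two (by rw [hp, add_mul]; omega))) (by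
        rw [← aeval_TM (K := E), aeval_pc]
        exact (cell_inv (by rw [hp, add_mul]; omega)).trans
          (hL E m x m0 hx (fun e => z2 (by rw [e, map_zero])) _))
    exact ⟨_, Finset.mem_image_of_mem _ hD, Finset.mem_filter.2 ⟨hz, k⟩⟩

end

end Pool.Agent.Lib.MP_5591bc_ag.E
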