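import Pool.Agent.Lib.MP_5591bc_ag.M.Defs

/-! Monodromy defined over the base field. -/

namespace Pool.Agent.Lib.MP_5591bc_ag.E

open Filter Topology M

/-- Two analytic continuations of `P` differ, near a common point, by a constant right factor with
entries in `K`. -/
def RatMon (K : Type*) {σ ν : Type*} [Field K] [Algebra K ℂ] [Fintype σ] [Fintype ν]
    (U : Set (σ → ℂ)) (P : (σ → ℂ) → Matrix ν ν ℂ) : Prop :=
  ∀ U₁ P₁ U₂ P₂, ContM U P U₁ P₁ → ContM U P U₂ P₂ → ∀ t ∈ U₁ ∩ U₂,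
    ∃ γ : Matrix ν ν K, ∀ᶠ z in 𝓝 t, P₂ z = P₁ z * γ.map (algebraMap K ℂ)

end Pool.Agent.Lib.MP_5591bc_ag.E
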