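import Pool.Agent.Lib.MP_5591bc_ag.M.Set
import Pool.Agent.Lib.MP_5591bc_ag.E.Defs

/-! Holomorphic discs through two points. -/

namespace Pool.Agent.Lib.MP_5591bc_ag.E

open Matrix Filter Topology MvPowerSeries G R W M Metric

noncomputable section

variable {σ : Type*} [Fintype σ]

/-- a holomorphic disc of radius `R` through `s` and `x`, of size `M`, away from `T = 0` -/
structure Arc {K : Type*} [CommRing K] [Algebra K ℂ] (T : MvPolynomial σ K) (R M : ℝ)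
    (s x : σ → ℂ) (φ : ℂ → σ → ℂ) : Prop where
  hol : DifferentiableOn ℂ φ (ball 0 R)
  zero : φ 0 = s
  one : φ 1 = x
  le : ∀ u ∈ ball (0 : ℂ) R, ‖φ u‖ ≤ M
  ge : ∀ u ∈ ball (0 : ℂ) R, M⁻¹ ≤ ‖MvPolynomial.aeval (φ u) T‖
  lin : s ≠ x → ∃ l, x l ≠ s l ∧ ∀ u, φ u l = s l + u * (x l - s l)

/-- the germs `g0` at `s` continue to `g` along discs through `s` and the points near `x` -/
structure Cur {α : Type*} (h S ρ : ℝ) (s x : σ → ℂ) (g0 g : α → (σ → ℂ) → ℂ) : Prop where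
  an0 : ∀ a, AnalyticAt ℂ (g0 a) s
  an : ∀ a, AnalyticOnNhd ℂ (g a) (closedBall x ρ)
  arc : ∀ y, ‖y - x‖ ≤ ρ → ∃ (φ : ℂ → σ → ℂ) (Y : ℂ → α → ℂ), DifferentiableOn ℂ φ (ball 0 17) ∧
    φ 0 = s ∧ φ 1 = y ∧ (∀ u ∈ ball (0 : ℂ) 17, ‖φ u - s‖ ≤ h) ∧ ∀ a,
      DifferentiableOn ℂ (Y · a) (ball 0 17) ∧ (∀ u ∈ ball (0 : ℂ) 17, ‖Y u a‖ ≤ S) ∧
      Y 1 a = g a y ∧ ∀ᶠ u in 𝓝 (0 : ℂ), Y u a = g0 a (φ u)

/-- `DatM` with curved discs -/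
structure DatE {K L A : Type*} [Field K] [Field L] [CharZero L] [Algebra K L]
    [Fintype A] (ι : L →+* ℂ) (Λ : ℕ) (s : σ → K) (T : MvPolynomial σ L)
    (B : σ → Matrix A A (MvPolynomial σ L)) (W : A → A → MvPowerSeries σ K) (x : σ → L)
    (Φ : A → MvPowerSeries σ L) (μ : A → ℂ) : Prop where
  ne : MvPolynomial.eval x T ≠ 0
  ode : IsM (τm x) T B Φ
  fld : ∃ F : IntermediateField ℚ L, Module.finrank ℚ F ≤ Λ ∧ (∀ y : K, algebraMap K L y ∈ F) ∧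
    (∀ l, x l ∈ F) ∧ ∀ α κ, coeff κ (Φ α) ∈ F
  gk : GKm (2 ^ Λ) Φ
  den : ∃ d : ℕ, 0 < d ∧ d ≤ 2 ^ Λ ∧ ∀ l, IsIntegral ℤ ((d : L) * (x l - algebraMap K L (s l)))
  hou : ∀ l (φ : L →+* ℂ), ‖φ (x l - algebraMap K L (s l))‖ ≤ 2 ^ Λ
  ana : ∃ (g0 g : A → (σ → ℂ) → ℂ) (S : ℝ),
    Cur (2 ^ Λ) S (2 ^ Λ)⁻¹ (fun l => ι (algebraMap K L (s l))) (fun l => ι (x l)) g0 g ∧ ∀ α,
      tayM (g0 α) (fun l => ι (algebraMap K L (s l))) =
        ∑ β, C (μ β) * map (ι.comp (algebraMap K L)) (W β α) ∧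
      tayM (g α) (fun l => ι (x l)) = map ι (Φ α)

/-- every point off `T = 0` has a fundamental matrix -/
def Loc {K ν : Type*} [Field K] [Algebra K ℂ] [DecidableEq σ] [Fintype ν] [DecidableEq ν]
    (T : MvPolynomial σ K) (B : σ → Matrix ν ν (MvPolynomial σ K)) : Prop :=
  ∀ p : σ → ℂ, MvPolynomial.aeval p T ≠ 0 → ∃ V G, IsOpen V ∧ p ∈ V ∧ FundM T B V G

/-- the coefficient matrix of the system on the curve `φ` -/
def Apb {K ν : Type*} [Field K] [Algebra K ℂ] (T : MvPolynomial σ K)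
    (B : σ → Matrix ν ν (MvPolynomial σ K)) (φ : ℂ → σ → ℂ) (u : ℂ) : Matrix ν ν ℂ :=
  of fun i j => ∑ l, deriv (φ · l) u * MvPolynomial.aeval (φ u) (B l i j) /
    MvPolynomial.aeval (φ u) T

end

end Pool.Agent.Lib.MP_5591bc_ag.E
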