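import Pool.Agent.Lib.MP_5591bc_ag.E.Set
import Pool.Agent.Lib.MP_5591bc_ag.M.CovB

/-! Tools for the cell decomposition. -/

namespace Pool.Agent.Lib.MP_5591bc_ag.E

open Metric Finset MvPolynomial

noncomputable section

variable {K : Type} [Field K] [Algebra K ℂ]

/-- few cells, any two points of a cell lie on a disc -/
def CellP (K : Type) [Field K] [Algebra K ℂ] (σ : Type) [Fintype σ] : Prop :=
  ∀ T : MvPolynomial σ K, T ≠ 0 → ∃ T' : MvPolynomial σ K, T' ≠ 0 ∧ ∃ c : ℕ, 0 < c ∧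
    ∀ Λ R : ℕ, 0 < Λ → 2 ≤ R → ∃ 𝒞 : Finset (Set (σ → ℂ)), #𝒞 ≤ (c * Λ * R) ^ c ∧
      (∀ x, ‖x‖ ≤ 2 ^ Λ → (2 ^ Λ)⁻¹ ≤ ‖aeval x T'‖ → ∃ C ∈ 𝒞, x ∈ C) ∧
      ∀ C ∈ 𝒞, ∀ s ∈ C, ∀ x ∈ C, ∃ φ, Arc T R (2 ^ (c * Λ)) s x φ

theorem cell_pow {σ : Type*} [Fintype σ] (p : MvPolynomial σ K) : ∃ c : ℕ, ∀ Λ : ℕ, 0 < Λ →
    ∀ x : σ → ℂ, ‖x‖ ≤ 2 ^ Λ → ‖aeval x p‖ ≤ 2 ^ (c * Λ) := by
  obtain ⟨c, hc⟩ := M.cvb_pow (map (algebraMap K ℂ) p)
  exact ⟨c, fun Λ h x hx => by simpa only [eval_map, aeval_def] using (hc Λ h x hx).le⟩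

theorem cell_ev {α : Type*} (G : MvPolynomial (Option α) K) (x : Option α → ℂ) :
    aeval x G = Polynomial.eval (x none) ((optionEquivLeft K α G).map
      (aeval fun l => x (some l) : _ →ₐ[K] ℂ).toRingHom) := by
  induction G using MvPolynomial.induction_on with
  | C a => simp [optionEquivLeft_C]
  | add p q hp hq => simp only [map_add, Polynomial.map_add, Polynomial.eval_add, hp, hq]
  | mul_X p o hp =>
    simp only [map_mul, Polynomial.map_mul, Polynomial.eval_mul, hp]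
    cases o <;> simp

theorem cell_low {u v : ℂ} {p q r : ℕ} (h : (2 ^ p)⁻¹ ≤ ‖u * v‖) (hv : ‖v‖ ≤ 2 ^ q)
    (hr : p + q ≤ r) : (2 ^ r)⁻¹ ≤ ‖u‖ := by
  refine (inv_anti₀ (by positivity) (pow_le_pow_right₀ one_le_two hr)).trans ?_
  rw [pow_add, mul_inv, ← div_eq_mul_inv, div_le_iff₀ (by positivity)]
  exact h.trans ((norm_mul_le _ _).trans (by gcongr))

theorem cell_inv {p q : ℕ} (h : p ≤ q) : ((2 : ℝ) ^ q)⁻¹ ≤ (2 ^ p)⁻¹ :=
  inv_anti₀ (by positivity) (pow_le_pow_right₀ one_le_two h)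

theorem cell_diff {σ : Type*} [Fintype σ] (p : MvPolynomial σ K) {φ : ℂ → σ → ℂ} {D : Set ℂ}
    (h : DifferentiableOn ℂ φ D) : DifferentiableOn ℂ (fun u => aeval (φ u) p) D := by
  induction p using MvPolynomial.induction_on with
  | C a => simp
  | add p q hp hq => simpa using hp.fun_add hq
  | mul_X p o hp => simpa using hp.fun_mul (differentiableOn_pi.1 h o)

theorem cell_perm {m : ℕ} {a b : Fin m → ℂ} (ha : Function.Injective a) {c : ℂ} (hc : c ≠ 0)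
    (h : Polynomial.C c * ∏ j, (Polynomial.X - Polynomial.C (a j)) =
      Polynomial.C c * ∏ j, (Polynomial.X - Polynomial.C (b j))) :
    ∃ π : Equiv.Perm (Fin m), ∀ j, a j = b (π j) := by
  have k : ∀ j, ∃ i, a j = b i := fun j => by
    have := congrArg (Polynomial.eval (a j)) (mul_left_cancel₀ (Polynomial.C_ne_zero.2 hc) h)
    rw [Polynomial.eval_prod, Polynomial.eval_prod, prod_eq_zero (mem_univ j) (by simp), eq_comm,
      prod_eq_zero_iff] at this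
    obtain ⟨i, -, hi⟩ := this
    exact ⟨i, by simpa [sub_eq_zero] using hi⟩
  choose π hπ using k
  have inj : Function.Injective π := fun i j e => ha (by rw [hπ, hπ, e])
  exact ⟨Equiv.ofBijective π inj.bijective_of_finite, hπ⟩

theorem cell_cnt {A A' a e c z : ℕ} (h1 : A ≤ c) (h2 : A' ≤ c) (h3 : 2 * a + 3 * e ≤ c)
    (z0 : 0 < z) (c0 : 0 < c) : (A * z ^ 2) ^ a * (A' * z ^ 3) ^ e ≤ (c * z) ^ c := by
  have e1 : A * z ^ 2 ≤ (c * z) ^ 2 := by
    rw [mul_pow]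
    exact Nat.mul_le_mul_right _ (h1.trans (Nat.le_self_pow two_ne_zero _))
  have e2 : A' * z ^ 3 ≤ (c * z) ^ 3 := by
    rw [mul_pow]
    exact Nat.mul_le_mul_right _ (h2.trans (Nat.le_self_pow three_ne_zero _))
  refine (Nat.mul_le_mul (Nat.pow_le_pow_left e1 _) (Nat.pow_le_pow_left e2 _)).trans ?_
  rw [← pow_mul, ← pow_mul, ← pow_add]
  exact Nat.pow_le_pow_right (by positivity) h3

theorem cell_empty : CellP K PEmpty := by
  intro T T0
  rw [eq_C_of_isEmpty T] at T0 ⊢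
  have t0 : 0 < ‖algebraMap K ℂ (coeff 0 T)‖ :=
    norm_pos_iff.2 ((map_ne_zero _).2 fun e => T0 (by rw [e, C_0]))
  obtain ⟨c, hc⟩ := pow_unbounded_of_one_lt ‖algebraMap K ℂ (coeff 0 T)‖⁻¹ (one_lt_two (α := ℝ))
  refine ⟨1, one_ne_zero, c + 1, c.succ_pos, fun Λ R Λ0 R2 => ⟨{Set.univ}, ?_,
    fun x _ _ => ⟨_, mem_singleton_self _, trivial⟩, fun C _ s _ x _ => ⟨fun _ => s,
      differentiableOn_const _, rfl, Subsingleton.elim _ _, fun u _ => ?_, fun u _ => ?_,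
      fun h => absurd (Subsingleton.elim _ _) h⟩⟩⟩
  · exact Nat.one_le_pow _ _ (by positivity)
  · rw [Subsingleton.elim s 0, norm_zero]
    positivity
  · rw [aeval_C]
    refine (cell_inv (p := c) (by nlinarith)).trans ?_
    rw [inv_le_comm₀ (by positivity) t0]
    exact hc.le

theorem cell_equiv {α β : Type} [Fintype α] [Fintype β] (e : α ≃ β) (h : CellP K α) :
    CellP K β := by
  classical
  intro T T0
  obtain ⟨T', T1, c, c0, hc⟩ := h (rename e.symm T)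
    ((map_ne_zero_iff _ (rename_injective _ e.symm.injective)).2 T0)
  refine ⟨rename e T', (map_ne_zero_iff _ (rename_injective _ e.injective)).2 T1, c, c0,
    fun Λ R Λ0 R2 => ?_⟩
  obtain ⟨𝒞, h1, h2, h3⟩ := hc Λ R Λ0 R2
  refine ⟨𝒞.image fun C => (· ∘ e) ⁻¹' C, card_image_le.trans h1, fun x hx hT => ?_,
    fun C hC s hs x hx => ?_⟩
  · obtain ⟨C, hC, k⟩ := h2 (x ∘ e) ((pi_norm_le_iff_of_nonneg (by positivity)).2 fun i =>
      (norm_le_pi_norm x (e i)).trans hx) (by rwa [aeval_rename] at hT)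
    exact ⟨_, mem_image_of_mem _ hC, k⟩
  obtain ⟨C, hC', rfl⟩ := mem_image.1 hC
  obtain ⟨φ, k⟩ := h3 C hC' _ hs _ hx
  refine ⟨fun u => φ u ∘ e.symm, differentiableOn_pi.2 fun l => differentiableOn_pi.1 k.hol _,
    ?_, ?_, fun u hu => (pi_norm_le_iff_of_nonneg (by positivity)).2 fun i =>
      (norm_le_pi_norm (φ u) _).trans (k.le u hu), fun u hu => ?_, fun hn => ?_⟩
  · funext l; simp [k.zero]
  · funext l; simp [k.one]
  · simpa only [aeval_rename] using k.ge u hu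
  · obtain ⟨l, l1, l2⟩ := k.lin fun q => hn (funext fun i => by simpa using congrFun q (e.symm i))
    exact ⟨e l, l1, fun u => by simpa using l2 u⟩

end

end Pool.Agent.Lib.MP_5591bc_ag.E
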