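import Pool.Agent.Lib.MP_5591bc_ag.E.Set
import Pool.Agent.Lib.MP_5591bc_ag.M.UpB

/-! The analytic estimate along curved discs. -/

namespace Pool.Agent.Lib.MP_5591bc_ag.E

open Filter Topology MvPowerSeries G W M Metric Finset

noncomputable section

/-- replacing the factors one at a time -/
theorem up_ind {ι α β : Type*} [Fintype ι] [DecidableEq ι] [Fintype α] (c : (ι → α) → ℂ)
    (p : ι → α → β → ℂ) (q : ι → α → ℂ) (P : ι → β → Prop) (R : Finset ι → ℂ → Prop)
    (h : ∀ I i, i ∉ I → ∀ b : (ι → α) → ℂ, (∀ y, P i y → R I (∑ a, b a * p i (a i) y)) →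
      R (insert i I) (∑ a, b a * q i (a i)))
    (h0 : ∀ y : ι → β, (∀ i, P i (y i)) → R ∅ (∑ a, c a * ∏ i, p i (a i) (y i)))
    (x : ι → β) (hx : ∀ i, P i (x i)) : R univ (∑ a, c a * ∏ i, q i (a i)) := by
  have key : ∀ I : Finset ι, ∀ y : ι → β, (∀ i, P i (y i)) →
      R I (∑ a, c a * ∏ i, if i ∈ I then q i (a i) else p i (a i) (y i)) := by
    intro I
    induction I using Finset.induction_on with
    | empty => simpa using h0
    | insert i0 I hi ih =>
      intro y hy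
      have := h I i0 hi (fun a => c a * ∏ i ∈ univ.erase i0,
          if i ∈ I then q i (a i) else p i (a i) (y i)) fun z hz => by
        have := ih (Function.update y i0 z) fun i => by
          by_cases e : i = i0
          · subst e; rwa [Function.update_self]
          · rw [Function.update_of_ne e]; exact hy i
        convert this using 2 with a
        rw [← prod_erase_mul _ _ (mem_univ i0), if_neg hi, Function.update_self, mul_assoc]
        refine congrArg (c a * ·) (congrArg (· * _) (prod_congr rfl fun i h => ?_))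
        rw [Function.update_of_ne (ne_of_mem_erase h)]
      convert this using 2 with a
      rw [← prod_erase_mul _ _ (mem_univ i0), if_pos (mem_insert_self _ _), mul_assoc]
      refine congrArg (c a * ·) (congrArg (· * _) (prod_congr rfl fun i h => ?_))
      simp only [mem_insert, ne_of_mem_erase h, false_or]
  simpa using key univ x hx

section
variable {σ : Type*} [Fintype σ] [DecidableEq σ]

/-- vanishing to order `n` passes to curves -/
theorem up_curve {φ : ℂ → σ → ℂ} (hφ : AnalyticAt ℂ φ 0) (n : ℕ) : ∀ {g : (σ → ℂ) → ℂ},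
    AnalyticAt ℂ g (φ 0) → (∀ κ : σ →₀ ℕ, κ.degree ≤ n → coeff κ (tayM g (φ 0)) = 0) →
    ∀ j ≤ n, PowerSeries.coeff j (tay (fun u => g (φ u)) 0) = 0 := by
  have z : ∀ {g : (σ → ℂ) → ℂ} {n : ℕ}, AnalyticAt ℂ g (φ 0) →
      (∀ κ : σ →₀ ℕ, κ.degree ≤ n → coeff κ (tayM g (φ 0)) = 0) →
      PowerSeries.coeff 0 (tay (fun u => g (φ u)) 0) = 0 := fun hg h => by
    rw [coeff_zero_tay, ← coeff_zero_tayM hg]
    exact h 0 (by simp)
  induction n with
  | zero => intro g hg h j hj; rw [Nat.le_zero.1 hj]; exact z hg h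
  | succ n ih =>
    intro g hg h j hj
    rcases j with _ | j
    · exact z hg h
    have a1 : ∀ l, AnalyticAt ℂ (fun u => deriv φ u l) 0 := fun l =>
      (coord_ana l).fun_comp hφ.deriv
    have a2 : ∀ l, AnalyticAt ℂ (fun u => pd l g (φ u)) 0 := fun l => (pd_ana hg l).fun_comp hφ
    have e : deriv (fun u => g (φ u)) =ᶠ[𝓝 0] fun u => ∑ l, deriv φ u l * pd l g (φ u) := by
      filter_upwards [hφ.continuousAt.eventually hg.eventually_analyticAt,
        hφ.eventually_analyticAt] with u hu h1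
      have h2 := (hu.differentiableAt.hasFDerivAt.comp_hasDerivAt u
        h1.differentiableAt.hasDerivAt).deriv
      rw [show (fun u => g (φ u)) = g ∘ φ from rfl, h2]
      generalize deriv φ u = v
      conv_lhs => rw [← Finset.univ_sum_single v]
      rw [map_sum]
      refine sum_congr rfl fun l _ => ?_
      rw [pd, ← smul_eq_mul, ← map_smul, ← Pi.single_smul, smul_eq_mul, mul_one]
    refine mul_right_cancel₀ (b := (j : ℂ) + 1) (by exact_mod_cast j.succ_ne_zero) ?_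
    rw [← PowerSeries.coeff_derivative, ← tay_deriv, tay_congr e, zero_mul,
      tay_sum _ fun l _ => (a1 l).fun_mul (a2 l), map_sum]
    refine sum_eq_zero fun l _ => ?_
    rw [tay_mul (a1 l) (a2 l), PowerSeries.coeff_mul]
    refine sum_eq_zero fun m hm => ?_
    rw [ih (pd_ana hg l) (fun κ hκ => ?_) m.2 (by have := mem_antidiagonal.1 hm; omega), mul_zero]
    rw [show tayM (pd l g) (φ 0) = _ from tayM_pd hg l, coeff_pderiv, h, zero_mul]
    simpa using hκ

/-- Cauchy estimate in several variables -/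
theorem up_one {ρ E : ℝ} (ρ0 : 0 < ρ) {x : σ → ℂ} {g : (σ → ℂ) → ℂ}
    (hg : AnalyticOnNhd ℂ g (closedBall x ρ)) (hE : ∀ y, ‖y - x‖ ≤ ρ → ‖g y‖ ≤ E) (j : σ →₀ ℕ) :
    ‖coeff j (tayM g x)‖ ≤ E * (2 / ρ) ^ j.degree := by
  have key := tor (homP j.degree (tayM g x)) (E * (2 / ρ) ^ j.degree) (fun η hη => by
    rw [← coeff_dir, dir_tayM (hg x (mem_closedBall_self ρ0.le))]
    refine (cauchy (R := ρ) (S := E) (fun u hu => ?_) (half_pos ρ0) (half_lt_self ρ0)
      (fun u hu => hE _ (upm_ball hη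
        ((mem_sphere_zero_iff_norm.1 hu).le.trans (half_le_self ρ0.le)))) j.degree).trans_eq ?_
    · exact ((hg _ (mem_closedBall_iff_norm.2 (upm_ball hη (mem_ball_zero_iff.1 hu).le))
        ).differentiableAt.comp u (by fun_prop)).differentiableWithinAt
    · rw [div_eq_mul_inv, ← inv_pow, inv_div]) j
  rwa [coeff_homP, if_pos (Finsupp.degree_eq_sum j).symm] at key

variable {ι α : Type*} [Fintype ι] [DecidableEq ι] [Fintype α]

/-- the values are small -/
theorem up_val (c : (ι → α) → ℂ) {S : ℝ} (S0 : 0 ≤ S) {s : σ → ℂ}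
    {g0 : ι → α → (σ → ℂ) → ℂ} (h0 : ∀ i a, AnalyticAt ℂ (g0 i a) s) {φ : ι → ℂ → σ → ℂ}
    (hφ : ∀ i, AnalyticAt ℂ (φ i) 0) (φ0 : ∀ i, φ i 0 = s) {f : ι → α → ℂ → ℂ}
    (hf : ∀ i a, DifferentiableOn ℂ (f i a) (ball 0 17))
    (hS : ∀ i a, ∀ u ∈ ball (0 : ℂ) 17, ‖f i a u‖ ≤ S)
    (he : ∀ i a, ∀ᶠ u in 𝓝 (0 : ℂ), f i a u = g0 i a (φ i u)) {Y : ℕ}
    (hz : ∀ κ : ι → σ →₀ ℕ, ∑ i, (κ i).degree < Y →
      ∑ a, c a * ∏ i, coeff (κ i) (tayM (g0 i (a i)) s) = 0) :
    ‖∑ a, c a * ∏ i, f i (a i) 1‖ ≤ (∑ a, ‖c a‖) * (∏ _i : ι, 2 * S) * (1 / 4) ^ Y := by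
  refine up_core c (fun i a n => PowerSeries.coeff n (tay (f i a) 0)) (fun _ _ => 1)
    (fun i a => f i a 1) (fun i a => ?_) (fun _ => S0) (by norm_num) (by norm_num)
    (fun i a n => ?_) fun n hn => ?_
  · simpa using up_sum (hf i a) (x := 1) (by simp) 0
  · rw [mul_one]
    refine (cauchy (hf i a) (r := 8) (by norm_num) (by norm_num) (fun u hu => hS i a u
      (sphere_subset_ball (by norm_num) hu)) n).trans_eq ?_
    rw [div_eq_mul_inv, ← inv_pow]
    norm_num
  refine up_ind c (fun i a κ => coeff κ (tayM (g0 i a) s))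
    (fun i a => PowerSeries.coeff (n i) (tay (f i a) 0)) (fun i κ => κ.degree ≤ n i)
    (fun _ z => z = 0) (fun I i _ b hb => ?_)
    (fun κ hκ => hz κ ((sum_le_sum fun i _ => hκ i).trans_lt hn)) 0 fun i => by simp
  have a1 : ∀ a : ι → α, AnalyticAt ℂ (fun y => b a * g0 i (a i) y) s := fun a =>
    analyticAt_const.fun_mul (h0 i _)
  have a2 : ∀ a, AnalyticAt ℂ (f i a) 0 := fun a =>
    (hf i a).analyticAt (ball_mem_nhds _ (by norm_num))
  have := up_curve (hφ i) (n i) (g := fun y => ∑ a : ι → α, b a * g0 i (a i) y)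
    (by rw [φ0]; exact Finset.analyticAt_fun_sum _ fun a _ => a1 a) (fun κ hκ => by
      rw [φ0, tayM_sum _ fun a _ => a1 a, map_sum, ← hb κ hκ]
      exact sum_congr rfl fun a _ => by rw [tayM_cmul (h0 i _), coeff_C_mul]) _ le_rfl
  rw [tay_congr (h := fun u => ∑ a : ι → α, b a * f i (a i) u)
    ((eventually_all.2 (he i)).mono fun u hu => by simp only [hu]),
    tay_sum _ fun a _ => analyticAt_const.fun_mul (a2 _), map_sum] at this
  exact Eq.trans (sum_congr rfl fun a _ => by rw [tay_cmul (a2 _), PowerSeries.coeff_C_mul]) this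

/-- the estimate -/
theorem up_abs (c : (ι → α) → ℂ) {h S ρ : ℝ} (ρ0 : 0 < ρ) (S0 : 0 ≤ S) {s : σ → ℂ}
    {x : ι → σ → ℂ} {g0 g : ι → α → (σ → ℂ) → ℂ} (hx : ∀ i, Cur h S ρ s (x i) (g0 i) (g i)) {Y : ℕ}
    (hz : ∀ κ : ι → σ →₀ ℕ, ∑ i, (κ i).degree < Y →
      ∑ a, c a * ∏ i, coeff (κ i) (tayM (g0 i (a i)) s) = 0) (j : ι → σ →₀ ℕ) :
    ‖∑ a, c a * ∏ i, coeff (j i) (tayM (g i (a i)) (x i))‖ ≤
      (∑ a, ‖c a‖) * (∏ _i : ι, 2 * S) * (1 / 4) ^ Y * (2 / ρ) ^ ∑ i, (j i).degree := by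
  refine up_ind c g (fun i a => coeff (j i) (tayM (g i a) (x i))) (fun i y => ‖y - x i‖ ≤ ρ) (fun I z => ‖z‖ ≤
    (∑ a, ‖c a‖) * (∏ _i : ι, 2 * S) * (1 / 4) ^ Y * (2 / ρ) ^ ∑ i ∈ I, (j i).degree)
    (fun I i hi b hb => ?_) (fun y hy => ?_) x fun i => by simpa using ρ0.le
  · have a1 : ∀ (a : ι → α), ∀ y ∈ closedBall (x i) ρ,
        AnalyticAt ℂ (fun y => b a * g i (a i) y) y := fun a y hy =>
      analyticAt_const.fun_mul ((hx i).an _ y hy)
    have := up_one ρ0 (fun y hy => Finset.analyticAt_fun_sum _ fun a _ => a1 a y hy) hb (j i)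
    rw [tayM_sum _ fun a _ => a1 a _ (mem_closedBall_self ρ0.le), map_sum] at this
    rw [sum_insert hi, add_comm, pow_add, ← mul_assoc]
    refine le_trans (le_of_eq (congrArg _ (sum_congr rfl fun a _ => ?_))) this
    rw [tayM_cmul ((hx i).an _ _ (mem_closedBall_self ρ0.le)), coeff_C_mul]
  · choose φ f h1 h2 h3 h4 h5 using fun i => (hx i).arc (y i) (hy i)
    have := up_val c S0 (fun i => (hx i).an0)
      (fun i => (h1 i).analyticAt (ball_mem_nhds _ (by norm_num))) h2 (f := fun i a u => f i u a)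
      (fun i a => (h5 i a).1) (fun i a => (h5 i a).2.1) (fun i a => (h5 i a).2.2.2) hz
    simpa only [(h5 _ _).2.2.1, sum_empty, pow_zero, mul_one] using this

omit [DecidableEq σ] in
/-- monomials in the germs -/
theorem up_mon {A J : Type*} {a D : ℕ} {h S ρ : ℝ} (h1 : 1 ≤ h) (S0 : 0 ≤ S) {s x : σ → ℂ}
    {g0 g : A → (σ → ℂ) → ℂ} (hx : Cur h S ρ s x g0 g) (al : J → Fin a → A) {ex : J → σ → ℕ}
    (hD : ∀ j, ∑ l, ex j l ≤ D) : Cur h ((8 * h) ^ D * (2 * S) ^ a) ρ s x
      (fun j y => (∏ l, (y l - s l) ^ ex j l) * ∏ l, g0 (al j l) y)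
      fun j y => (∏ l, (y l - s l) ^ ex j l) * ∏ l, g (al j l) y := by
  classical
  have am : ∀ j p, AnalyticAt ℂ (fun y : σ → ℂ => ∏ l, (y l - s l) ^ ex j l) p := fun j p =>
    Finset.analyticAt_fun_prod _ fun l _ => ((coord_ana l).fun_sub analyticAt_const).fun_pow _
  refine ⟨fun j => (am j s).fun_mul (Finset.analyticAt_fun_prod _ fun l _ => hx.an0 _),
    fun j p hp => (am j p).fun_mul (Finset.analyticAt_fun_prod _ fun l _ => hx.an _ p hp),
    fun y hy => ?_⟩
  obtain ⟨φ, f, e1, e2, e3, e4, e5⟩ := hx.arc y hy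
  refine ⟨φ, fun u j => (∏ l, (φ u l - s l) ^ ex j l) * ∏ l, f u (al j l), e1, e2, e3, e4,
    fun j => ⟨?_, fun u hu => ?_, by simp only [e3, (e5 _).2.2.1],
      (eventually_all.2 fun l => (e5 (al j l)).2.2.2).mono fun u hu => by simp only [hu]⟩⟩
  · exact DifferentiableOn.fun_mul (fun u hu => (am j _).differentiableAt.comp_differentiableWithinAt
      u (e1 u hu)) (DifferentiableOn.fun_finsetProd fun l _ => (e5 _).1)
  · rw [norm_mul, norm_prod, norm_prod]
    refine mul_le_mul ?_ ?_ (prod_nonneg fun _ _ => norm_nonneg _) (by positivity)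
    · refine le_trans ?_ (pow_le_pow_right₀ (by linarith) (hD j))
      rw [← prod_pow_eq_pow_sum]
      refine prod_le_prod (fun _ _ => norm_nonneg _) fun l _ => ?_
      rw [norm_pow]
      exact pow_le_pow_left₀ (norm_nonneg _)
        (((norm_le_pi_norm (φ u - s) l).trans (e4 u hu)).trans (by linarith)) _
    · refine (prod_le_prod (g := fun _ => 2 * S) (fun _ _ => norm_nonneg _) fun l _ =>
        ((e5 _).2.1 u hu).trans (by linarith)).trans_eq (by simp)

end

variable {σ : Type*} [Fintype σ] [DecidableEq σ]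
  {K L A J : Type*} [Field K] [Field L] [Fintype A] [Fintype J] {a k : ℕ}

theorem upe_main (ι : L →+* ℂ) (φ : K →+* ℂ) {s : σ → L} {ρ S h C : ℝ} (ρ0 : 0 < ρ)
    (h1 : 1 ≤ h) (S0 : 0 ≤ S) {W : A → A → MvPowerSeries σ K} (al : J → Fin a → A)
    {ex : J → σ → ℕ} {D Y : ℕ} (hD : ∀ j, ∑ l, ex j l ≤ D) {x : Fin k → σ → L}
    {Φ : Fin k → A → MvPowerSeries σ L} {μ : Fin k → A → ℂ} {g0 g : Fin k → A → (σ → ℂ) → ℂ}
    (hx : ∀ i, Cur h S ρ (fun l => ι (s l)) (fun l => ι (x i l)) (g0 i) (g i))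
    (hg : ∀ i α, tayM (g0 i α) (fun l => ι (s l)) =
      ∑ β, MvPowerSeries.C (μ i β) * map φ (W β α) ∧
      tayM (g i α) (fun l => ι (x i l)) = map ι (Φ i α))
    {c : (Fin k → J) → ℂ} (hc : ∀ γ, ‖c γ‖ ≤ C)
    (hz : ∀ κ : Fin k → σ →₀ ℕ, ∑ i, (κ i).degree < Y →
      ∑ β : Fin k → Fin a → A, (∏ i, ∏ l, μ i (β i l)) * ∑ γ, c γ * ∏ i,
        φ (coeff (κ i) ((∏ l, X l ^ ex (γ i) l) * ∏ l, W (β i l) (al (γ i) l))) = 0)
    (n : Fin k → σ →₀ ℕ) :
    ‖∑ γ, c γ * ∏ i, ι (coeff (n i) (τm (x i) (mns s (ex (γ i))) * ∏ l, Φ i (al (γ i) l)))‖ ≤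
      C * (Fintype.card J ^ k * ((2 * ((8 * h) ^ D * (2 * S) ^ a)) ^ k * (1 / 4) ^ Y *
        (2 / ρ) ^ ∑ i, (n i).degree)) := by
  classical
  have T : ∀ (p : σ → ℂ) (f : A → (σ → ℂ) → ℂ) (j : J), (∀ α, AnalyticAt ℂ (f α) p) →
      tayM (fun y => (∏ l, (y l - ι (s l)) ^ ex j l) * ∏ l, f (al j l) y) p =
      (∏ l, (X l + MvPowerSeries.C (p l - ι (s l))) ^ ex j l) * ∏ l, tayM (f (al j l)) p :=
    fun p f j hf => by
      rw [tayM_mul (Finset.analyticAt_fun_prod _ fun l _ =>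
          ((coord_ana l).fun_sub analyticAt_const).fun_pow _)
        (Finset.analyticAt_fun_prod _ fun l _ => hf _), tayM_prod _ fun l _ => hf _,
        tayM_prod _ fun l _ => ((coord_ana l).fun_sub analyticAt_const).fun_pow _]
      simp only [tayM_pow ((coord_ana _).fun_sub analyticAt_const),
        tayM_sub (coord_ana _) analyticAt_const, tayM_coord, tayM_const, map_sub, add_sub_assoc]
  have key := up_abs c ρ0 (by positivity) (fun i => up_mon h1 S0 (hx i) al hD) (Y := Y)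
    (fun κ hκ => by
      simp only [T _ _ _ (hx _).an0, (hg _ _).1, sub_self, map_zero, add_zero]
      rw [← hz κ hκ]
      simp only [mul_sum]
      rw [sum_comm]
      refine sum_congr rfl fun γ _ => ?_
      have : ∀ i, coeff (κ i) ((∏ l, X l ^ ex (γ i) l) *
          ∏ l, ∑ β, MvPowerSeries.C (μ i β) * map φ (W β (al (γ i) l))) =
          ∑ β : Fin a → A, (∏ l, μ i (β l)) *
            φ (coeff (κ i) ((∏ l, X l ^ ex (γ i) l) * ∏ l, W (β l) (al (γ i) l))) := fun i => by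
        simp only [prod_univ_sum, Fintype.piFinset_univ, mul_sum, map_sum, prod_mul_distrib,
          ← map_prod (MvPowerSeries.C (σ := σ) (R := ℂ))]
        refine sum_congr rfl fun β _ => ?_
        rw [mul_left_comm, coeff_C_mul, ← coeff_map]
        simp only [map_mul, map_prod, map_pow, map_X]
      simp only [this]
      simp only [prod_univ_sum, Fintype.piFinset_univ, mul_sum, prod_mul_distrib]
      exact sum_congr rfl fun β _ => by ring) n
  have e : ∀ i j, tayM (fun y => (∏ l, (y l - ι (s l)) ^ ex j l) * ∏ l, g i (al j l) y)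
      (fun l => ι (x i l)) = map ι (τm (x i) (mns s (ex j)) * ∏ l, Φ i (al j l)) := fun i j => by
    rw [T _ _ _ fun α => (hx i).an α _ (mem_closedBall_self ρ0.le)]
    simp only [(hg i _).2, upb_τ, map_mul, map_prod, map_pow, map_add, map_X, map_C, map_sub]
  simp only [e, coeff_map, prod_const, card_univ, Fintype.card_fin] at key
  refine key.trans ?_
  have : ∑ γ, ‖c γ‖ ≤ C * Fintype.card J ^ k :=
    (sum_le_card_nsmul _ _ C fun γ _ => hc γ).trans (by simp [mul_comm])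
  rw [← mul_assoc C, mul_assoc (∑ γ, ‖c γ‖), mul_assoc (∑ γ, ‖c γ‖)]
  exact mul_le_mul_of_nonneg_right this (by positivity)

end

end Pool.Agent.Lib.MP_5591bc_ag.E
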