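import Pool.Agent.Lib.MP_5591bc_ag.M.Core
import Pool.Agent.Lib.MP_5591bc_ag.E.Up

/-! The counting theorem with curved discs. -/

namespace Pool.Agent.Lib.MP_5591bc_ag.E

open MvPowerSeries G W M Finset

theorem core_upV {σ K L A : Type} [Fintype σ] [DecidableEq σ] [Field K] [Field L] [Fintype A]
    {ι : L →+* ℂ} {φ : K →+* ℂ} {Λ : ℕ} {s : σ → L} {P : Finset (σ → L)}
    {W : A → A → MvPowerSeries σ K} {Φ : (σ → L) → A → MvPowerSeries σ L} {μ : (σ → L) → A → ℂ}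
    (h : ∀ x ∈ P, ∃ (g0 g : A → (σ → ℂ) → ℂ) (S : ℝ),
      Cur (2 ^ Λ) S (2 ^ Λ)⁻¹ (fun l => ι (s l)) (fun l => ι (x l)) g0 g ∧ ∀ α,
        tayM (g0 α) (fun l => ι (s l)) = ∑ β, C (μ x β) * map φ (W β α) ∧
        tayM (g α) (fun l => ι (x l)) = map ι (Φ x α)) :
    UpV ι Λ s P Φ fun x α => ∑ β, C (μ x β) * map φ (W β α) := by
  choose! g0 g Sx hc hg using h
  obtain ⟨S, S0, hS⟩ : ∃ S, 0 ≤ S ∧ ∀ x ∈ P, Sx x ≤ S := ⟨∑ x ∈ P, |Sx x|, by positivity,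
    fun x hx => (le_abs_self _).trans (single_le_sum (f := fun x => |Sx x|)
      (fun _ _ => abs_nonneg _) hx)⟩
  have h1 : (1 : ℝ) ≤ 2 ^ Λ := one_le_pow₀ one_le_two
  refine fun a => ⟨2 * (2 * S) ^ a, by positivity, ?_⟩
  intro J _ al ex D Y k x c C hD hP hC hz n
  have C0 : ∀ γ : Fin k → J, 0 ≤ C := fun γ => (norm_nonneg _).trans (hC γ)
  refine (upe_main ι φ (ρ := (2 ^ Λ)⁻¹) (by positivity) h1 S0 al (D := Fintype.card σ * D) (Y := Y)
    (fun j => (sum_le_card_nsmul _ _ D fun l _ => hD j l).trans (by simp))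
    (Φ := fun i => Φ (x i)) (μ := fun i => μ (x i)) (fun i => ⟨(hc _ (hP i)).an0, (hc _ (hP i)).an,
      fun y hy => let ⟨f, Z, a1, a2, a3, a4, a5⟩ := (hc _ (hP i)).arc y hy
        ⟨f, Z, a1, a2, a3, a4, fun α => ⟨(a5 α).1, fun u hu => ((a5 α).2.1 u hu).trans
          (hS _ (hP i)), (a5 α).2.2⟩⟩⟩) (fun i => hg _ (hP i)) hC (fun κ hκ => ?_) n).trans ?_
  · rw [← hz κ hκ, sum_congr rfl fun γ _ => congrArg _ (ths_sum φ W al ex (fun i => μ (x i)) κ γ)]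
    simp only [mul_sum]
    rw [sum_comm]
    simp only [mul_left_comm (c _), thsM]
  · cases isEmpty_or_nonempty (Fin k → J) with
    | inl e =>
      have := Fintype.card_eq_zero (α := Fin k → J)
      rw [Fintype.card_fun, Fintype.card_fin] at this
      rw [← Nat.cast_pow, this, Nat.cast_zero, zero_mul, zero_mul]
    | inr e =>
      have := C0 e.some
      rw [div_inv_eq_mul, mul_left_comm 2]
      gcongr
      norm_num

theorem coreQE (σ : Type) [Fintype σ] [DecidableEq σ] : ∃ c : ℕ,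
    ∀ (A A' : Type) [Fintype A] [Fintype A'] (q : A → A') (ρ : A' → A)
      (K L R : Type) [Field K] [NumberField K] [Field L] [NumberField L] [Algebra K L] [CommRing R]
      [IsDomain R] [Algebra ℂ R] (ι : L →+* ℂ) (Λ : ℕ) (s : σ → K) (T : MvPolynomial σ L)
      (B : σ → Matrix A A (MvPolynomial σ L)) (W : A → A → MvPowerSeries σ K) (P : Finset (σ → L))
      (Φ : (σ → L) → A → MvPowerSeries σ L) (ev : R →ₐ[ℂ] ℂ) (p : (σ → L) → A → R) (v : A → ℂ),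
      MvPolynomial.eval (fun l => algebraMap K L (s l)) T ≠ 0 →
      GKm (2 ^ Λ) (fun q : A × A => W q.1 q.2) →
      (∀ x ∈ P, DatE ι Λ s T B W x (Φ x) fun β => ev (p x β)) →
      (∀ x ∈ P, ∑ j, v j • p x j ≠ 0) → (∀ x ∈ P, ∑ j, v j * ev (p x j) = 0) →
      (∀ x ∈ P, ∀ a (φ : (Fin a → A) → MvPolynomial σ L), ∑ α, τm x (φ α) * ∏ l, Φ x (α l) = 0 →
        ∑ α, ι (MvPolynomial.eval (fun l => algebraMap K L (s l)) (φ α)) • ∏ l, p x (α l) = 0) →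
      (∀ x ∈ P, ∀ i, Φ x (ρ (q i)) = Φ x i ∧ p x (ρ (q i)) = p x i) →
      Hyp (P : Set (σ → L)) ((Λ + Fintype.card A' + 2) ^ (c * (Fintype.card A' + 1))) :=
  (coreQV σ).imp fun _ h A A' _ _ q ρ K L R _ _ _ _ _ _ _ _ ι Λ s T B W P Φ ev p v hT hW hP =>
    h A A' q ρ K L R ι Λ s T B W P Φ ev p v hT hW
      (fun x hx => let d := hP x hx; ⟨d.ne, d.ode, d.fld, d.gk, d.den, d.hou⟩)
      (core_upV fun x hx => (hP x hx).ana)

end Pool.Agent.Lib.MP_5591bc_ag.E
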