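import Pool.Agent.Lib.MP_5591bc_ag.E.Main

/-! The hypersurface for all analytic continuations and real height bounds. -/

namespace Pool.Agent.Lib.MP_5591bc_ag.E

open Matrix Filter Topology G R W M Metric MvPolynomial

noncomputable section

section
variable {σ K ν : Type*} [Fintype σ] [DecidableEq σ] [Field K] [Algebra K ℂ] [Fintype ν]
  [DecidableEq ν] {T : MvPolynomial σ K} {B : σ → Matrix ν ν (MvPolynomial σ K)}
  {U U' : Set (σ → ℂ)} {P P' : (σ → ℂ) → Matrix ν ν ℂ}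

omit [DecidableEq σ] in
theorem fin_det {t : σ → ℂ} (h : ∀ i j, AnalyticAt ℂ (fun z => P z i j) t) :
    AnalyticAt ℂ (fun z => (P z).det) t := by
  simp only [det_apply']
  exact Finset.analyticAt_fun_sum _ fun _ _ =>
    analyticAt_const.fun_mul (Finset.analyticAt_fun_prod _ fun _ _ => h _ _)

theorem fin_ode (ho : IsOpen U) (hc : IsPreconnected U) (hP : FundM T B U P) (h : ContM U P U' P') :
    (U'.Nonempty → ∃ z ∈ U', (P' z).det ≠ 0) ∧ ∀ i j l, ∀ z ∈ U', aeval z T *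
      fderiv ℂ (fun z => P' z i j) z (Pi.single l 1) - ∑ a, aeval z (B l i a) * P' z a j = 0 := by
  induction h with
  | base => exact ⟨fun ⟨z, hz⟩ => ⟨z, hz, (hP z hz).1⟩, fun i j l z hz =>
      sub_eq_zero.2 (((hP z hz).2 i j).2 l)⟩
  | step U1 U2 P1 P2 s h1 o2 c2 d2 s1 s2 e ih =>
    obtain ⟨o1, c1, d1⟩ := cont_dom ho hc (fun i j t ht => ((hP t ht).2 i j).1) h1
    refine ⟨fun _ => ?_, fun i j l => goodV_id c2 (fun t ht =>
      ((aeval_ana T).fun_mul (pd_ana (d2 i j t ht) l)).fun_sub (Finset.analyticAt_fun_sum _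
        fun a _ => (aeval_ana _).fun_mul (d2 a j t ht))) s2 ?_⟩
    · by_contra! hn
      obtain ⟨z, hz, z0⟩ := ih.1 ⟨s, s1⟩
      refine z0 (goodV_id c1 (fun t ht => fin_det fun i j => d1 i j t ht) s1 ?_ z hz)
      filter_upwards [e, o2.mem_nhds s2] with t a b using a ▸ hn t b
    · have e' : (fun z => P1 z i j) =ᶠ[𝓝 s] fun z => P2 z i j := e.mono fun s hs => by simp only [hs]
      filter_upwards [e, o1.mem_nhds s1, e'.fderiv (𝕜 := ℂ)] with t a b c
      rw [← a, ← c]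
      exact ih.2 i j l t b

theorem fund_cont (T0 : T ≠ 0) (ho : IsOpen U) (hc : IsPreconnected U) (hP : FundM T B U P)
    (hne : U.Nonempty) (h : ContM U P U' P') {t : σ → ℂ} (ht : t ∈ U') (hT : aeval t T ≠ 0) :
    ∃ r > 0, ball t r ⊆ U' ∧ FundM T B (ball t r) P' := by
  obtain ⟨o1, c1, d1⟩ := cont_dom ho hc (fun i j t ht => ((hP t ht).2 i j).1) h
  obtain ⟨h1, h2⟩ := fin_ode ho hc hP h
  have hd : (P' t).det ≠ 0 := fun e0 => by
    obtain ⟨V, G, oV, tV, hG⟩ := loc_fund ho hne hP T0 t hT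
    have k1 : ContinuousAt (fun ε : ℂ => (G t + ε • P' t).det) 0 := by fun_prop
    obtain ⟨ε, e1, e2⟩ := (((k1.eventually_ne (y := 0) (by simpa using (hG t tV).1)).filter_mono
      (nhdsWithin_le_nhds (s := {0}ᶜ))).and self_mem_nhdsWithin).exists
    have an : ∀ z ∈ V ∩ U', ∀ i j, AnalyticAt ℂ (fun z => (G z + ε • P' z) i j) z :=
      fun z hz i j => ((hG z hz.1).2 i j).1.fun_add (analyticAt_const.fun_mul (d1 i j z hz.2))
    obtain ⟨r, r0, hr⟩ := Metric.eventually_nhds_iff_ball.1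
      (((fin_det (an t ⟨tV, ht⟩)).continuousAt.eventually_ne e1).and
        ((oV.inter o1).mem_nhds ⟨tV, ht⟩))
    have k2 : FundM T B (ball t r) fun z => G z + ε • P' z := fun z hz =>
      ⟨(hr z hz).1, fun i j => ⟨an z (hr z hz).2 i j, fun l => by
        have a1 := ((hG z (hr z hz).2.1).2 i j).1.differentiableAt.hasFDerivAt.fun_add
          ((d1 i j z (hr z hz).2.2).differentiableAt.hasFDerivAt.const_mul ε)
        have a2 := ((hG z (hr z hz).2.1).2 i j).2 l
        have a3 := h2 i j l z (hr z hz).2.2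
        simp only [Matrix.add_apply, Matrix.smul_apply, smul_eq_mul, a1.fderiv, mul_add,
          Finset.sum_add_distrib, mul_left_comm _ ε, ← Finset.mul_sum,
          _root_.add_apply, _root_.smul_apply]
        linear_combination a2 + ε * a3⟩⟩
    obtain ⟨γ, hγ⟩ : ∃ γ, ∀ᶠ z in 𝓝 t, ε • P' z = G z * γ :=
      ⟨_ - 1, (fund_uniq isOpen_ball oV k2 hG (mem_ball_self r0) tV hT).mono fun z hz => by
        rw [Matrix.mul_sub, ← hz, Matrix.mul_one, add_sub_cancel_left]⟩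
    have g0 : γ.det = 0 := by
      have := congrArg det hγ.self_of_nhds
      rw [det_smul, e0, mul_zero, det_mul] at this
      exact (mul_eq_zero.1 this.symm).resolve_left (hG t tV).1
    obtain ⟨z, hz, z0⟩ := h1 ⟨t, ht⟩
    refine z0 (goodV_id c1 (fun t ht => fin_det fun i j => d1 i j t ht) ht (hγ.mono fun z hz => ?_)
      z hz)
    have := congrArg det hz
    rw [det_smul, det_mul, g0, mul_zero] at this
    exact (mul_eq_zero.1 this).resolve_left (pow_ne_zero _ e2)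
  obtain ⟨r, r0, hr⟩ := Metric.eventually_nhds_iff_ball.1
    (((fin_det fun i j => d1 i j t ht).continuousAt.eventually_ne hd).and (o1.mem_nhds ht))
  exact ⟨r, r0, fun z hz => (hr z hz).2, fun z hz => ⟨(hr z hz).1, fun i j =>
    ⟨d1 i j z (hr z hz).2, fun l => sub_eq_zero.1 (h2 i j l z (hr z hz).2)⟩⟩⟩

omit [DecidableEq σ] [Fintype ν] [DecidableEq ν] in
theorem cont_ne (h : ContM U P U' P') (hne : U'.Nonempty) : U.Nonempty := by
  induction h with
  | base => exact hne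
  | step _ _ _ _ s _ _ _ _ s1 _ _ ih => exact ih ⟨s, s1⟩

omit [DecidableEq σ] [Fintype ν] [DecidableEq ν] in
theorem good_empty [IsEmpty σ] (δ : ℕ) (x : σ → K) : GoodV U P δ x := by
  refine fun F _ h0 => ⟨rename Sum.inr F, fun U' P' h t _ => ?_, ?_⟩
  · have e : P' t = P fun l => algebraMap K ℂ (x l) := by
      induction h with
      | base => exact congrArg P (Subsingleton.elim _ _)
      | step _ _ _ _ s _ _ _ _ s1 _ e ih =>
        obtain rfl : s = t := Subsingleton.elim _ _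
        exact e.self_of_nhds.symm.trans (ih s1)
    rw [aeval_rename, e]
    exact h0
  · rw [aeval_rename]
    exact aeval_X_left_apply F

end

variable {σ K : Type} [Fintype σ] [DecidableEq σ] [Field K] [NumberField K]
  [Algebra K ℂ] {n : ℕ} {T : MvPolynomial σ K}
  {B : σ → Matrix (Fin n) (Fin n) (MvPolynomial σ K)}

theorem hypE (T0 : T ≠ 0) (h : GalM T B) : ∃ C : ℕ, ∀ (δ : ℕ) (U : Set (σ → ℂ))
    (P : (σ → ℂ) → Matrix (Fin n) (Fin n) ℂ), IsOpen U → IsPreconnected U → FundM T B U P →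
      ConnM U P → RatMon K U P → ∀ (d : ℕ) (H : ℝ), 2 ≤ H → ∃ Q : MvPolynomial σ ℂ, Q ≠ 0 ∧
        (Q.totalDegree : ℝ) ≤ (C * (δ + 1) * d * Real.log H) ^ (C * (δ + 1) ^ n ^ 2) ∧
        ∀ U' P', ContM U P U' P' → ∀ t ∈ U',
          (∀ j, ∃ q : Polynomial ℤ, q ≠ 0 ∧ (∀ i, |(q.coeff i : ℝ)| ≤ H) ∧
            Polynomial.aeval (t j) q = 0) →
          ∀ (E : IntermediateField K ℂ) (x : σ → E), (∀ j, (x j : ℂ) = t j) →
            FiniteDimensional ℚ E → Module.finrank ℚ E ≤ d → ¬ GoodV U' P' δ x →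
              eval t Q = 0 := by
  classical
  rcases isEmpty_or_nonempty σ with _ | _
  · exact ⟨0, fun δ U P _ _ _ _ _ d H _ => ⟨1, one_ne_zero, by simp,
      fun U' P' _ t _ _ E x _ _ _ hb => absurd (good_empty δ x) hb⟩⟩
  obtain ⟨C, C0, hg⟩ := hyp_natE T0 h
  obtain ⟨g, eg⟩ : ∃ g, g = T.totalDegree := ⟨_, rfl⟩
  refine ⟨4 * (C + g + 1), fun δ U P ho hU hP hC hM d H H2 => ?_⟩
  have l2 : Real.log 2 ≤ Real.log H := Real.log_le_log two_pos H2
  have l0 := Real.log_two_gt_d9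
  rcases Nat.eq_zero_or_pos d with rfl | d0
  · refine ⟨1, one_ne_zero, ?_, fun _ _ _ t _ _ E _ _ _ hd =>
      absurd Module.finrank_pos (not_lt.2 hd)⟩
    rw [totalDegree_one]
    exact Nat.cast_zero.trans_le (pow_nonneg (by simp) _)
  obtain ⟨L, L0, L1, L2⟩ : ∃ L : ℕ, 0 < L ∧ H ≤ 2 ^ L ∧ (L : ℝ) ≤ 4 * Real.log H := by
    refine ⟨⌈2 * Real.log H⌉₊, Nat.ceil_pos.2 (by linarith), ?_, ?_⟩
    · rw [← Real.log_le_log_iff (by linarith) (by positivity), Real.log_pow]
      nlinarith [Nat.le_ceil (2 * Real.log H)]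
    · linarith [Nat.ceil_lt_add_one (show 0 ≤ 2 * Real.log H by linarith)]
  have h1 : Hyp {z : σ → ℂ | aeval z T = 0} g :=
    ⟨TM ℂ T, (map_ne_zero_iff _ (map_injective _ (algebraMap K ℂ).injective)).2 T0,
      eg ▸ Finset.sup_mono (support_map_subset _ _), fun z hz => by rwa [eval_map, ← aeval_def]⟩
  obtain ⟨Q, Q0, Q1, Q2⟩ := h1.union (hyp_of_finset
    fun S e => hg δ U P ho hU hP hC hM d L d0 L0 S fun t ht => e ht)
  refine ⟨Q, Q0, ?_, fun U' P' ct t tU b E x hx f hd hb => Q2 t ((em _).imp id fun hT => ?_)⟩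
  · obtain ⟨y, ey⟩ : ∃ y, y = (δ + 1) * (d * L) := ⟨_, rfl⟩
    obtain ⟨N, eN⟩ : ∃ N, N = (δ + 1) ^ n ^ 2 := ⟨_, rfl⟩
    have y0 : 0 < y := ey ▸ by positivity
    have N0 : 0 < N := eN ▸ by positivity
    rw [mul_assoc, ← ey, ← eN] at Q1
    have k0 : g + (C * y) ^ (C * N) ≤ (C * y + (g + 1)) ^ (C * N) :=
      le_trans (by rw [add_comm]; exact Nat.add_le_add_left (g.le_succ.trans
        (Nat.le_self_pow (by positivity) _)) _) (pow_add_pow_le (by omega) (by omega) (by positivity))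
    have k1 : Q.totalDegree ≤ ((C + g + 1) * y) ^ (4 * (C + g + 1) * N) :=
      (Q1.trans k0).trans ((Nat.pow_le_pow_left (by nlinarith) _).trans
        (Nat.pow_le_pow_right (by positivity) (by gcongr; omega)))
    refine (Nat.cast_le.2 k1).trans ?_
    rw [ey, eN]
    push_cast
    refine pow_le_pow_left₀ (by positivity) ?_ _
    calc _ ≤ ((C + g + 1) * ((δ + 1) * (d * (4 * Real.log H))) : ℝ) := by gcongr
      _ = _ := by ring
  obtain ⟨o1, c1, d1⟩ := cont_dom ho hU (fun i j t ht => ((hP t ht).2 i j).1) ct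
  obtain ⟨r, r0, r1, r2⟩ := fund_cont T0 ho hU hP (cont_ne ct ⟨t, tU⟩) ct tU hT
  obtain rfl : pc x = t := funext hx
  refine ⟨fun j => ?_, _, P', .step _ _ _ _ _ ct isOpen_ball (convex_ball _ _).isPreconnected
    (fun i j z hz => d1 i j z (r1 hz)) tU (mem_ball_self r0) (.of_forall fun _ => rfl), r2,
    mem_ball_self r0, E, x, rfl, f, hd, fun k => hb (good_mul isOpen_ball o1 c1 d1 (mem_ball_self r0)
      tU (r2 _ (mem_ball_self r0)).1 (γ := 1) (γ' := 1) (by simp) (by simp) k)⟩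
  obtain ⟨q, q0, q1, q2⟩ := b j
  exact ⟨q, q0, fun i => (q1 i).trans L1, q2⟩

end

end Pool.Agent.Lib.MP_5591bc_ag.E
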